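import Pool.Agent.Lib.MP_706923_co.Spec2

/-!
MP_706923_co, P5: a residue class of good primes.
-/

set_option autoImplicit false

namespace Pool.Agent.Lib.MP_706923_co

open scoped NumberTheorySymbols

namespace ClassM

theorem crt (A B a b : ℕ) (hAB : A.Coprime B) (ha : a.Coprime A) (hb : b.Coprime B) :
    ∃ u : ℕ, u.Coprime (A * B) ∧ ∀ q, q ≡ u [MOD A * B] → q ≡ a [MOD A] ∧ q ≡ b [MOD B] := by
  obtain ⟨u, hua, hub⟩ := Nat.chineseRemainder hAB a b
  refine ⟨u, Nat.Coprime.mul_right ?_ ?_, ?_⟩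
  · exact hua.gcd_eq.trans ha
  · exact hub.gcd_eq.trans hb
  · intro q hq
    exact ⟨(hq.of_mul_right B).trans hua, (hq.of_mul_left A).trans hub⟩

/-- from a natural number to a class -/
theorem fin (l M u : ℕ) (hM : 0 < M) (hu : u.Coprime M)
    (h : ∀ q : ℕ, q.Prime → q ≡ u [MOD M] → Good l q) :
    ∃ (M : ℕ) (a : ZMod M), 0 < M ∧ IsUnit a ∧
      ∀ q : ℕ, q.Prime → (q : ZMod M) = a → Good l q :=
  ⟨M, (u : ZMod M), hM, (ZMod.isUnit_iff_coprime u M).2 hu, fun q hq hqa =>
    h q hq ((ZMod.natCast_eq_natCast_iff q u M).1 hqa)⟩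

theorem swap {q b u : ℕ} (hq : q % 4 = 1) (hb : Odd b) (h : q ≡ u [MOD b]) :
    jacobiSym (b : ℤ) q = jacobiSym (u : ℤ) b := by
  rw [← jacobiSym.quadratic_reciprocity_one_mod_four hq hb, jacobiSym.mod_left (q : ℤ),
    jacobiSym.mod_left (u : ℤ)]
  have h' : ((q : ℤ) % b) = ((u : ℤ) % b) := by exact_mod_cast h
  rw [h']

theorem odd_of {q : ℕ} (hq : q % 4 = 1) : Odd q := Nat.odd_iff.2 (by omega)

theorem neg_one {q : ℕ} (hq : q % 4 = 1) : jacobiSym (-1) q = 1 := by
  rw [jacobiSym.at_neg_one (odd_of hq)]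
  exact ZMod.χ₄_nat_one_mod_four hq

theorem sq_of (q l : ℕ) [Fact q.Prime] (hl : 1 ≤ l) (hq : q % 4 = 1)
    (hN : q ≡ 1 [MOD 4 * l - 1]) : IsSquare ((1 : ZMod q) - 4 * (l : ZMod q)) := by
  have hodd : Odd (4 * l - 1) := Nat.odd_iff.2 (by omega)
  have e : (1 - 4 * (l : ℤ)) = (-1) * ((4 * l - 1 : ℕ) : ℤ) := by
    rw [Nat.cast_sub (by omega)]
    push_cast
    ring
  have hJ : jacobiSym (1 - 4 * (l : ℤ)) q = 1 := by
    rw [e, jacobiSym.mul_left, neg_one hq, swap hq hodd hN, Nat.cast_one, jacobiSym.one_left,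
      mul_one]
  have := ZMod.isSquare_of_jacobiSym_eq_one hJ
  push_cast at this
  exact this

/-- `l` is a repeated square of a number which is not a square -/
theorem root (l : ℕ) (hl : 2 ≤ l) : ∃ μ t : ℕ, 2 ≤ μ ∧ ¬ IsSquare μ ∧ l = μ ^ (2 ^ t) := by
  induction l using Nat.strong_induction_on with
  | _ l ih =>
    by_cases hs : IsSquare l
    · obtain ⟨m, rfl⟩ := hs
      have hm : 2 ≤ m := by
        by_contra h
        have : m ≤ 1 := by omega
        have := Nat.mul_le_mul this this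
        omega
      have hlt : m < m * m := by nlinarith
      obtain ⟨μ, t, h1, h2, h3⟩ := ih m hlt hm
      refine ⟨μ, t + 1, h1, h2, ?_⟩
      rw [pow_succ 2 t, pow_mul, ← h3]
      ring
    · exact ⟨l, 0, hl, hs, by simp⟩

theorem lt_of (q l : ℕ) (hl : 1 ≤ l) (hq : 2 ≤ q) (hN : q ≡ 1 [MOD 4 * l - 1]) : l < q := by
  have h := (Nat.modEq_iff_dvd' (by omega : 1 ≤ q)).1 hN.symm
  have := Nat.le_of_dvd (by omega) h
  omega

end ClassM

open ClassM in
theorem goodClass (h1 : S_Crit1) (h2 : S_Crit2) (h3 : S_Jac) (h4 : S_Desc) : S_GoodClass := by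
  intro l hl hl16
  obtain ⟨μ, t, hμ2, hμ, hlμ⟩ := root l hl
  obtain ⟨e, μ', hμ'odd, hμe⟩ := Nat.exists_eq_two_pow_mul_odd (by omega : μ ≠ 0)
  have hNodd : Odd (4 * l - 1) := Nat.odd_iff.2 (by omega)
  have hNpos : 0 < 4 * l - 1 := by omega
  have hμ'pos : 0 < μ' := hμ'odd.pos
  by_cases hsq : IsSquare μ'
  · -- `μ = 2 m ^ 2`
    obtain ⟨w, hw⟩ := hsq
    have hodd_e : ¬ Even e := by
      intro he
      obtain ⟨f, hf⟩ := he
      apply hμ
      refine ⟨2 ^ f * w, ?_⟩
      rw [hμe, hf, hw, pow_add]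
      ring
    obtain ⟨f, hf⟩ := Nat.not_even_iff_odd.1 hodd_e
    obtain ⟨m, hm⟩ : ∃ m, μ = 2 * m ^ 2 := by
      refine ⟨2 ^ f * w, ?_⟩
      rw [hμe, hf, hw, pow_succ, mul_comm 2 f, pow_mul]
      ring
    have hm1 : 1 ≤ m := by
      rcases Nat.eq_zero_or_pos m with h | h
      · rw [h] at hm
        omega
      · exact h
    rcases Nat.eq_zero_or_pos t with ht | ht
    · -- `t = 0`
      have hlμ0 : l = μ := by rw [hlμ, ht, pow_zero, pow_one]
      have hcop : Nat.Coprime 8 (4 * l - 1) := by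
        have : Nat.Coprime (2 ^ 3) (4 * l - 1) := Nat.Coprime.pow_left 3
          (Nat.coprime_two_left.2 hNodd)
        exact this
      obtain ⟨u, hu, huq⟩ := crt 8 (4 * l - 1) 5 1 hcop (by decide) (Nat.coprime_one_left _)
      refine fin l (8 * (4 * l - 1)) u (by omega) hu ?_
      intro q hq hqu
      have : Fact q.Prime := ⟨hq⟩
      obtain ⟨hq8, hqN⟩ := huq q hqu
      have hq8' : q % 8 = 5 := hq8
      have hq4 : q % 4 = 1 := by omega
      have hql := lt_of q l (by omega) hq.two_le hqN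
      have hJ : jacobiSym ((μ : ℕ) : ℤ) q = -1 := by
        have hmq : m.Coprime q := by
          have : m < q := by
            have : m ≤ μ := by rw [hm]; nlinarith
            omega
          exact (Nat.coprime_of_lt_prime (by omega) this hq).symm
        rw [hm]
        push_cast
        rw [jacobiSym.mul_left, jacobiSym.at_two (odd_of hq4), jacobiSym.sq_one' (by
          rw [Int.gcd_natCast_natCast]; exact hmq), mul_one, ZMod.χ₈_nat_eq_if_mod_eight]
        rw [if_neg (by omega), if_neg (by omega)]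
      refine h1 q l μ 0 (by rw [hlμ0, pow_zero, pow_one]) (by simpa using hq4) ?_
        (sq_of q l (by omega) hq4 hqN)
      have := ZMod.nonsquare_of_jacobiSym_eq_neg_one hJ
      rwa [Int.cast_natCast] at this
    · -- `t ≥ 1`
      obtain ⟨t', rfl⟩ : ∃ t', t = t' + 1 := ⟨t - 1, by omega⟩
      set c := μ ^ (2 ^ t') with hc
      have hlc : l = c ^ 2 := by rw [hlμ, pow_succ 2 t', pow_mul]
      have hc2 : 2 ≤ c := by
        rw [hc]
        calc 2 ≤ μ := hμ2
          _ = μ ^ 1 := (pow_one μ).symm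
          _ ≤ μ ^ (2 ^ t') := Nat.pow_le_pow_right (by omega) Nat.one_le_two_pow
      have hceven : 2 ∣ c := by
        have : 2 ∣ μ := by rw [hm]; exact dvd_mul_right _ _
        exact this.trans (dvd_pow_self μ (by positivity))
      have ho1 : Odd (2 * c - 1) := Nat.odd_iff.2 (by omega)
      have ho2 : Odd (2 * c + 1) := Nat.odd_iff.2 (by omega)
      have hn1 : ¬ IsSquare (2 * c - 1) := by
        rintro ⟨r, hr⟩
        have h4c : (2 * c - 1) % 4 = 3 := by omega
        rw [hr, Nat.mul_mod] at h4c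
        have : r % 4 < 4 := Nat.mod_lt _ (by norm_num)
        interval_cases (r % 4) <;> omega
      have hn2 : ¬ IsSquare (2 * c + 1) := by
        rintro ⟨r, hr⟩
        have h5 := h4 m t' r hm1 (by rw [← hm, ← hc, hr]; ring)
        rw [← hm, ← hc] at h5
        apply hl16
        rw [hlc, h5]
        norm_num
      obtain ⟨u₁, hu₁, hJ₁⟩ := h3 _ ho1 hn1
      obtain ⟨u₂, hu₂, hJ₂⟩ := h3 _ ho2 hn2
      have hcop1 : Nat.Coprime 8 (2 * c - 1) := by
        have : Nat.Coprime (2 ^ 3) (2 * c - 1) := Nat.Coprime.pow_left 3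
          (Nat.coprime_two_left.2 ho1)
        exact this
      have hcop2 : Nat.Coprime 8 (2 * c + 1) := by
        have : Nat.Coprime (2 ^ 3) (2 * c + 1) := Nat.Coprime.pow_left 3
          (Nat.coprime_two_left.2 ho2)
        exact this
      have hcop12 : Nat.Coprime (2 * c - 1) (2 * c + 1) := by
        have e : 2 * c + 1 = 2 + (2 * c - 1) := by omega
        rw [e, Nat.coprime_add_self_right]
        exact (Nat.coprime_two_left.2 ho1).symm
      obtain ⟨u, hu, huq⟩ := crt 8 (2 * c - 1) 1 u₁ hcop1 (Nat.coprime_one_left _) hu₁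
      obtain ⟨v, hv, hvq⟩ := crt (8 * (2 * c - 1)) (2 * c + 1) u u₂
        (Nat.Coprime.mul_left hcop2 hcop12) hu hu₂
      refine fin l (8 * (2 * c - 1) * (2 * c + 1)) v (by
        have : 0 < 2 * c - 1 := by omega
        positivity) hv ?_
      intro q hq hqv
      have : Fact q.Prime := ⟨hq⟩
      obtain ⟨hq1, hq2⟩ := hvq q hqv
      obtain ⟨hq8, hq3⟩ := huq q hq1
      have hq8' : q % 8 = 1 := hq8
      have hq4 : q % 4 = 1 := by omega
      have hJq1 : jacobiSym ((2 * c - 1 : ℕ) : ℤ) q = -1 := by rw [swap hq4 ho1 hq3, hJ₁]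
      have hJq2 : jacobiSym ((2 * c + 1 : ℕ) : ℤ) q = -1 := by rw [swap hq4 ho2 hq2, hJ₂]
      rw [hlc]
      refine h2 q c hq4 ?_ ?_
      · have := ZMod.nonsquare_of_jacobiSym_eq_neg_one hJq2
        rwa [Int.cast_natCast] at this
      · have e : (1 - 4 * (c : ℤ) ^ 2) = (-1) * (((2 * c - 1 : ℕ) : ℤ) * ((2 * c + 1 : ℕ) : ℤ)) := by
          rw [Nat.cast_sub (by omega)]
          push_cast
          ring
        have hJ : jacobiSym (1 - 4 * (c : ℤ) ^ 2) q = 1 := by
          rw [e, jacobiSym.mul_left, jacobiSym.mul_left, neg_one hq4, hJq1, hJq2]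
          norm_num
        have := ZMod.isSquare_of_jacobiSym_eq_one hJ
        push_cast at this
        exact this
  · -- the odd part of `μ` is not a square
    obtain ⟨u₀, hu₀, hJ₀⟩ := h3 μ' hμ'odd hsq
    have hdvd : μ' ∣ l := by
      rw [hlμ]
      have : μ' ∣ μ := by rw [hμe]; exact dvd_mul_left _ _
      exact this.trans (dvd_pow_self μ (by positivity))
    have hcopNμ : Nat.Coprime (4 * l - 1) μ' := by
      obtain ⟨s, hs⟩ := hdvd
      rw [Nat.coprime_comm]
      have h5 : Nat.gcd μ' (4 * l - 1) ∣ 1 := by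
        have h6 : Nat.gcd μ' (4 * l - 1) ∣ 4 * l :=
          (Nat.gcd_dvd_left _ _).trans (by rw [hs]; exact Dvd.intro (4 * s) (by ring))
        have h7 := (Nat.dvd_sub h6 (Nat.gcd_dvd_right μ' (4 * l - 1)))
        have e : 4 * l - (4 * l - 1) = 1 := by omega
        rwa [e] at h7
      exact Nat.dvd_one.1 h5
    have hcop1 : Nat.Coprime (2 ^ (t + 3)) (4 * l - 1) := Nat.Coprime.pow_left _
      (Nat.coprime_two_left.2 hNodd)
    have hcop2 : Nat.Coprime (2 ^ (t + 3)) μ' := Nat.Coprime.pow_left _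
      (Nat.coprime_two_left.2 hμ'odd)
    obtain ⟨v, hv, hvq⟩ := crt (2 ^ (t + 3) * (4 * l - 1)) μ' 1 u₀
      (Nat.Coprime.mul_left hcop2 hcopNμ) (Nat.coprime_one_left _) hu₀
    refine fin l (2 ^ (t + 3) * (4 * l - 1) * μ') v (by positivity) hv ?_
    intro q hq hqv
    have : Fact q.Prime := ⟨hq⟩
    obtain ⟨hq1, hq2⟩ := hvq q hqv
    have hqt : q ≡ 1 [MOD 2 ^ (t + 3)] := hq1.of_mul_right _
    have hqN : q ≡ 1 [MOD 4 * l - 1] := hq1.of_mul_left _
    have hq8 : q % 8 = 1 := by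
      have : q ≡ 1 [MOD 8] := hqt.of_dvd (by
        have : (8 : ℕ) = 2 ^ 3 := by norm_num
        rw [this]
        exact pow_dvd_pow 2 (by omega))
      exact this
    have hqt2 : q % 2 ^ (t + 2) = 1 := by
      have h8 : q ≡ 1 [MOD 2 ^ (t + 2)] := hqt.of_dvd (pow_dvd_pow 2 (by omega))
      have h9 : q % 2 ^ (t + 2) = 1 % 2 ^ (t + 2) := h8
      rw [h9]
      exact Nat.mod_eq_of_lt (Nat.one_lt_two_pow (by omega))
    have hq4 : q % 4 = 1 := by omega
    have hJ : jacobiSym ((μ : ℕ) : ℤ) q = -1 := by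
      rw [hμe]
      push_cast
      rw [jacobiSym.mul_left, jacobiSym.pow_left, jacobiSym.at_two (odd_of hq4),
        ZMod.χ₈_nat_eq_if_mod_eight, if_neg (by omega), if_pos (by omega), one_pow, one_mul,
        swap hq4 hμ'odd hq2, hJ₀]
    refine h1 q l μ t hlμ hqt2 ?_ (sq_of q l (by omega) hq4 hqN)
    have := ZMod.nonsquare_of_jacobiSym_eq_neg_one hJ
    rwa [Int.cast_natCast] at this

end Pool.Agent.Lib.MP_706923_co
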