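import Pool.Agent.Lib.MP_706923_co.Spec

/-!
MP_706923_co, module T3: Chinese remainder and density.
-/

set_option autoImplicit false

namespace Pool.Agent.Lib.MP_706923_co

open Finset

namespace CrtAux

open scoped Classical in
/-- the `x < M` with `A x` -/
noncomputable def st (A : ℕ → Prop) (M : ℕ) : Finset ℕ := (range M).filter A

theorem mem_st {A : ℕ → Prop} {M x : ℕ} : x ∈ st A M ↔ x < M ∧ A x := by
  classical
  unfold st
  simp only [mem_filter, mem_range]

/-- number of `x < M` with `A x` -/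
noncomputable def cnt (A : ℕ → Prop) (M : ℕ) : ℕ := (st A M).card

theorem natCard_eq (A : ℕ → Prop) (N : ℕ) : Nat.card {x : ℕ // x < N ∧ A x} = cnt A N := by
  unfold cnt
  apply Nat.subtype_card
  intro x
  exact mem_st

theorem cnt_mono (A : ℕ → Prop) {M N : ℕ} (h : M ≤ N) : cnt A M ≤ cnt A N := by
  unfold cnt
  apply card_le_card
  intro x hx
  rw [mem_st] at hx ⊢
  exact ⟨hx.1.trans_le h, hx.2⟩

/-- periodic predicates -/
def Per (A : ℕ → Prop) (M : ℕ) : Prop := ∀ x, A (x + M) ↔ A x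

theorem Per.mul {A : ℕ → Prop} {M : ℕ} (h : Per A M) (q : ℕ) : Per A (M * q) := by
  induction q with
  | zero => intro x; simp
  | succ q ih =>
    intro x
    rw [Nat.mul_succ, ← add_assoc, h, ih]

theorem Per.mod {A : ℕ → Prop} {M : ℕ} (h : Per A M) (x : ℕ) : A (x % M) ↔ A x := by
  have h1 := h.mul (x / M) (x % M)
  rw [Nat.mod_add_div] at h1
  exact h1.symm

theorem cnt_mul {A : ℕ → Prop} {M : ℕ} (h : Per A M) (q : ℕ) : cnt A (M * q) = q * cnt A M := by
  classical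
  induction q with
  | zero => simp [cnt, st]
  | succ q ih =>
    have h1 : cnt A (M * (q + 1)) = cnt A (M * q) + cnt A M := by
      unfold cnt st
      rw [Nat.mul_succ, ← Nat.count_eq_card_filter_range, ← Nat.count_eq_card_filter_range,
        ← Nat.count_eq_card_filter_range, Nat.count_add]
      congr 1
      rw [Nat.count_eq_card_filter_range, Nat.count_eq_card_filter_range]
      congr 1
      apply filter_congr
      intro x _
      rw [add_comm]
      exact h.mul q x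
    rw [h1, ih]; ring

theorem ub_of_per {A : ℕ → Prop} {M : ℕ} (hM : 0 < M) (h : Per A M) {c : ℝ}
    (hc : (cnt A M : ℝ) ≤ M * c) : UB A c := by
  have hM' : (0 : ℝ) < M := by exact_mod_cast hM
  refine ⟨cnt A M, fun N => ?_⟩
  rw [natCard_eq]
  have h1 : N ≤ M * (N / M + 1) := by
    have := Nat.div_add_mod N M
    have := Nat.mod_lt N hM
    rw [Nat.mul_succ]
    omega
  have h2 : cnt A N ≤ (N / M + 1) * cnt A M := by
    rw [← cnt_mul h]
    exact cnt_mono A h1
  have h3 : ((N / M : ℕ) : ℝ) ≤ (N : ℝ) / M := Nat.cast_div_le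
  have h4 : (cnt A N : ℝ) ≤ (((N / M : ℕ) : ℝ) + 1) * cnt A M := by exact_mod_cast h2
  have h5 : (0 : ℝ) ≤ cnt A M := Nat.cast_nonneg _
  calc (cnt A N : ℝ) ≤ (((N / M : ℕ) : ℝ) + 1) * cnt A M := h4
    _ ≤ ((N : ℝ) / M + 1) * cnt A M := by gcongr
    _ = (N : ℝ) / M * cnt A M + cnt A M := by ring
    _ ≤ (N : ℝ) / M * (M * c) + cnt A M := by
        have : (0 : ℝ) ≤ (N : ℝ) / M := by positivity
        gcongr
    _ = c * N + cnt A M := by field_simp

theorem cnt_and {A A' : ℕ → Prop} {M M' : ℕ} (hM : 0 < M) (hM' : 0 < M')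
    (hco : Nat.Coprime M M') (h : Per A M) (h' : Per A' M') :
    cnt (fun x => A x ∧ A' x) (M * M') = cnt A M * cnt A' M' := by
  unfold cnt
  rw [← card_product]
  refine card_bij (fun x _ => (x % M, x % M')) ?_ ?_ ?_
  · intro x hx
    rw [mem_st] at hx
    rw [mem_product, mem_st, mem_st]
    exact ⟨⟨Nat.mod_lt _ hM, (h.mod x).2 hx.2.1⟩, ⟨Nat.mod_lt _ hM', (h'.mod x).2 hx.2.2⟩⟩
  · intro x hx y hy hxy
    rw [mem_st] at hx hy
    rw [Prod.mk.injEq] at hxy
    have h1 : x ≡ y [MOD M * M'] := (Nat.modEq_and_modEq_iff_modEq_mul hco).1 hxy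
    exact Nat.ModEq.eq_of_lt_of_lt h1 hx.1 hy.1
  · rintro ⟨a, b⟩ hab
    rw [mem_product, mem_st, mem_st] at hab
    obtain ⟨⟨ha, ha'⟩, ⟨hb, hb'⟩⟩ := hab
    dsimp only at ha ha' hb hb'
    obtain ⟨z, hz1, hz2⟩ := Nat.chineseRemainder hco a b
    have e1 : z % (M * M') % M = a := by
      rw [Nat.mod_mul_right_mod]
      exact Nat.ModEq.eq_of_lt_of_lt ((Nat.mod_modEq z M).trans hz1) (Nat.mod_lt _ hM) ha
    have e2 : z % (M * M') % M' = b := by
      rw [Nat.mod_mul_left_mod]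
      exact Nat.ModEq.eq_of_lt_of_lt ((Nat.mod_modEq z M').trans hz2) (Nat.mod_lt _ hM') hb
    refine ⟨z % (M * M'), ?_, ?_⟩
    · rw [mem_st]
      refine ⟨Nat.mod_lt _ (Nat.mul_pos hM hM'), ?_, ?_⟩
      · rw [← h.mod, e1]
        exact ha'
      · rw [← h'.mod, e2]
        exact hb'
    · rw [Prod.mk.injEq]
      exact ⟨e1, e2⟩

theorem cnt_not (A : ℕ → Prop) (M : ℕ) : cnt (fun x => ¬ A x) M + cnt A M = M := by
  unfold cnt
  rw [← card_union_of_disjoint]
  · have h : st (fun x => ¬ A x) M ∪ st A M = range M := by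
      ext x
      rw [mem_union, mem_st, mem_st, mem_range]
      tauto
    rw [h, card_range]
  · rw [disjoint_left]
    intro x hx hx'
    rw [mem_st] at hx hx'
    exact hx.2 hx'.2

theorem main (e : ℕ) (he : 1 ≤ e) (P : ℕ → ℕ → Prop) (F : Finset ℕ) (hp : ∀ p ∈ F, p.Prime)
    (hper : ∀ p ∈ F, ∀ x, P p (x + p ^ e) ↔ P p x)
    (hcard : ∀ p ∈ F, (p : ℝ) ^ e / (2 * p) ≤ (cnt (P p) (p ^ e) : ℝ)) :
    Per (fun n => ∀ p ∈ F, ¬ P p n) (∏ p ∈ F, p ^ e) ∧
      (cnt (fun n => ∀ p ∈ F, ¬ P p n) (∏ p ∈ F, p ^ e) : ℝ) ≤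
        ((∏ p ∈ F, p ^ e : ℕ) : ℝ) * Real.exp (-∑ p ∈ F, 1 / (2 * (p : ℝ))) := by
  classical
  induction F using Finset.induction_on with
  | empty =>
    refine ⟨fun x => by simp, ?_⟩
    have h1 : cnt (fun n => ∀ p ∈ (∅ : Finset ℕ), ¬ P p n) (∏ p ∈ (∅ : Finset ℕ), p ^ e) ≤ 1 := by
      have := cnt_not (fun n => ∀ p ∈ (∅ : Finset ℕ), ¬ P p n) (∏ p ∈ (∅ : Finset ℕ), p ^ e)
      rw [prod_empty] at this ⊢
      omega
    have h2 : (cnt (fun n => ∀ p ∈ (∅ : Finset ℕ), ¬ P p n) (∏ p ∈ (∅ : Finset ℕ), p ^ e) : ℝ) ≤ 1 := by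
      exact_mod_cast h1
    refine h2.trans ?_
    simp
  | insert q F hq ih =>
    obtain ⟨ih1, ih2⟩ := ih (fun p hpF => hp p (mem_insert_of_mem hpF))
      (fun p hpF => hper p (mem_insert_of_mem hpF)) (fun p hpF => hcard p (mem_insert_of_mem hpF))
    have hqp := hp q (mem_insert_self q F)
    have hq0 : (0 : ℝ) < q := by exact_mod_cast hqp.pos
    have hperq : Per (fun x => ¬ P q x) (q ^ e) := fun x => not_congr (hper q (mem_insert_self q F) x)
    have heq : (fun n => ∀ p ∈ insert q F, ¬ P p n) = fun n => ¬ P q n ∧ ∀ p ∈ F, ¬ P p n := by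
      funext n
      rw [eq_iff_iff, forall_mem_insert]
    have hco : Nat.Coprime (q ^ e) (∏ p ∈ F, p ^ e) := by
      apply Nat.Coprime.prod_right
      intro p hpF
      apply Nat.Coprime.pow
      rw [Nat.coprime_primes hqp (hp p (mem_insert_of_mem hpF))]
      rintro rfl
      exact hq hpF
    have hMF : 0 < ∏ p ∈ F, p ^ e :=
      prod_pos fun p hpF => pow_pos (hp p (mem_insert_of_mem hpF)).pos e
    have hMq : 0 < q ^ e := pow_pos hqp.pos e
    rw [prod_insert hq, heq]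
    constructor
    · intro x
      have h1 := hperq.mul (∏ p ∈ F, p ^ e) x
      have h2 := ih1.mul (q ^ e) x
      rw [mul_comm] at h2
      exact and_congr h1 h2
    · rw [cnt_and hMq hMF hco hperq ih1, sum_insert hq]
      have h1 := cnt_not (P q) (q ^ e)
      have h2 := hcard q (mem_insert_self q F)
      have h3 : (cnt (fun x => ¬ P q x) (q ^ e) : ℝ) + cnt (P q) (q ^ e) = (q : ℝ) ^ e := by
        exact_mod_cast h1
      have h4 : (cnt (fun x => ¬ P q x) (q ^ e) : ℝ) ≤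
          (q : ℝ) ^ e * Real.exp (-(1 / (2 * (q : ℝ)))) := by
        have h5 := Real.add_one_le_exp (-(1 / (2 * (q : ℝ))))
        have h6 : (q : ℝ) ^ e * (-(1 / (2 * (q : ℝ))) + 1) ≤
            (q : ℝ) ^ e * Real.exp (-(1 / (2 * (q : ℝ)))) :=
          mul_le_mul_of_nonneg_left h5 (by positivity)
        have h7 : (q : ℝ) ^ e * (-(1 / (2 * (q : ℝ))) + 1) = (q : ℝ) ^ e - (q : ℝ) ^ e / (2 * q) := by
          ring
        rw [h7] at h6
        linarith
      push_cast
      rw [neg_add, Real.exp_add]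
      have h8 : (0 : ℝ) ≤ cnt (fun n => ∀ p ∈ F, ¬ P p n) (∏ p ∈ F, p ^ e) := Nat.cast_nonneg _
      calc (cnt (fun x => ¬ P q x) (q ^ e) : ℝ) *
            cnt (fun n => ∀ p ∈ F, ¬ P p n) (∏ p ∈ F, p ^ e)
          ≤ ((q : ℝ) ^ e * Real.exp (-(1 / (2 * (q : ℝ))))) *
            (((∏ p ∈ F, p ^ e : ℕ) : ℝ) * Real.exp (-∑ p ∈ F, 1 / (2 * (p : ℝ)))) :=
            mul_le_mul h4 ih2 h8 (by positivity)
        _ = _ := by push_cast; ring

end CrtAux

open CrtAux in
theorem crt : S_Crt := by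
  classical
  intro T hT hns e he P hper hcard ε hε
  -- a finite set with a large sum
  obtain ⟨u, hu⟩ : ∃ u : Finset ℕ,
      2 * (-Real.log ε) < ∑ p ∈ u, (if T p then (1 : ℝ) / p else 0) := by
    by_contra hcon
    push Not at hcon
    apply hns
    refine summable_of_sum_le (c := 2 * (-Real.log ε)) (fun p => ?_) (fun u => ?_)
    · split_ifs
      · positivity
      · exact le_rfl
    · convert hcon u using 2
  have hsum : ∑ p ∈ u, (if T p then (1 : ℝ) / p else 0) = ∑ p ∈ u.filter T, (1 : ℝ) / p := by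
    rw [sum_filter]
  rw [hsum] at hu
  have hF : ∀ p ∈ u.filter T, T p := fun p hp => (mem_filter.1 hp).2
  refine ⟨u.filter T, hF, ?_⟩
  obtain ⟨h1, h2⟩ := main e he P (u.filter T) (fun p hp => hT p (hF p hp))
    (fun p hp => hper p (hF p hp)) (fun p hp => by
      have := hcard p (hF p hp)
      rwa [natCard_eq] at this)
  have hpos : 0 < ∏ p ∈ u.filter T, p ^ e :=
    prod_pos fun p hp => pow_pos (hT p (hF p hp)).pos e
  refine ub_of_per hpos h1 (h2.trans ?_)
  refine mul_le_mul_of_nonneg_left ?_ (Nat.cast_nonneg _)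
  have h3 : ∑ p ∈ u.filter T, 1 / (2 * (p : ℝ)) = (∑ p ∈ u.filter T, (1 : ℝ) / p) / 2 := by
    rw [sum_div]
    refine sum_congr rfl fun p _ => ?_
    rw [div_div, mul_comm]
  rw [h3]
  calc Real.exp (-((∑ p ∈ u.filter T, (1 : ℝ) / p) / 2)) ≤ Real.exp (Real.log ε) := by
        apply Real.exp_le_exp.2
        linarith
    _ = ε := Real.exp_log hε

end Pool.Agent.Lib.MP_706923_co
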