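import Mathlib

/-!
MP_706923_co (difference sets with fixed lambda).  GOAL (all finite groups, abelian or not):
for every lambda >= 1 the set of all k for which some (v,k,lambda) difference set exists in some
finite group has natural density zero (so only o(sqrt x) values v <= x occur).

Paper proof.  Let D be a (v,k,l) difference set in G, n = k - l, so k^2 - k + l = l v.
(A) v even: n is a square (Schutzenberger).  (B) v odd, q | v prime, p prime, p^j = -1 mod q:
v_p(n) is even.  [Left multiplication by D on the free right Z[H]-module Z[G], H cyclic of order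
q, has a matrix A over R = Z[H] of odd size m = v/q with A A^* = n I + l N J, N = sum of H, so
delta = det A satisfies delta delta^* = n^m mod N; in F_p[H] one has delta^* = delta^(p^j).]
(C) density: primes q = 1 mod 4(4l-1) have a root of k^2-k+l mod q, sum 1/q diverges, so for
every eps there are finitely many such q such that all k outside a set of density eps have
q | v for one of them; for each such q the k with p^2 | n for every prime p = -1 mod q, p | n, have
density zero because the sum of 1/p over p = -1 mod q diverges.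

The statements below are the interfaces of the modules (one task each).
-/

set_option autoImplicit false

namespace Pool.Agent.Lib.MP_706923_co

/-- `D` is a difference set with parameter `l` in the group `G` (the condition of the frozen
statement). -/
def IsDS {G : Type} [Group G] [DecidableEq G] (D : Finset G) (l : ℕ) : Prop :=
  ∀ g : G, g ≠ 1 → ((D ×ˢ D).filter (fun p => p.1 * p.2⁻¹ = g)).card = l

/-- Upper density at most `c`, in the strong linear form. -/
def UB (A : ℕ → Prop) (c : ℝ) : Prop :=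
  ∃ K : ℝ, ∀ N : ℕ, (Nat.card {x : ℕ // x < N ∧ A x} : ℝ) ≤ c * N + K

/-- T1 (`NotSummable.lean`). `∑ 1/p` over the primes in a residue class diverges.

PROOF. Suppose it is summable. Let `f = ArithmeticFunction.vonMangoldt.residueClass a`
(`Mathlib/NumberTheory/LSeries/PrimesInAP.lean`), `g n = f n / (n * log n)` for `n ≥ 2`. For prime
`n` `g n` is `1/n` or `0`; for the non-primes use `summable_residueClass_non_primes_div` and
`log n ≥ log 2`. So `g` is summable, `S = ∑' g`. For `t ∈ (0,1]`, `L = log n`: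
`f n / n^(1+t) = g n * L * n^(-t) ≤ g n / t` (summable), and with `t_j = 2^(-j)`
`∑_{j=1}^J t_j L e^(-t_j L) ≤ 2`, because `t L e^(-tL) ≤ 2 (e^(-tL/2) - e^(-tL))`
(`e^(-a) - e^(-2a) ≥ a e^(-2a)`, `a = tL/2`) telescopes. Hence
`∑_{j=1}^J t_j ∑' n, f n / n^(1+t_j) ≤ 2 S`. But `LSeries_residueClass_lower_bound` gives
`∑' n, f n / n^(1+t_j) ≥ φ(q)⁻¹ / t_j - C`, so the left side is `≥ J/φ(q) - C`. Contradiction for
large `J`. -/
def S_NotSummable : Prop :=
  ∀ (q : ℕ) (_ : NeZero q) (a : ZMod q), IsUnit a →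
    ¬ Summable (fun p : ℕ => if p.Prime ∧ (p : ZMod q) = a then (1 : ℝ) / p else 0)

/-- T2 (`Schutz.lean`). Schutzenberger: `v` even implies `n = k - l` is a square.

PROOF. Let `A` be the integer matrix `A x y = if x * y⁻¹ ∈ D then 1 else 0` (indices in `G`).
`(A Aᵀ) x x' = #{y : x y⁻¹ ∈ D, x' y⁻¹ ∈ D}` `= #{(a,b) ∈ D × D : a b⁻¹ = x x'⁻¹}`, which is `k` for
`x = x'` and `l` otherwise. So `(det A)^2 = det ((k-l) I + l J) = (k-l)^(v-1) (k - l + l v)`
(matrix determinant lemma, e.g. `Matrix.det_one_add_replicateCol_mul_replicateRow` or a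
search for `det_add_replicateCol`; or `Matrix.det_eq_...`) and
`k - l + l v = k^2` (sum over `g` of the counts: `k^2 = k + l (v-1)`). If `k ≠ 0` then
`(k-l)^(v-1)` is a rational square and `v-1` is odd, so `k-l` is a square (it is `≥ 0` since
`l ≤ k`: `b ↦` the pair `(g b, b)` is injective). If `k = 0` then `l = 0` (as `v ≥ 2`) and `0` is a
square. -/
def S_Schutz : Prop :=
  ∀ (G : Type) [Group G] [Fintype G] [DecidableEq G] (D : Finset G) (l : ℕ),
    IsDS D l → Even (Fintype.card G) → ∃ s : ℕ, D.card = l + s ^ 2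

/-- T3 (`Crt.lean`). Chinese remainder and density.

PROOF. For `A` periodic mod `M` let `c(A,M) = #{x < M : A x}` (`Nat.count`). (i) `UB A (c(A,M)/M)`
(cut `[0,N)` into blocks, `Nat.filter_Ico_card_eq_of_periodic`), constant `K = M`. (ii) for coprime
`M, M'` and `A, A'` periodic mod `M, M'`: `c(A ∧ A', M M') = c(A,M) c(A',M')` by `x ↦ (x % M, x % M')`
(`Nat.chineseRemainder`). (iii) induction over the finite set `F ⊆ T`:
`c(∀ p ∈ F, ¬ P p, ∏ m p) = ∏ (m p - c(P p, m p)) ≤ ∏ m p * (1 - 1/(2p))`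
`≤ (∏ m p) exp(-∑ 1/(2p))`. (iv) choose `F` with `∑_{p ∈ F} 1/p` large (`¬ Summable`,
nonnegative terms). -/
def S_Crt : Prop :=
  ∀ (T : ℕ → Prop), (∀ p, T p → p.Prime) →
    (¬ Summable (fun p : ℕ => open Classical in if T p then (1 : ℝ) / p else 0)) →
    ∀ (e : ℕ) (_ : 1 ≤ e) (P : ℕ → ℕ → Prop),
      (∀ p, T p → ∀ x, P p (x + p ^ e) ↔ P p x) →
      (∀ p, T p → (p : ℝ) ^ e / (2 * p) ≤ (Nat.card {x : ℕ // x < p ^ e ∧ P p x} : ℝ)) →
      ∀ ε : ℝ, 0 < ε → ∃ F : Finset ℕ, (∀ p ∈ F, T p) ∧ UB (fun n => ∀ p ∈ F, ¬ P p n) ε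

/-- T4 (`Root.lean`). Roots modulo `q`.

PROOF. `1 - 4 l` is a square mod `q`: Jacobi symbols, `d = 4l-1` odd,
`(-d/q) = (-1/q)(d/q) = (d/q) = (q/d) = (1/d) = 1` since `q = 1 mod 4` and `q = 1 mod d`
(`jacobiSym.quadratic_reciprocity_one_mod_four`, `jacobiSym.mod_left`,
`jacobiSym.legendreSym.to_jacobiSym`, `legendreSym.eq_one_iff'`); then `k = (1 + s)/2`. -/
def S_Root : Prop :=
  ∀ (l q : ℕ), 1 ≤ l → q.Prime → q % (4 * (4 * l - 1)) = 1 →
    ∃ k : ℕ, k < q ∧ (q : ℤ) ∣ (k : ℤ) ^ 2 - k + l

end Pool.Agent.Lib.MP_706923_co
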