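import Mathlib
import Pool.Agent.Lib.MP_706923_co.Spec

/-!
MP_706923_co: Mann-type test in an arbitrary finite group of odd order.
-/

set_option autoImplicit false

namespace Pool.Agent.Lib.MP_706923_co

open scoped BigOperators

section Ring

variable {H : Type} [CommGroup H]

/-- The ring automorphism `h ↦ h⁻¹` of the group ring. -/
noncomputable def sg (R : Type) [CommRing R] : MonoidAlgebra R H →+* MonoidAlgebra R H :=
  MonoidAlgebra.mapDomainRingHom R (invMonoidHom : H →* H)

lemma sg_single (R : Type) [CommRing R] (a : H) (r : R) :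
    sg R (MonoidAlgebra.single a r) = MonoidAlgebra.single a⁻¹ r := by
  simp [sg]

lemma sg_sg (R : Type) [CommRing R] (y : MonoidAlgebra R H) : sg R (sg R y) = y := by
  have : (sg R).comp (sg R) = RingHom.id (MonoidAlgebra R H) := by
    apply MonoidAlgebra.ringHom_ext
    · intro r; simp [sg_single]
    · intro a; simp [sg_single]
  exact congrArg (fun f => f y) this

instance charPH (p : ℕ) [Fact p.Prime] : CharP (MonoidAlgebra (ZMod p) H) p := by
  refine charP_of_injective_ringHom
    (f := (MonoidAlgebra.singleOneRingHom : ZMod p →+* MonoidAlgebra (ZMod p) H)) ?_ p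
  intro a b hab
  exact MonoidAlgebra.single_right_injective hab

lemma frob_pow (p : ℕ) [Fact p.Prime] (j : ℕ) (hj : ∀ x : H, x ^ (p ^ j) = x⁻¹)
    (y : MonoidAlgebra (ZMod p) H) : y ^ (p ^ j) = sg (ZMod p) y := by
  have key : iterateFrobenius (MonoidAlgebra (ZMod p) H) p j = sg (ZMod p) := by
    apply MonoidAlgebra.ringHom_ext
    · intro r
      rw [sg_single, iterateFrobenius_def, MonoidAlgebra.single_pow, ZMod.pow_card_pow]
      simp
    · intro a
      rw [sg_single, iterateFrobenius_def, MonoidAlgebra.single_pow, hj]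
      simp
  rw [← iterateFrobenius_def, key]

lemma eq_zero_of_mul_sg (p : ℕ) [Fact p.Prime] (j : ℕ) (hj1 : 1 ≤ j)
    (hj : ∀ x : H, x ^ (p ^ j) = x⁻¹) (y : MonoidAlgebra (ZMod p) H)
    (h0 : y * sg (ZMod p) y = 0) : y = 0 := by
  have hp : 2 ≤ p := (Fact.out : p.Prime).two_le
  have hpj : 2 ≤ p ^ j := le_trans hp (Nat.le_self_pow (by omega) p)
  have h1 : y ^ (p ^ j + 1) = 0 := by
    rw [pow_succ, frob_pow p j hj, mul_comm]; exact h0
  have h2 : y = y ^ (p ^ j * p ^ j) := by
    rw [pow_mul, frob_pow p j hj, frob_pow p j hj, sg_sg]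
  rw [h2]
  have : p ^ j + 1 ≤ p ^ j * p ^ j := by nlinarith
  obtain ⟨d, hd⟩ := Nat.exists_eq_add_of_le this
  rw [hd, pow_add, h1, zero_mul]

/-- Reduction of coefficients mod `p`. -/
noncomputable def red (p : ℕ) : MonoidAlgebra ℤ H →+* MonoidAlgebra (ZMod p) H :=
  MonoidAlgebra.mapRingHom H (Int.castRingHom (ZMod p))

lemma red_coeff (p : ℕ) (x : MonoidAlgebra ℤ H) (m : H) :
    (red p x).coeff m = ((x.coeff m : ℤ) : ZMod p) := by
  simp [red]

lemma red_sg (p : ℕ) (x : MonoidAlgebra ℤ H) : red p (sg ℤ x) = sg (ZMod p) (red p x) := by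
  have := MonoidAlgebra.mapRingHom_comp_mapDomainRingHom (Int.castRingHom (ZMod p))
    (invMonoidHom : H →* H)
  exact congrArg (fun f => f x) this

lemma exists_of_red_zero (p : ℕ) (x : MonoidAlgebra ℤ H) (h : red p x = 0) :
    ∃ x' : MonoidAlgebra ℤ H, x = (p : ℤ) • x' := by
  have hdiv : ∀ m, (p : ℤ) ∣ x.coeff m := by
    intro m
    have := red_coeff p x m
    rw [h] at this
    rw [← ZMod.intCast_zmod_eq_zero_iff_dvd]
    simpa using this.symm
  refine ⟨MonoidAlgebra.ofCoeff (x.coeff.mapRange (fun z => z / (p : ℤ)) (by simp)), ?_⟩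
  apply MonoidAlgebra.ext
  ext m
  simp only [MonoidAlgebra.coeff_smul_apply, MonoidAlgebra.coeff_ofCoeff, Finsupp.mapRange_apply,
    smul_eq_mul]
  rw [Int.mul_ediv_cancel' (hdiv m)]

lemma parity (p : ℕ) [Fact p.Prime] (j : ℕ) (hj1 : 1 ≤ j)
    (hj : ∀ x : H, x ^ (p ^ j) = x⁻¹) (W : MonoidAlgebra ℤ H) (m0 : H) (hW : W.coeff m0 = -1) :
    ∀ (N : ℕ) (c : ℤ) (X : MonoidAlgebra ℤ H), c ≠ 0 → c.natAbs = N →
      X * sg ℤ X = c • W → Even (padicValInt p c) := by
  have hp : p.Prime := Fact.out
  intro N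
  induction N using Nat.strong_induction_on with
  | _ N ih =>
    intro c X hc hN hX
    by_cases hpc : (p : ℤ) ∣ c
    · have h1 : red p X * sg (ZMod p) (red p X) = 0 := by
        rw [← red_sg, ← map_mul, hX]
        apply MonoidAlgebra.ext
        ext m
        rw [red_coeff]
        simp only [MonoidAlgebra.coeff_smul_apply, smul_eq_mul, Int.cast_mul,
          MonoidAlgebra.coeff_zero, Finsupp.coe_zero, Pi.zero_apply]
        rw [(ZMod.intCast_zmod_eq_zero_iff_dvd c p).mpr hpc, zero_mul]
      have h2 := eq_zero_of_mul_sg p j hj1 hj _ h1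
      obtain ⟨X', hX'⟩ := exists_of_red_zero p X h2
      have h3 : ((p : ℤ) * p) • (X' * sg ℤ X') = c • W := by
        rw [← hX, hX']
        have : sg ℤ ((p : ℤ) • X') = (p : ℤ) • sg ℤ X' := by
          rw [zsmul_eq_mul, map_mul, map_intCast, zsmul_eq_mul]
        rw [this, smul_mul_smul_comm]
      have h4 : ((p : ℤ) * p) ∣ c := by
        have := congrArg (fun z => z.coeff m0) h3
        simp only [MonoidAlgebra.coeff_smul_apply, smul_eq_mul, hW] at this
        exact ⟨-((X' * sg ℤ X').coeff m0), by linarith⟩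
      obtain ⟨c', hc'⟩ := h4
      have hp0 : (p : ℤ) ≠ 0 := by exact_mod_cast hp.ne_zero
      have hc'0 : c' ≠ 0 := by rintro rfl; simp at hc'; exact hc hc'
      have h5 : X' * sg ℤ X' = c' • W := by
        apply MonoidAlgebra.ext
        ext m
        have := congrArg (fun z => z.coeff m) h3
        simp only [MonoidAlgebra.coeff_smul_apply, smul_eq_mul, hc'] at this
        simp only [MonoidAlgebra.coeff_smul_apply, smul_eq_mul]
        have h6 : ((p : ℤ) * p) * ((X' * sg ℤ X').coeff m) = ((p : ℤ) * p) * (c' * W.coeff m) := by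
          rw [this]; ring
        exact mul_left_cancel₀ (mul_ne_zero hp0 hp0) h6
      have h7 : Even (padicValInt p c') := by
        refine ih c'.natAbs ?_ c' X' hc'0 rfl h5
        rw [← hN, hc', Int.natAbs_mul, Int.natAbs_mul]
        have h8 : 1 ≤ c'.natAbs := Int.natAbs_pos.mpr hc'0
        have h9 : 2 ≤ p := hp.two_le
        simp only [Int.natAbs_natCast]
        nlinarith [Nat.mul_le_mul h9 h9]
      rw [hc', padicValInt.mul (mul_ne_zero hp0 hp0) hc'0, padicValInt.mul hp0 hp0]
      have : padicValInt p (p : ℤ) = 1 := by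
        rw [padicValInt.of_nat]; exact padicValNat_self
      rw [this]
      rw [Nat.even_add]
      simp [h7]
    · have : padicValInt p c = 0 := by
        rw [padicValInt.eq_zero_of_not_dvd hpc]
      rw [this]; exact Even.zero
end Ring

end Pool.Agent.Lib.MP_706923_co
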