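import Mathlib
import Pool.Agent.Lib.MP_706923_co.Mann

/-!
MP_706923_co: Mann-type test in an arbitrary finite group of odd order (group part).
-/

set_option autoImplicit false

namespace Pool.Agent.Lib.MP_706923_co

open scoped BigOperators

section Count

variable {G : Type} [Group G] [Fintype G] [DecidableEq G]

lemma ds_pair_count (D : Finset G) (l : ℕ) (hD : IsDS D l) (a b : G) :
    (Finset.univ.filter (fun z : G => a * z ∈ D ∧ b * z ∈ D)).card
      = if a = b then D.card else l := by
  split_ifs with hab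
  · subst hab
    refine Finset.card_bij (fun z _ => a * z) ?_ ?_ ?_
    · intro z hz; simpa using hz
    · intro z _ w _ h; simpa using h
    · intro d hd; exact ⟨a⁻¹ * d, by simpa using hd, by simp⟩
  · have hne : a * b⁻¹ ≠ 1 := by
      intro h; exact hab (mul_inv_eq_one.mp h)
    rw [← hD (a * b⁻¹) hne]
    refine Finset.card_bij (fun z _ => (a * z, b * z)) ?_ ?_ ?_
    · intro z hz
      simp only [Finset.mem_filter, Finset.mem_univ, true_and] at hz
      simp only [Finset.mem_filter, Finset.mem_product]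
      refine ⟨hz, ?_⟩
      group
    · intro z _ w _ h
      simp only [Prod.mk.injEq] at h
      simpa using h.1
    · rintro ⟨x, y⟩ hxy
      simp only [Finset.mem_filter, Finset.mem_product] at hxy
      obtain ⟨⟨hx, hy⟩, he⟩ := hxy
      have hx' : a * (b⁻¹ * y) = x := by
        rw [← mul_assoc, ← he]; group
      refine ⟨b⁻¹ * y, ?_, ?_⟩
      · simp only [Finset.mem_filter, Finset.mem_univ, true_and]
        rw [hx']
        exact ⟨hx, by simpa using hy⟩
      · simp only [Prod.mk.injEq]
        exact ⟨hx', by group⟩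

/-- integer indicator -/
def ind (D : Finset G) (x : G) : ℤ := if x ∈ D then 1 else 0

lemma sum_ind (D : Finset G) (l : ℕ) (hD : IsDS D l) (a b : G) :
    ∑ z : G, ind D (a * z) * ind D (b * z) = l + if a = b then ((D.card : ℤ) - l) else 0 := by
  have h1 : ∑ z : G, ind D (a * z) * ind D (b * z)
      = ((Finset.univ.filter (fun z : G => a * z ∈ D ∧ b * z ∈ D)).card : ℤ) := by
    rw [Finset.card_filter, Nat.cast_sum]
    refine Finset.sum_congr rfl fun z _ => ?_
    unfold ind
    by_cases h1 : a * z ∈ D <;> by_cases h2 : b * z ∈ D <;> simp [h1, h2]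
  rw [h1, ds_pair_count D l hD a b]
  split_ifs <;> simp

end Count

section Mat

variable {G : Type} [Group G] [Fintype G] [DecidableEq G]
variable {C : Type} [CommGroup C] [Fintype C] [DecidableEq C] (f : C →* G)
variable {ι : Type} [Fintype ι] [DecidableEq ι] (r : ι → G)

noncomputable def Amat (D : Finset G) : Matrix ι ι (MonoidAlgebra ℤ C) :=
  fun i i' => ∑ c : C, MonoidAlgebra.single c (ind D (r i * f c * (r i')⁻¹))

/-- the sum of all group elements -/
noncomputable def NC : MonoidAlgebra ℤ C := ∑ u : C, MonoidAlgebra.single u 1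

lemma single_mul_NC (c : C) : MonoidAlgebra.single c 1 * (NC : MonoidAlgebra ℤ C) = NC := by
  unfold NC
  rw [Finset.mul_sum]
  simp only [MonoidAlgebra.single_mul_single, mul_one]
  exact Fintype.sum_equiv (Equiv.mulLeft c) _ _ (fun u => rfl)

lemma Amat_mul (hbij : Function.Bijective (fun p : ι × C => r p.1 * f p.2))
    (D : Finset G) (l : ℕ) (hD : IsDS D l) (i i'' : ι) :
    ((Amat f r D) * ((Amat f r D).map (sg ℤ)).transpose) i i''
      = (l : MonoidAlgebra ℤ C) * NC
        + if i = i'' then (((D.card : ℤ) - l : ℤ) : MonoidAlgebra ℤ C) else 0 := by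
  have hstep : ∀ i' : ι,
      (Amat f r D) i i' * sg ℤ ((Amat f r D) i'' i')
        = ∑ u : C, ∑ c' : C, MonoidAlgebra.single u
            (ind D (r i * f u * (f c' * (r i')⁻¹)) * ind D (r i'' * (f c' * (r i')⁻¹))) := by
    intro i'
    unfold Amat
    rw [map_sum, Finset.sum_mul_sum, Finset.sum_comm]
    rw [Finset.sum_comm (s := (Finset.univ : Finset C)) (t := (Finset.univ : Finset C))
      (f := fun u c' => MonoidAlgebra.single u
            (ind D (r i * f u * (f c' * (r i')⁻¹)) * ind D (r i'' * (f c' * (r i')⁻¹))))]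
    refine Finset.sum_congr rfl fun c' _ => ?_
    refine (Fintype.sum_equiv (Equiv.mulRight c') _ _ ?_).symm
    intro u
    simp only [Equiv.coe_mulRight, sg_single, MonoidAlgebra.single_mul_single]
    rw [mul_inv_cancel_right, map_mul]
    simp only [mul_assoc]
  have hmul : ((Amat f r D) * ((Amat f r D).map (sg ℤ)).transpose) i i''
      = ∑ i' : ι, (Amat f r D) i i' * sg ℤ ((Amat f r D) i'' i') := by
    rw [Matrix.mul_apply]
    rfl
  rw [hmul, Finset.sum_congr rfl (fun i' _ => hstep i'), Finset.sum_comm]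
  have hu : ∀ u : C, ∑ i' : ι, ∑ c' : C, MonoidAlgebra.single u
            (ind D (r i * f u * (f c' * (r i')⁻¹)) * ind D (r i'' * (f c' * (r i')⁻¹)))
      = MonoidAlgebra.single u ((l : ℤ) + if r i * f u = r i'' then ((D.card : ℤ) - l) else 0) := by
    intro u
    rw [← sum_ind D l hD (r i * f u) (r i'')]
    have hb : Function.Bijective (fun p : ι × C => f p.2 * (r p.1)⁻¹) := by
      have h1 : (fun p : ι × C => f p.2 * (r p.1)⁻¹)
          = (fun x : G => x⁻¹) ∘ (fun p : ι × C => r p.1 * f p.2) ∘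
            (fun p : ι × C => (p.1, p.2⁻¹)) := by
        funext p; simp
      rw [h1]
      refine (Equiv.inv G).bijective.comp (hbij.comp ?_)
      constructor
      · rintro ⟨a, b⟩ ⟨a', b'⟩ h
        simpa using h
      · rintro ⟨a, b⟩
        exact ⟨(a, b⁻¹), by simp⟩
    rw [← Fintype.sum_prod_type' (f := fun (i' : ι) (c' : C) => MonoidAlgebra.single u
            (ind D (r i * f u * (f c' * (r i')⁻¹)) * ind D (r i'' * (f c' * (r i')⁻¹))))]
    rw [← Fintype.sum_bijective _ hb
      (fun p : ι × C => ind D (r i * f u * (f p.2 * (r p.1)⁻¹)) * ind D (r i'' * (f p.2 * (r p.1)⁻¹)))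
      (fun z => ind D (r i * f u * z) * ind D (r i'' * z)) (fun p => rfl)]
    exact (map_sum (MonoidAlgebra.singleAddHom u : ℤ →+ MonoidAlgebra ℤ C) _ _).symm
  rw [Finset.sum_congr rfl (fun u _ => hu u)]
  have hiff : ∀ u : C, (r i * f u = r i'') ↔ (i = i'' ∧ u = 1) := by
    intro u
    constructor
    · intro h
      have := hbij.1 (a₁ := (i, u)) (a₂ := (i'', 1)) (by simpa using h)
      simpa using this
    · rintro ⟨rfl, rfl⟩; simp
  simp only [MonoidAlgebra.single_add, Finset.sum_add_distrib]
  congr 1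
  · unfold NC
    rw [Finset.mul_sum]
    refine Finset.sum_congr rfl fun u _ => ?_
    rw [MonoidAlgebra.natCast_def, MonoidAlgebra.single_mul_single]
    simp
  · by_cases hi : i = i''
    · rw [if_pos hi]
      rw [Finset.sum_eq_single (1 : C)]
      · rw [if_pos ((hiff 1).mpr ⟨hi, rfl⟩), MonoidAlgebra.intCast_def]
        simp
      · intro u _ hu1
        rw [if_neg (fun h => hu1 ((hiff u).mp h).2)]
        simp
      · intro h; exact absurd (Finset.mem_univ _) h
    · rw [if_neg hi]
      refine Finset.sum_eq_zero fun u _ => ?_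
      rw [if_neg (fun h => hi ((hiff u).mp h).1)]
      simp

/-- determinant identity modulo `NC` -/
lemma det_mod (hbij : Function.Bijective (fun p : ι × C => r p.1 * f p.2))
    (D : Finset G) (l : ℕ) (hD : IsDS D l) :
    ∃ t : MonoidAlgebra ℤ C,
      (Amat f r D).det * sg ℤ (Amat f r D).det
        = ((((D.card : ℤ) - l) ^ (Fintype.card ι) : ℤ) : MonoidAlgebra ℤ C) + NC * t := by
  set A := Amat f r D with hA
  set B := (A.map (sg ℤ)).transpose with hB
  let I : Ideal (MonoidAlgebra ℤ C) := Ideal.span {NC}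
  let π := Ideal.Quotient.mk I
  have hN : π NC = 0 := by
    rw [Ideal.Quotient.eq_zero_iff_mem]
    exact Ideal.subset_span rfl
  have h1 : (A * B).map π = (π (((D.card : ℤ) - l : ℤ) : MonoidAlgebra ℤ C)) • (1 : Matrix ι ι _) := by
    ext i i''
    rw [Matrix.map_apply, hB, hA, Amat_mul f r hbij D l hD i i'']
    rw [map_add, map_mul, hN, mul_zero, zero_add, Matrix.smul_apply, Matrix.one_apply]
    split_ifs <;> simp
  have h2 : π ((A * B).det) = (π (((D.card : ℤ) - l : ℤ) : MonoidAlgebra ℤ C)) ^ (Fintype.card ι) := by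
    rw [RingHom.map_det]
    have : π.mapMatrix (A * B) = (A * B).map π := rfl
    rw [this, h1, Matrix.det_smul, Matrix.det_one, mul_one]
  have h3 : (A * B).det = A.det * sg ℤ A.det := by
    rw [Matrix.det_mul, hB, Matrix.det_transpose]
    congr 1
    rw [RingHom.map_det]
    rfl
  rw [h3] at h2
  have h4 : π (A.det * sg ℤ A.det - ((((D.card : ℤ) - l) ^ (Fintype.card ι) : ℤ) : MonoidAlgebra ℤ C)) = 0 := by
    rw [map_sub, h2]
    push_cast
    simp
  rw [Ideal.Quotient.eq_zero_iff_mem, Ideal.mem_span_singleton'] at h4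
  obtain ⟨t, ht⟩ := h4
  refine ⟨t, ?_⟩
  rw [mul_comm NC t, ht]
  ring

end Mat

/-- **Mann-type test in arbitrary groups of odd order.** -/
theorem mann {G : Type} [Group G] [Fintype G] [DecidableEq G] (D : Finset G) (l : ℕ)
    (hD : IsDS D l) (hodd : Odd (Fintype.card G)) (q : ℕ) (hq : q.Prime)
    (hqG : q ∣ Fintype.card G) (p : ℕ) (hp : p.Prime) (j : ℕ) (hj1 : 1 ≤ j)
    (hj : q ∣ p ^ j + 1) (hn : (D.card : ℤ) ≠ l) :
    Even (padicValInt p ((D.card : ℤ) - l)) := by
  classical
  haveI : Fact q.Prime := ⟨hq⟩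
  haveI : Fact p.Prime := ⟨hp⟩
  obtain ⟨x, hx⟩ := exists_prime_orderOf_dvd_card q hqG
  let S : Subgroup G := Subgroup.zpowers x
  letI cg : CommGroup S :=
    { (inferInstance : Group S) with
      mul_comm := fun a b => (Subgroup.zpowers_isMulCommutative x).is_comm.comm a b }
  let ι := G ⧸ S
  letI : Fintype ι := Fintype.ofFinite ι
  letI : Fintype S := Fintype.ofFinite S
  let r : ι → G := fun i => Quotient.out i
  have hbij : Function.Bijective (fun p : ι × S => r p.1 * S.subtype p.2) := by
    constructor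
    · rintro ⟨i, c⟩ ⟨i', c'⟩ h
      simp only [Subgroup.coe_subtype] at h
      have h1 : i = i' := by
        have h2 : ((r i * c : G) : ι) = ((r i' * c' : G) : ι) := by rw [h]
        rw [QuotientGroup.mk_mul_of_mem _ c.2, QuotientGroup.mk_mul_of_mem _ c'.2] at h2
        simpa [r] using h2
      subst h1
      have h3 : (c : G) = c' := mul_left_cancel h
      rw [Subtype.ext h3]
    · intro g
      have h1 : (r (g : ι))⁻¹ * g ∈ S := by
        rw [← QuotientGroup.eq]
        simp [r]
      exact ⟨((g : ι), ⟨_, h1⟩), by simp⟩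
  have hcardS : Nat.card S = q := by
    rw [Nat.card_zpowers, hx]
  have hinv : ∀ y : S, y ^ (p ^ j) = y⁻¹ := by
    intro y
    rw [eq_inv_iff_mul_eq_one, ← pow_succ]
    obtain ⟨d, hd⟩ := hj
    rw [hd, pow_mul, ← hcardS, pow_card_eq_one', one_pow]
  obtain ⟨t, ht⟩ := det_mod (S.subtype) r hbij D l hD
  set δ := (Amat (S.subtype) r D).det with hδ
  let c0 : S := ⟨x, Subgroup.mem_zpowers x⟩
  have hq2 : q ≠ 2 := by
    rintro rfl
    exact (Nat.not_even_iff_odd.mpr hodd) (even_iff_two_dvd.mpr hqG)
  have hq3 : 3 ≤ q := by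
    have := hq.two_le; omega
  have hc0 : c0 ≠ 1 := by
    intro h
    have : x = 1 := congrArg Subtype.val h
    rw [this, orderOf_one] at hx
    omega
  have hc02 : c0⁻¹ ≠ c0 := by
    intro h
    have h1 : x⁻¹ = x := congrArg Subtype.val h
    have h2 : x ^ 2 = 1 := by
      rw [pow_two]
      nth_rewrite 1 [← h1]
      simp
    have h3 : q ∣ 2 := by rw [← hx]; exact orderOf_dvd_of_pow_eq_one h2
    have := Nat.le_of_dvd (by norm_num) h3
    omega
  let hh : MonoidAlgebra ℤ S := 1 - MonoidAlgebra.single c0 1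
  have hsh : sg ℤ hh = 1 - MonoidAlgebra.single c0⁻¹ 1 := by
    simp only [hh, map_sub, map_one, sg_single]
  let W : MonoidAlgebra ℤ S := hh * sg ℤ hh
  have hWc : W.coeff c0 = -1 := by
    have : W = 1 + 1 - MonoidAlgebra.single c0 1 - MonoidAlgebra.single c0⁻¹ 1 := by
      simp only [W, hsh, hh]
      have : (MonoidAlgebra.single c0 1 : MonoidAlgebra ℤ S) * MonoidAlgebra.single c0⁻¹ 1 = 1 := by
        rw [MonoidAlgebra.single_mul_single]; simp [MonoidAlgebra.one_def]
      linear_combination this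
    rw [this]
    simp only [MonoidAlgebra.coeff_sub, MonoidAlgebra.coeff_add, MonoidAlgebra.one_def,
      MonoidAlgebra.coeff_single, Finsupp.coe_sub, Finsupp.coe_add, Pi.sub_apply, Pi.add_apply]
    rw [Finsupp.single_eq_of_ne hc0, Finsupp.single_eq_same, Finsupp.single_eq_of_ne (Ne.symm hc02)]
    norm_num
  have hNh : NC * hh = 0 := by
    simp only [hh]
    rw [mul_sub, mul_one, mul_comm, single_mul_NC, sub_self]
  have hX : (hh * δ) * sg ℤ (hh * δ) = (((D.card : ℤ) - l) ^ (Fintype.card ι)) • W := by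
    rw [map_mul, zsmul_eq_mul]
    have : (hh * δ) * (sg ℤ hh * sg ℤ δ) = (δ * sg ℤ δ) * (hh * sg ℤ hh) := by ring
    rw [this, ht, add_mul]
    have h2 : NC * t * (hh * sg ℤ hh) = (NC * hh) * (t * sg ℤ hh) := by ring
    rw [h2, hNh, zero_mul, add_zero]
  have hn0 : ((D.card : ℤ) - l) ≠ 0 := sub_ne_zero.mpr hn
  have hpar := parity p j hj1 hinv W c0 hWc _ (((D.card : ℤ) - l) ^ (Fintype.card ι)) (hh * δ)
    (pow_ne_zero _ hn0) rfl hX
  have hodd2 : Odd (Fintype.card ι) := by
    have h1 : Nat.card G = Nat.card ι * Nat.card S := Subgroup.card_eq_card_quotient_mul_card_subgroup S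
    have h2 : Odd (Nat.card ι * Nat.card S) := by
      rw [← h1, Nat.card_eq_fintype_card]; exact hodd
    rw [← Nat.card_eq_fintype_card]
    exact (Nat.odd_mul.mp h2).1
  have hpow : padicValInt p (((D.card : ℤ) - l) ^ (Fintype.card ι))
      = Fintype.card ι * padicValInt p ((D.card : ℤ) - l) := by
    unfold padicValInt
    rw [Int.natAbs_pow, padicValNat.pow]
  rw [hpow, Nat.even_mul] at hpar
  rcases hpar with h | h
  · exact absurd h (Nat.not_even_iff_odd.mpr hodd2)
  · exact h

end Pool.Agent.Lib.MP_706923_co
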