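import Pool.Agent.Lib.MP_706923_co.Spec

/-! MP_706923_co, T1: the sum of `1/p` over the primes in a residue class diverges. -/

set_option autoImplicit false

namespace Pool.Agent.Lib.MP_706923_co

open ArithmeticFunction ArithmeticFunction.vonMangoldt Finset

namespace NS

theorem y_le (y : ℝ) : y * Real.exp (-y) ≤ 2 * (Real.exp (-(y / 2)) - Real.exp (-y)) := by
  have h1 : y / 2 + 1 ≤ Real.exp (y / 2) := Real.add_one_le_exp _
  have h2 : Real.exp (-(y / 2)) = Real.exp (-y) * Real.exp (y / 2) := by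
    rw [← Real.exp_add]
    congr 1
    ring
  rw [h2]
  have h3 : 0 < Real.exp (-y) := Real.exp_pos _
  nlinarith

theorem tele (L : ℝ) (J : ℕ) :
    ∑ j ∈ range J, ((1 / 2 : ℝ) ^ j * L) * Real.exp (-((1 / 2 : ℝ) ^ j * L))
      ≤ 2 * (Real.exp (-((1 / 2 : ℝ) ^ J * L)) - Real.exp (-L)) := by
  induction J with
  | zero => simp
  | succ J ih =>
    rw [sum_range_succ]
    have h := y_le ((1 / 2 : ℝ) ^ J * L)
    have e : (1 / 2 : ℝ) ^ (J + 1) * L = (1 / 2 : ℝ) ^ J * L / 2 := by
      rw [pow_succ]
      ring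
    rw [e]
    linarith

theorem rc_one {q : ℕ} (a : ZMod q) : residueClass a 1 = 0 :=
  le_antisymm ((residueClass_le a 1).trans (by simp)) (residueClass_nonneg a 1)

end NS

open NS in
theorem notSummable : S_NotSummable := by
  intro q _ a ha H
  set f : ℕ → ℝ := residueClass a with hf
  have hf0 : ∀ n, 0 ≤ f n := residueClass_nonneg a
  let g : ℕ → ℝ := fun n => f n / (n * Real.log n)
  have hg0 : ∀ n, 0 ≤ g n := fun n =>
    div_nonneg (hf0 n) (mul_nonneg (Nat.cast_nonneg n) (Real.log_natCast_nonneg n))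
  have hl2 : 0 < Real.log 2 := Real.log_pos one_lt_two
  have hnp := summable_residueClass_non_primes_div a
  have hgs : Summable g := by
    refine Summable.of_nonneg_of_le hg0 (fun n => ?_) (H.add (hnp.mul_left (1 / Real.log 2)))
    rcases Nat.lt_or_ge n 2 with hn | hn
    · have hgn : g n = 0 := by
        interval_cases n
        · simp [g]
        · simp [g]
      rw [hgn]
      have h1 : (0 : ℝ) ≤ if n.Prime ∧ (n : ZMod q) = a then (1 : ℝ) / n else 0 := by
        split_ifs
        · positivity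
        · exact le_rfl
      have h2 : (0 : ℝ) ≤ (if n.Prime then 0 else residueClass a n) / n := by
        refine div_nonneg ?_ (Nat.cast_nonneg n)
        split_ifs
        · exact le_rfl
        · exact hf0 n
      have h3 : (0 : ℝ) ≤ 1 / Real.log 2 := by positivity
      exact add_nonneg h1 (mul_nonneg h3 h2)
    · have hn0 : (0 : ℝ) < n := by
        have : 0 < n := by omega
        exact_mod_cast this
      have hln : Real.log 2 ≤ Real.log n :=
        Real.log_le_log two_pos (by exact_mod_cast hn)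
      have hlpos : 0 < Real.log n := hl2.trans_le hln
      by_cases hp : n.Prime
      · by_cases hna : (n : ZMod q) = a
        · have e1 : f n = Real.log n := by
            rw [hf]
            simp only [residueClass]
            rw [Set.indicator_of_mem (by exact hna)]
            exact vonMangoldt_apply_prime hp
          have : g n = 1 / n := by
            simp only [g]
            rw [e1]
            field_simp
          rw [this, if_pos ⟨hp, hna⟩, if_pos hp]
          simp
        · have e1 : f n = 0 := by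
            rw [hf]
            simp only [residueClass]
            exact Set.indicator_of_notMem (by exact hna) _
          have : g n = 0 := by
            simp only [g]
            rw [e1, zero_div]
          rw [this, if_neg (fun h => hna h.2), if_pos hp]
          simp
      · rw [if_neg (fun h => hp h.1), if_neg hp, zero_add]
        simp only [g]
        have e2 : 1 / Real.log 2 * (residueClass a n / n) = f n / (n * Real.log 2) := by
          rw [hf]
          field_simp
        rw [e2]
        exact div_le_div_of_nonneg_left (hf0 n) (by positivity)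
          (mul_le_mul_of_nonneg_left hln hn0.le)
  obtain ⟨C, hC⟩ := LSeries_residueClass_lower_bound ha
  have ht0 : ∀ j : ℕ, (0 : ℝ) < (1 / 2 : ℝ) ^ j := fun j => by positivity
  have ht1 : ∀ j : ℕ, (1 / 2 : ℝ) ^ j ≤ 1 := fun j => pow_le_one₀ (by norm_num) (by norm_num)
  have hsum : ∀ j : ℕ, Summable fun n : ℕ => f n / (n : ℝ) ^ (1 + (1 / 2 : ℝ) ^ j) := fun j =>
    LSeries.summable_real_of_abscissaOfAbsConv_lt <|
      (abscissaOfAbsConv_residueClass_le_one a).trans_lt <| by
        have := ht0 j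
        exact_mod_cast (by linarith : (1 : ℝ) < 1 + (1 / 2 : ℝ) ^ j)
  have hpt : ∀ (J n : ℕ), ∑ j ∈ range J, (1 / 2 : ℝ) ^ j * (f n / (n : ℝ) ^ (1 + (1 / 2 : ℝ) ^ j))
      ≤ 2 * g n := by
    intro J n
    rcases Nat.lt_or_ge n 2 with hn | hn
    · have hfn : f n = 0 := by
        interval_cases n
        · rw [hf]
          exact residueClass_apply_zero a
        · rw [hf]
          exact rc_one a
      have : 0 ≤ g n := hg0 n
      simp only [hfn, zero_div, mul_zero, sum_const_zero]
      linarith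
    · have hn0 : (0 : ℝ) < n := by
        have : 0 < n := by omega
        exact_mod_cast this
      have hlpos : 0 < Real.log n := hl2.trans_le
        (Real.log_le_log two_pos (by exact_mod_cast hn))
      have e : ∀ j ∈ range J, (1 / 2 : ℝ) ^ j * (f n / (n : ℝ) ^ (1 + (1 / 2 : ℝ) ^ j))
          = g n * (((1 / 2 : ℝ) ^ j * Real.log n) * Real.exp (-((1 / 2 : ℝ) ^ j * Real.log n))) := by
        intro j _
        have e1 : (n : ℝ) ^ (1 + (1 / 2 : ℝ) ^ j) = n * Real.exp ((1 / 2 : ℝ) ^ j * Real.log n) := by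
          rw [Real.rpow_add hn0, Real.rpow_one, Real.rpow_def_of_pos hn0, mul_comm (Real.log _)]
        rw [e1, Real.exp_neg]
        simp only [g]
        have : Real.exp ((1 / 2 : ℝ) ^ j * Real.log n) ≠ 0 := (Real.exp_pos _).ne'
        field_simp
      rw [sum_congr rfl e, ← mul_sum, mul_comm (2 : ℝ)]
      refine mul_le_mul_of_nonneg_left ((tele _ J).trans ?_) (hg0 n)
      have h1 : Real.exp (-((1 / 2 : ℝ) ^ J * Real.log n)) ≤ 1 := by
        rw [Real.exp_le_one_iff]
        have := mul_pos (ht0 J) hlpos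
        linarith
      have h2 := Real.exp_pos (-Real.log n)
      linarith
  have hS : ∀ J : ℕ, (J : ℝ) * (q.totient : ℝ)⁻¹ ≤ 2 * ∑' n, g n + |C| * 2 := by
    intro J
    have h1 : ∑ j ∈ range J, (1 / 2 : ℝ) ^ j * ∑' n : ℕ, f n / (n : ℝ) ^ (1 + (1 / 2 : ℝ) ^ j)
        ≤ 2 * ∑' n, g n := by
      have e1 : ∑ j ∈ range J, (1 / 2 : ℝ) ^ j * ∑' n : ℕ, f n / (n : ℝ) ^ (1 + (1 / 2 : ℝ) ^ j)
          = ∑' n : ℕ, ∑ j ∈ range J, (1 / 2 : ℝ) ^ j *
            (f n / (n : ℝ) ^ (1 + (1 / 2 : ℝ) ^ j)) := by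
        rw [Summable.tsum_finsetSum (fun j _ => (hsum j).mul_left _)]
        exact sum_congr rfl fun j _ => tsum_mul_left.symm
      rw [e1, ← tsum_mul_left]
      exact Summable.tsum_le_tsum (hpt J)
        (summable_sum fun j _ => (hsum j).mul_left _) (hgs.mul_left 2)
    have h2 : ∀ j ∈ range J, (q.totient : ℝ)⁻¹ - |C| * (1 / 2 : ℝ) ^ j
        ≤ (1 / 2 : ℝ) ^ j * ∑' n : ℕ, f n / (n : ℝ) ^ (1 + (1 / 2 : ℝ) ^ j) := by
      intro j _
      have hx : (1 + (1 / 2 : ℝ) ^ j) ∈ Set.Ioc (1 : ℝ) 2 :=
        ⟨by linarith [ht0 j], by linarith [ht1 j]⟩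
      have h3 := mul_le_mul_of_nonneg_left (hC hx) (ht0 j).le
      refine le_trans ?_ h3
      rw [add_sub_cancel_left, mul_sub]
      have e3 : (1 / 2 : ℝ) ^ j * ((q.totient : ℝ)⁻¹ / (1 / 2 : ℝ) ^ j) = (q.totient : ℝ)⁻¹ := by
        field_simp
      rw [e3]
      have h4 : (1 / 2 : ℝ) ^ j * C ≤ |C| * (1 / 2 : ℝ) ^ j := by
        rw [mul_comm]
        exact mul_le_mul_of_nonneg_right (le_abs_self C) (ht0 j).le
      linarith
    have h5 := (sum_le_sum h2).trans h1
    rw [sum_sub_distrib, sum_const, card_range, nsmul_eq_mul, ← mul_sum] at h5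
    have h6 : |C| * ∑ j ∈ range J, (1 / 2 : ℝ) ^ j ≤ |C| * 2 :=
      mul_le_mul_of_nonneg_left (sum_geometric_two_le J) (abs_nonneg C)
    linarith
  have hq : 0 < (q.totient : ℝ)⁻¹ := inv_pos.mpr (mod_cast q.totient.pos_of_neZero)
  obtain ⟨J, hJ⟩ := exists_nat_gt ((2 * ∑' n, g n + |C| * 2) / (q.totient : ℝ)⁻¹)
  rw [div_lt_iff₀ hq] at hJ
  exact absurd (hS J) (not_le.2 hJ)

end Pool.Agent.Lib.MP_706923_co
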