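import Mathlib
import Pool.Agent.Lib.MP_706923_co.Spec

/-!
# MP_706923_co, T4: roots of `k^2 - k + l` modulo `q`
-/

set_option autoImplicit false

namespace Pool.Agent.Lib.MP_706923_co

theorem Root_leg (l q : ℕ) (hl : 1 ≤ l) [hq : Fact q.Prime] (h : q % (4 * (4 * l - 1)) = 1) :
    legendreSym q (-((4 * l - 1 : ℕ) : ℤ)) = 1 := by
  have h4 : q % 4 = 1 := by
    have h1 := Nat.mod_mod_of_dvd q (Dvd.intro (4 * l - 1) rfl : 4 ∣ 4 * (4 * l - 1))
    rw [h] at h1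
    simpa using h1.symm
  have hd3 : 3 ≤ 4 * l - 1 := by omega
  have hd : q % (4 * l - 1) = 1 := by
    have h1 := Nat.mod_mod_of_dvd q (Dvd.intro_left 4 rfl : (4 * l - 1) ∣ 4 * (4 * l - 1))
    rw [h] at h1
    rw [← h1]
    exact Nat.mod_eq_of_lt (by omega)
  have hqodd : Odd q := by
    rw [Nat.odd_iff]
    omega
  have hdodd : Odd (4 * l - 1) := by
    rw [Nat.odd_iff]
    omega
  rw [jacobiSym.legendreSym.to_jacobiSym, jacobiSym.neg _ hqodd]
  have h1 : ZMod.χ₄ (q : ZMod 4) = 1 := ZMod.χ₄_nat_one_mod_four h4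
  rw [h1, one_mul, ← jacobiSym.quadratic_reciprocity_one_mod_four h4 hdodd, jacobiSym.mod_left]
  have h2 : ((q : ℤ) % ((4 * l - 1 : ℕ) : ℤ)) = 1 := by exact_mod_cast hd
  rw [h2, jacobiSym.one_left]

theorem root : S_Root := by
  intro l q hl hq h
  haveI : Fact q.Prime := ⟨hq⟩
  have hleg := Root_leg l q hl h
  have h4 : q % 4 = 1 := by
    have h1 := Nat.mod_mod_of_dvd q (Dvd.intro (4 * l - 1) rfl : 4 ∣ 4 * (4 * l - 1))
    rw [h] at h1
    simpa using h1.symm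
  have hne : ((-((4 * l - 1 : ℕ) : ℤ) : ℤ) : ZMod q) ≠ 0 := by
    intro h0
    rw [(legendreSym.eq_zero_iff q _).2 h0] at hleg
    exact zero_ne_one hleg
  obtain ⟨s, hs⟩ := (legendreSym.eq_one_iff q hne).1 hleg
  have h2 : (2 : ZMod q) ≠ 0 := by
    intro h0
    have h3 : ((2 : ℕ) : ZMod q) = 0 := by exact_mod_cast h0
    rw [ZMod.natCast_eq_zero_iff] at h3
    have h5 := Nat.le_of_dvd (by norm_num) h3
    have h6 := hq.two_le
    omega
  have hs' : (1 : ZMod q) - 4 * (l : ZMod q) = s * s := by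
    rw [← hs]
    have h5 : (((4 * l - 1 : ℕ) : ℤ)) = 4 * (l : ℤ) - 1 := by
      push_cast [Nat.cast_sub (by omega : 1 ≤ 4 * l)]
      ring
    rw [h5]
    push_cast
    ring
  haveI : NeZero q := ⟨hq.ne_zero⟩
  refine ⟨((1 + s) / 2 : ZMod q).val, ZMod.val_lt _, ?_⟩
  rw [← ZMod.intCast_zmod_eq_zero_iff_dvd]
  push_cast
  rw [ZMod.natCast_zmod_val]
  have h5 : ((1 + s) / 2) ^ 2 - (1 + s) / 2 + (l : ZMod q) =
      (s * s - (1 - 4 * (l : ZMod q))) / (2 * 2) := by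
    field_simp
    ring
  rw [h5, ← hs', sub_self, zero_div]

end Pool.Agent.Lib.MP_706923_co
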