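import Pool.Agent.Lib.MP_706923_co.Spec

/-!
T2: Schutzenberger's theorem for difference sets in an arbitrary finite group.
-/

set_option autoImplicit false

namespace Pool.Agent.Lib.MP_706923_co

open Matrix

namespace SchutzAux

variable {G : Type} [Group G] [Fintype G] [DecidableEq G]

/-- The incidence matrix. -/
def inc (D : Finset G) : Matrix G G ℤ := fun x y => if x * y⁻¹ ∈ D then 1 else 0

lemma inc_mul (D : Finset G) (x x' : G) :
    (inc D * (inc D)ᵀ) x x' =
      (((D ×ˢ D).filter (fun p => p.1 * p.2⁻¹ = x * x'⁻¹)).card : ℤ) := by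
  classical
  have h1 : (inc D * (inc D)ᵀ) x x' =
      (((Finset.univ : Finset G).filter (fun y => x * y⁻¹ ∈ D ∧ x' * y⁻¹ ∈ D)).card : ℤ) := by
    rw [Matrix.mul_apply, Finset.card_filter]
    push_cast
    refine Finset.sum_congr rfl (fun y _ => ?_)
    simp only [inc, Matrix.transpose_apply]
    by_cases ha : x * y⁻¹ ∈ D <;> by_cases hb : x' * y⁻¹ ∈ D <;> simp [ha, hb]
  rw [h1]
  congr 1
  refine Finset.card_bij (fun y _ => (x * y⁻¹, x' * y⁻¹)) ?_ ?_ ?_
  · intro y hy
    simp only [Finset.mem_filter, Finset.mem_univ, true_and] at hy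
    simp only [Finset.mem_filter, Finset.mem_product]
    refine ⟨hy, ?_⟩
    group
  · intro a _ b _ hab
    simp only [Prod.mk.injEq] at hab
    have := hab.1
    simpa using this
  · rintro ⟨a, b⟩ hab
    simp only [Finset.mem_filter, Finset.mem_product] at hab
    obtain ⟨⟨ha, hb⟩, hq⟩ := hab
    have hx : x' * (a⁻¹ * x)⁻¹ = b := by
      have h2 : a * b⁻¹ = x * x'⁻¹ := hq
      have h3 : a = x * x'⁻¹ * b := by rw [← h2]; group
      rw [h3]; group
    refine ⟨a⁻¹ * x, ?_, ?_⟩
    · simp only [Finset.mem_filter, Finset.mem_univ, true_and]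
      refine ⟨?_, ?_⟩
      · have : x * (a⁻¹ * x)⁻¹ = a := by group
        rw [this]; exact ha
      · rw [hx]; exact hb
    · have : x * (a⁻¹ * x)⁻¹ = a := by group
      rw [Prod.mk.injEq]
      exact ⟨this, hx⟩

lemma count_one (D : Finset G) :
    ((D ×ˢ D).filter (fun p => p.1 * p.2⁻¹ = (1 : G))).card = D.card := by
  symm
  refine Finset.card_bij (fun y _ => (y, y)) ?_ ?_ ?_
  · intro y hy
    simp [hy]
  · intro a _ b _ hab
    simpa using hab
  · rintro ⟨a, b⟩ hab
    simp only [Finset.mem_filter, Finset.mem_product, mul_inv_eq_one] at hab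
    exact ⟨b, hab.1.2, by rw [hab.2]⟩

/-- `k^2 = k + l (v-1)`. -/
lemma count_total (D : Finset G) (l : ℕ) (hD : IsDS D l) :
    D.card * D.card + l = D.card + l * Fintype.card G := by
  classical
  have h1 : (D ×ˢ D).card = ∑ g : G, ((D ×ˢ D).filter (fun p => p.1 * p.2⁻¹ = g)).card :=
    Finset.card_eq_sum_card_fiberwise (fun p _ => Finset.mem_coe.2 (Finset.mem_univ _))
  rw [Finset.card_product] at h1
  have h2 : ∑ g : G, ((D ×ˢ D).filter (fun p => p.1 * p.2⁻¹ = g)).card + l
      = D.card + l * Fintype.card G := by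
    rw [← Finset.add_sum_erase _ _ (Finset.mem_univ (1 : G)), count_one]
    have h3 : ∑ g ∈ (Finset.univ : Finset G).erase 1,
        ((D ×ˢ D).filter (fun p => p.1 * p.2⁻¹ = g)).card
        = ∑ _g ∈ (Finset.univ : Finset G).erase 1, l :=
      Finset.sum_congr rfl (fun g hg => hD g (Finset.ne_of_mem_erase hg))
    rw [h3, Finset.sum_const, Finset.card_erase_of_mem (Finset.mem_univ _), Finset.card_univ,
      smul_eq_mul]
    have hpos : 0 < Fintype.card G := Fintype.card_pos
    obtain ⟨m, hm⟩ : ∃ m, Fintype.card G = m + 1 := ⟨Fintype.card G - 1, by omega⟩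
    rw [hm, Nat.add_sub_cancel]
    ring
  omega

lemma inc_mul_eq (D : Finset G) (l : ℕ) (hD : IsDS D l) :
    inc D * (inc D)ᵀ = Matrix.of (fun x x' : G =>
      if x = x' then (D.card : ℤ) else (l : ℤ)) := by
  ext x x'
  rw [inc_mul, Matrix.of_apply]
  by_cases h : x = x'
  · rw [if_pos h, h, mul_inv_cancel, count_one]
  · rw [if_neg h, hD (x * x'⁻¹) (by rwa [Ne, mul_inv_eq_one])]

lemma det_formula (k l : ℤ) (hkl : k ≠ l) :
    (Matrix.of (fun x x' : G => if x = x' then k else l)).det * (k - l)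
      = (k - l) ^ (Fintype.card G) * (k - l + l * Fintype.card G) := by
  classical
  have hn : ((k : ℚ) - l) ≠ 0 := by
    rw [sub_ne_zero]; exact_mod_cast hkl
  have h1 : ((Matrix.of (fun x x' : G => if x = x' then k else l)).map (Int.cast : ℤ → ℚ))
      = ((k : ℚ) - l) • (1 + replicateCol Unit (fun _ : G => ((l : ℚ) / ((k : ℚ) - l))) *
          replicateRow Unit (fun _ : G => (1 : ℚ))) := by
    ext x x'
    simp only [Matrix.map_apply, Matrix.of_apply, Matrix.smul_apply, Matrix.add_apply,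
      Matrix.mul_apply, Matrix.replicateCol_apply, Matrix.replicateRow_apply,
      Finset.univ_unique, Finset.sum_const, Finset.card_singleton, one_smul, smul_eq_mul,
      mul_one]
    by_cases h : x = x'
    · subst h
      simp only [if_true, Matrix.one_apply_eq]
      field_simp
      ring
    · simp only [if_neg h, Matrix.one_apply_ne h]
      field_simp
      ring
  have h2 := congrArg Matrix.det h1
  rw [Matrix.det_smul, Matrix.det_one_add_replicateCol_mul_replicateRow] at h2
  have h3 : ((fun _ : G => (1 : ℚ)) ⬝ᵥ (fun _ : G => ((l : ℚ) / ((k : ℚ) - l))))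
      = (Fintype.card G) * ((l : ℚ) / ((k : ℚ) - l)) := by
    simp [dotProduct]
  rw [h3] at h2
  have h4 : (((Matrix.of (fun x x' : G => if x = x' then k else l)).det : ℤ) : ℚ) =
      (((Matrix.of (fun x x' : G => if x = x' then k else l)).map (Int.cast : ℤ → ℚ)).det) :=
    Int.cast_det _
  have h5 : ((((Matrix.of (fun x x' : G => if x = x' then k else l)).det * (k - l) : ℤ)) : ℚ)
      = (((k - l) ^ (Fintype.card G) * (k - l + l * Fintype.card G) : ℤ) : ℚ) := by
    rw [Int.cast_mul, h4, h2]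
    push_cast
    field_simp
  exact_mod_cast h5

lemma sq_of_mul_sq (a b c : ℤ) (hb : b ≠ 0) (h : a * b ^ 2 = c ^ 2) : ∃ d : ℤ, a = d ^ 2 := by
  have h1 : b ^ 2 ∣ c ^ 2 := ⟨a, by rw [← h]; ring⟩
  have h2 : b ∣ c := (Int.pow_dvd_pow_iff two_ne_zero).1 h1
  obtain ⟨d, rfl⟩ := h2
  refine ⟨d, ?_⟩
  have h3 : b ^ 2 ≠ 0 := pow_ne_zero 2 hb
  apply mul_right_cancel₀ h3
  rw [h]; ring

end SchutzAux

open SchutzAux in
theorem schutz : S_Schutz := by
  intro G _ _ _ D l hD hev
  classical
  by_cases hkl : (D.card : ℤ) = (l : ℤ)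
  · refine ⟨0, ?_⟩
    have : D.card = l := by exact_mod_cast hkl
    simpa using this
  have hk : (D.card : ℤ) ≠ 0 := by
    intro h0
    have h0' : D.card = 0 := by exact_mod_cast h0
    have hD0 : D = ∅ := Finset.card_eq_zero.1 h0'
    have hct := count_total D l hD
    rw [h0'] at hct
    have hl : l ≠ 0 := by
      intro hl; apply hkl; rw [h0', hl]
    have hG1 : Fintype.card G = 1 := by
      have : l * 1 = l * Fintype.card G := by omega
      exact (Nat.eq_of_mul_eq_mul_left (Nat.pos_of_ne_zero hl) this).symm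
    rw [hG1] at hev
    exact absurd hev (by decide)
  have hct := count_total D l hD
  have hct' : ((D.card : ℤ) - l + l * Fintype.card G) = (D.card : ℤ) ^ 2 := by
    have : ((D.card * D.card + l : ℕ) : ℤ) = ((D.card + l * Fintype.card G : ℕ) : ℤ) := by
      exact_mod_cast hct
    push_cast at this
    linarith
  have hdet := det_formula (G := G) (D.card : ℤ) (l : ℤ) hkl
  have hmul := congrArg Matrix.det (inc_mul_eq D l hD)
  rw [Matrix.det_mul, Matrix.det_transpose] at hmul
  rw [← hmul, hct'] at hdet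
  obtain ⟨m, hm⟩ := hev
  have hpos : 0 < Fintype.card G := Fintype.card_pos
  obtain ⟨j, rfl⟩ : ∃ j, m = j + 1 := ⟨m - 1, by omega⟩
  have hn : ((D.card : ℤ) - l) ≠ 0 := sub_ne_zero.2 hkl
  have hfin : ((D.card : ℤ) - l) * (((D.card : ℤ) - l) ^ j * D.card) ^ 2 = (inc D).det ^ 2 := by
    apply mul_right_cancel₀ hn
    rw [hm] at hdet
    calc ((D.card : ℤ) - l) * (((D.card : ℤ) - l) ^ j * D.card) ^ 2 * ((D.card : ℤ) - l)
        = ((D.card : ℤ) - l) ^ (j + 1 + (j + 1)) * (D.card : ℤ) ^ 2 := by ring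
      _ = (inc D).det * (inc D).det * ((D.card : ℤ) - l) := hdet.symm
      _ = (inc D).det ^ 2 * ((D.card : ℤ) - l) := by ring
  obtain ⟨d, hd⟩ := sq_of_mul_sq _ _ _ (mul_ne_zero (pow_ne_zero j hn) hk) hfin
  refine ⟨d.natAbs, ?_⟩
  have h6 : (D.card : ℤ) = l + (d.natAbs : ℤ) ^ 2 := by
    rw [Int.natAbs_sq]; linarith
  exact_mod_cast h6

end Pool.Agent.Lib.MP_706923_co
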