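import Mathlib
import Pool.Agent.Lib.MP_706923_co.MannG
import Pool.Agent.Lib.MP_706923_co.Schutz
import Pool.Agent.Lib.MP_706923_co.Crt
import Pool.Agent.Lib.MP_706923_co.Root
import Pool.Agent.Lib.MP_706923_co.NotSummable

/-!
MP_706923_co: for every `l ≥ 1` the set of `k` of `(v,k,l)` difference sets has density zero.
-/

set_option autoImplicit false

namespace Pool.Agent.Lib.MP_706923_co

open scoped BigOperators

/-! ### calculus of `UB` -/

lemma UB.mono {A B : ℕ → Prop} {c : ℝ} (h : UB B c) (hAB : ∀ n, A n → B n) : UB A c := by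
  obtain ⟨K, hK⟩ := h
  refine ⟨K, fun N => le_trans ?_ (hK N)⟩
  have hfin : Finite {x : ℕ // x < N ∧ B x} :=
    Set.Finite.subset (Set.finite_lt_nat N) (fun x hx => hx.1)
  exact_mod_cast Nat.card_le_card_of_injective
    (fun x : {x : ℕ // x < N ∧ A x} => (⟨x.1, x.2.1, hAB _ x.2.2⟩ : {x : ℕ // x < N ∧ B x}))
    (fun a b h => Subtype.ext (congrArg (fun z => z.1) h))

lemma UB.or {A B : ℕ → Prop} {c d : ℝ} (h : UB A c) (h' : UB B d) :
    UB (fun n => A n ∨ B n) (c + d) := by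
  obtain ⟨K, hK⟩ := h
  obtain ⟨K', hK'⟩ := h'
  refine ⟨K + K', fun N => ?_⟩
  have hfinA : Finite {x : ℕ // x < N ∧ A x} :=
    Set.Finite.subset (Set.finite_lt_nat N) (fun x hx => hx.1)
  have hfinB : Finite {x : ℕ // x < N ∧ B x} :=
    Set.Finite.subset (Set.finite_lt_nat N) (fun x hx => hx.1)
  have h1 : Nat.card {x : ℕ // x < N ∧ (A x ∨ B x)}
      ≤ Nat.card {x : ℕ // x < N ∧ A x} + Nat.card {x : ℕ // x < N ∧ B x} := by
    rw [← Nat.card_sum]
    classical
    refine Nat.card_le_card_of_injective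
      (fun x => if hA : A x.1 then Sum.inl ⟨x.1, x.2.1, hA⟩
        else Sum.inr ⟨x.1, x.2.1, (x.2.2.resolve_left hA)⟩) ?_
    rintro ⟨a, ha⟩ ⟨b, hb⟩ hab
    simp only at hab
    by_cases hA : A a <;> by_cases hB : A b <;> simp [hA, hB] at hab ⊢
    · exact hab
    · exact hab
  have h2 := hK N
  have h3 := hK' N
  have h4 : (Nat.card {x : ℕ // x < N ∧ (A x ∨ B x)} : ℝ)
      ≤ Nat.card {x : ℕ // x < N ∧ A x} + Nat.card {x : ℕ // x < N ∧ B x} := by
    exact_mod_cast h1
  calc (Nat.card {x : ℕ // x < N ∧ (A x ∨ B x)} : ℝ) ≤ _ := h4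
    _ ≤ (c * N + K) + (d * N + K') := add_le_add h2 h3
    _ = (c + d) * N + (K + K') := by ring

lemma UB.false : UB (fun _ => False) 0 := by
  refine ⟨0, fun N => ?_⟩
  simp

lemma UB.finset {F : Finset ℕ} {E : ℕ → ℕ → Prop} {c : ℝ} (h : ∀ q ∈ F, UB (E q) c) :
    UB (fun n => ∃ q ∈ F, E q n) (F.card * c) := by
  classical
  induction F using Finset.induction_on with
  | empty =>
    simpa using UB.false
  | insert a s ha ih =>
    have h1 := ih (fun q hq => h q (Finset.mem_insert_of_mem hq))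
    have h2 := h a (Finset.mem_insert_self a s)
    have h3 := h2.or h1
    rw [Finset.card_insert_of_notMem ha]
    have h4 : c + (s.card : ℝ) * c = ((s.card + 1 : ℕ) : ℝ) * c := by push_cast; ring
    rw [h4] at h3
    refine h3.mono ?_
    rintro n ⟨q, hq, hE⟩
    rcases Finset.mem_insert.mp hq with rfl | hq'
    · exact Or.inl hE
    · exact Or.inr ⟨q, hq', hE⟩

lemma UB.le {A : ℕ → Prop} {c d : ℝ} (h : UB A c) (hcd : c ≤ d) : UB A d := by
  obtain ⟨K, hK⟩ := h
  refine ⟨K, fun N => le_trans (hK N) ?_⟩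
  have : (0:ℝ) ≤ N := Nat.cast_nonneg N
  nlinarith

lemma UB.squares (l : ℕ) {ε : ℝ} (hε : 0 < ε) : UB (fun k => ∃ s : ℕ, k = l + s ^ 2) ε := by
  refine ⟨1 + 1 / (4 * ε), fun N => ?_⟩
  have h1 : Nat.card {x : ℕ // x < N ∧ ∃ s : ℕ, x = l + s ^ 2} ≤ Nat.sqrt N + 1 := by
    have h0 : Nat.card (Fin (Nat.sqrt N + 1)) = Nat.sqrt N + 1 := by simp
    rw [← h0]
    classical
    refine Nat.card_le_card_of_injective
      (fun x : {x : ℕ // x < N ∧ ∃ s : ℕ, x = l + s ^ 2} =>
        (⟨x.2.2.choose, ?_⟩ : Fin (Nat.sqrt N + 1))) ?_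
    · have h2 := x.2.2.choose_spec
      have h3 := x.2.1
      rw [Nat.lt_succ_iff, Nat.le_sqrt']
      omega
    · intro a b hab
      simp only [Fin.mk.injEq] at hab
      have ha := a.2.2.choose_spec
      have hb := b.2.2.choose_spec
      apply Subtype.ext
      rw [ha, hb, hab]
  have h2 : (Nat.card {x : ℕ // x < N ∧ ∃ s : ℕ, x = l + s ^ 2} : ℝ) ≤ (Nat.sqrt N : ℝ) + 1 := by
    exact_mod_cast h1
  have h3 : ((Nat.sqrt N : ℕ) : ℝ) ^ 2 ≤ N := by exact_mod_cast Nat.sqrt_le' N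
  have h4 : (Nat.sqrt N : ℝ) ≤ ε * N + 1 / (4 * ε) := by
    have h5 : 0 ≤ (2 * ε * (Nat.sqrt N : ℝ) - 1) ^ 2 := sq_nonneg _
    have h55 : 4 * ε * ε * (Nat.sqrt N : ℝ) ^ 2 ≤ 4 * ε * ε * N :=
      mul_le_mul_of_nonneg_left h3 (by positivity)
    have h6 : (Nat.sqrt N : ℝ) * (4 * ε) ≤ 4 * ε * ε * N + 1 := by nlinarith
    rw [← sub_nonneg]
    have h7 : ε * N + 1 / (4 * ε) - (Nat.sqrt N : ℝ)
        = (4 * ε * ε * N + 1 - (Nat.sqrt N : ℝ) * (4 * ε)) / (4 * ε) := by
      field_simp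
    rw [h7]
    apply div_nonneg <;> linarith
  linarith

/-! ### arithmetic of difference sets -/

lemma ds_identity {G : Type} [Group G] [Fintype G] [DecidableEq G] (D : Finset G) (l : ℕ)
    (hD : IsDS D l) :
    (D.card : ℤ) ^ 2 - D.card + l = l * Fintype.card G := by
  have h1 : (D ×ˢ D).card = ∑ g : G, ((D ×ˢ D).filter (fun p => p.1 * p.2⁻¹ = g)).card :=
    Finset.card_eq_sum_card_fiberwise (fun x _ => Finset.mem_univ _)
  have h2 : ∑ g : G, ((D ×ˢ D).filter (fun p => p.1 * p.2⁻¹ = g)).card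
      = D.card + (Fintype.card G - 1) * l := by
    rw [← Finset.add_sum_erase _ _ (Finset.mem_univ (1 : G))]
    congr 1
    · refine Finset.card_bij (fun p _ => p.1) ?_ ?_ ?_
      · rintro ⟨a, b⟩ h
        simp only [Finset.mem_filter, Finset.mem_product] at h
        exact h.1.1
      · rintro ⟨a, b⟩ h ⟨c, d⟩ h' hac
        simp only [Finset.mem_filter, Finset.mem_product, mul_inv_eq_one] at h h' hac
        rw [Prod.mk.injEq]
        exact ⟨hac, by rw [← h.2, ← h'.2, hac]⟩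
      · intro a ha
        exact ⟨(a, a), by simp [ha], rfl⟩
    · rw [Finset.sum_congr rfl (fun g hg => hD g (Finset.ne_of_mem_erase hg)), Finset.sum_const,
        Finset.card_erase_of_mem (Finset.mem_univ _), smul_eq_mul, Finset.card_univ]
  rw [Finset.card_product, h2] at h1
  have h3 : 1 ≤ Fintype.card G := Fintype.card_pos
  obtain ⟨w, hw⟩ := Nat.exists_eq_add_of_le h3
  rw [hw] at h1 ⊢
  have h4 : ((D.card * D.card : ℕ) : ℤ) = ((D.card + (1 + w - 1) * l : ℕ) : ℤ) := by rw [h1]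
  have h5 : 1 + w - 1 = w := by omega
  rw [h5] at h4
  push_cast at h4 ⊢
  nlinarith

/-- the exact division predicate -/
def Ex (l p k : ℕ) : Prop := (p : ℤ) ∣ (k : ℤ) - l ∧ ¬ ((p : ℤ) ^ 2 ∣ (k : ℤ) - l)

lemma ex_count (l p : ℕ) (hp : p.Prime) :
    (p : ℝ) ^ 2 / (2 * p) ≤ (Nat.card {x : ℕ // x < p ^ 2 ∧ Ex l p x} : ℝ) := by
  have hp2 := hp.two_le
  have hfin : Finite {x : ℕ // x < p ^ 2 ∧ Ex l p x} :=
    Set.Finite.subset (Set.finite_lt_nat (p ^ 2)) (fun x hx => hx.1)
  have hpos : 0 < p ^ 2 := by positivity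
  have h1 : p - 1 ≤ Nat.card {x : ℕ // x < p ^ 2 ∧ Ex l p x} := by
    have h0 : Nat.card (Fin (p - 1)) = p - 1 := by simp
    rw [← h0]
    refine Nat.card_le_card_of_injective
      (fun t : Fin (p - 1) => (⟨(l + p * (t.1 + 1)) % p ^ 2, Nat.mod_lt _ hpos, ?_⟩ :
        {x : ℕ // x < p ^ 2 ∧ Ex l p x})) ?_
    · have hmod : ((p ^ 2 : ℕ) : ℤ) ∣ (((l + p * (t.1 + 1)) % p ^ 2 : ℕ) : ℤ) - ((l + p * (t.1 + 1) : ℕ) : ℤ) := by
        rw [← Int.modEq_iff_dvd]
        exact ((Int.natCast_modEq_iff.mpr (Nat.mod_modEq _ _))).symm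
      obtain ⟨d, hd⟩ := hmod
      have he : (((l + p * (t.1 + 1)) % p ^ 2 : ℕ) : ℤ) - l = (p : ℤ) * (t.1 + 1) + (p : ℤ) ^ 2 * d := by
        push_cast at hd ⊢
        linarith
      constructor
      · rw [he]
        exact ⟨(t.1 + 1) + p * d, by ring⟩
      · rw [he]
        intro h
        have h2 : (p : ℤ) ^ 2 ∣ (p : ℤ) * (t.1 + 1) := by
          have := dvd_sub h (dvd_mul_right ((p : ℤ) ^ 2) d)
          simpa using this
        rw [pow_two] at h2
        have h3 : (p : ℤ) ∣ (t.1 + 1 : ℤ) := by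
          have hp0 : (p : ℤ) ≠ 0 := by exact_mod_cast hp.ne_zero
          exact (mul_dvd_mul_iff_left hp0).mp h2
        have h4 : p ∣ t.1 + 1 := by exact_mod_cast h3
        have h5 := Nat.le_of_dvd (by omega) h4
        have := t.2
        omega
    · intro s t hst
      simp only [Subtype.mk.injEq] at hst
      have h2 : l + p * (s.1 + 1) ≡ l + p * (t.1 + 1) [MOD p ^ 2] := hst
      have h3 : p * (s.1 + 1) ≡ p * (t.1 + 1) [MOD p * p] := by
        rw [← pow_two]
        exact Nat.ModEq.add_left_cancel' l h2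
      have h4 : s.1 + 1 ≡ t.1 + 1 [MOD p] := Nat.ModEq.mul_left_cancel' hp.ne_zero h3
      have h5 : s.1 ≡ t.1 [MOD p] := Nat.ModEq.add_right_cancel' 1 h4
      apply Fin.ext
      have hs := s.2
      have ht := t.2
      exact Nat.ModEq.eq_of_lt_of_lt h5 (by omega) (by omega)
  have h2 : ((p : ℝ) - 1) ≤ (Nat.card {x : ℕ // x < p ^ 2 ∧ Ex l p x} : ℝ) := by
    have : ((p - 1 : ℕ) : ℝ) ≤ (Nat.card {x : ℕ // x < p ^ 2 ∧ Ex l p x} : ℝ) := by exact_mod_cast h1
    rw [Nat.cast_sub (by omega)] at this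
    simpa using this
  refine le_trans ?_ h2
  have hpR : (2 : ℝ) ≤ p := by exact_mod_cast hp2
  have : (p : ℝ) ^ 2 / (2 * p) = p / 2 := by
    have : (p : ℝ) ≠ 0 := by positivity
    field_simp
  rw [this]
  linarith

/-- `k` is the size of a difference set with parameter `l` in some finite group. -/
def IsK (l k : ℕ) : Prop :=
  ∃ (G : Type) (_ : Group G) (_ : Fintype G) (_ : DecidableEq G) (D : Finset G),
    D.card = k ∧ IsDS D l

lemma UB_isK (l : ℕ) (hl : 1 ≤ l) {ε : ℝ} (hε : 0 < ε) : UB (IsK l) ε := by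
  classical
  let M : ℕ := 4 * (4 * l - 1)
  have hM : 12 * l ≤ M := by simp only [M]; omega
  haveI : NeZero M := ⟨by omega⟩
  let T : ℕ → Prop := fun q => q.Prime ∧ (q : ZMod M) = 1
  have hTmod : ∀ q, T q → q % M = 1 := by
    intro q hq
    have h1 : (q : ZMod M) = ((1 : ℕ) : ZMod M) := by rw [hq.2]; simp
    rw [ZMod.natCast_eq_natCast_iff] at h1
    have h2 : q % M = 1 % M := h1
    rw [Nat.mod_eq_of_lt (by omega : 1 < M)] at h2
    exact h2
  have hTgt : ∀ q, T q → l < q := by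
    intro q hq
    have h1 := hTmod q hq
    by_contra h
    have h2 : q < M := by omega
    rw [Nat.mod_eq_of_lt h2] at h1
    exact hq.1.ne_one h1
  obtain ⟨F, hFT, hF⟩ := crt T (fun p hp => hp.1)
    (by
      have h := notSummable M ⟨by omega⟩ 1 isUnit_one
      intro hs
      apply h
      convert hs using 1
      funext p
      by_cases hT : T p
      · rw [if_pos hT]; exact (if_pos hT).symm
      · rw [if_neg hT]; exact (if_neg hT).symm)
    1 le_rfl (fun q k => (q : ℤ) ∣ (k : ℤ) ^ 2 - k + l)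
    (by
      intro q _ k
      have : (((k + q ^ 1 : ℕ) : ℤ)) ^ 2 - ((k + q ^ 1 : ℕ) : ℤ) + l
          = ((k : ℤ) ^ 2 - k + l) + q * (2 * k + q - 1) := by push_cast; ring
      rw [this]
      exact (dvd_add_left (dvd_mul_right _ _)))
    (by
      intro q hq
      have hq0 : (0 : ℝ) < q := by exact_mod_cast hq.1.pos
      obtain ⟨k, hk, hkd⟩ := root l q hl hq.1 (hTmod q hq)
      have hfin : Finite {x : ℕ // x < q ^ 1 ∧ (q : ℤ) ∣ (x : ℤ) ^ 2 - x + l} :=
        Set.Finite.subset (Set.finite_lt_nat (q ^ 1)) (fun x hx => hx.1)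
      have hne : Nonempty {x : ℕ // x < q ^ 1 ∧ (q : ℤ) ∣ (x : ℤ) ^ 2 - x + l} :=
        ⟨⟨k, by simpa using hk, hkd⟩⟩
      have h1 : 1 ≤ Nat.card {x : ℕ // x < q ^ 1 ∧ (q : ℤ) ∣ (x : ℤ) ^ 2 - x + l} :=
        Nat.card_pos
      have h2 : (1 : ℝ) ≤ (Nat.card {x : ℕ // x < q ^ 1 ∧ (q : ℤ) ∣ (x : ℤ) ^ 2 - x + l} : ℝ) := by
        exact_mod_cast h1
      refine le_trans ?_ h2
      rw [pow_one]
      rw [div_le_one (by positivity)]
      linarith)
    (ε / 4) (by linarith)
  -- second layer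
  have hsecond : ∀ q ∈ F, ∃ F' : Finset ℕ, (∀ p ∈ F', p.Prime ∧ (p : ZMod q) = -1) ∧
      UB (fun k => ∀ p ∈ F', ¬ Ex l p k) (ε / (4 * (F.card + 1))) := by
    intro q hqF
    have hq := (hFT q hqF).1
    haveI : NeZero q := ⟨hq.ne_zero⟩
    exact crt (fun p => p.Prime ∧ (p : ZMod q) = -1) (fun p hp => hp.1)
      (by
        have h := notSummable q ⟨hq.ne_zero⟩ (-1) isUnit_one.neg
        intro hs
        apply h
        convert hs using 1
        funext p
        by_cases hT : p.Prime ∧ (p : ZMod q) = -1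
        · rw [if_pos hT]; exact (if_pos hT).symm
        · rw [if_neg hT]; exact (if_neg hT).symm)
      2 (by norm_num) (Ex l)
      (by
        intro p _ k
        unfold Ex
        have h1 : (((k + p ^ 2 : ℕ) : ℤ)) - l = ((k : ℤ) - l) + (p : ℤ) ^ 2 := by push_cast; ring
        rw [h1, dvd_add_left (⟨p, by ring⟩ : (p : ℤ) ∣ (p : ℤ) ^ 2),
          dvd_add_left (dvd_refl ((p : ℤ) ^ 2))])
      (fun p hp => ex_count l p hp.1)
      (ε / (4 * (F.card + 1))) (by positivity)
  choose! F' hF' hUB' using hsecond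
  have hA := UB.finset (F := F) (E := fun q k => ∀ p ∈ F' q, ¬ Ex l p k) hUB'
  have hB := (UB.squares l (by linarith : (0 : ℝ) < ε / 4)).or (hF.or hA)
  refine UB.le (UB.mono hB ?_) ?_
  · rintro k ⟨G, i1, i2, i3, D, hDk, hD⟩
    rcases Nat.even_or_odd (Fintype.card G) with he | ho
    · left
      obtain ⟨s, hs⟩ := schutz G D l hD he
      exact ⟨s, by rw [← hDk]; exact hs⟩
    · right
      by_cases hall : ∀ q ∈ F, ¬ ((q : ℤ) ∣ (k : ℤ) ^ 2 - k + l)
      · exact Or.inl hall
      · right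
        push Not at hall
        obtain ⟨q, hqF, hqd⟩ := hall
        refine ⟨q, hqF, ?_⟩
        intro p hp hEx
        have hqT := hFT q hqF
        have hid := ds_identity D l hD
        rw [hDk] at hid
        rw [hid] at hqd
        have hqv : q ∣ Fintype.card G := by
          have h1 : q ∣ l * Fintype.card G := by exact_mod_cast hqd
          rcases hqT.1.dvd_mul.mp h1 with h2 | h2
          · exact absurd (Nat.le_of_dvd (by omega) h2) (by have := hTgt q hqT; omega)
          · exact h2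
        have hp' := hF' q hqF p hp
        have hqp : q ∣ p ^ 1 + 1 := by
          rw [pow_one, ← ZMod.natCast_eq_zero_iff]
          push_cast
          rw [hp'.2]; ring
        have hne : (D.card : ℤ) ≠ l := by
          intro h
          apply hEx.2
          rw [← hDk, h]
          simp
        have hev := mann D l hD ho q hqT.1 hqv p hp'.1 1 le_rfl hqp hne
        haveI : Fact p.Prime := ⟨hp'.1⟩
        rw [hDk] at hev hne
        have hne' : (k : ℤ) - l ≠ 0 := sub_ne_zero.mpr hne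
        have h1 : padicValInt p ((k : ℤ) - l) = 1 := by
          have h2 : ¬ (2 ≤ padicValInt p ((k : ℤ) - l)) := by
            intro h
            apply hEx.2
            have := (padicValInt_dvd_iff 2 ((k : ℤ) - l)).mpr (Or.inr h)
            exact this
          have h3 : 1 ≤ padicValInt p ((k : ℤ) - l) := by
            have := (padicValInt_dvd_iff (p := p) 1 ((k : ℤ) - l)).mp (by simpa using hEx.1)
            exact this.resolve_left hne'
          omega
        rw [h1] at hev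
        exact absurd hev (by decide)
  · have hF1 : (0 : ℝ) < F.card + 1 := by positivity
    have h1 : (F.card : ℝ) * (ε / (4 * (F.card + 1))) ≤ ε / 4 := by
      have h2 : (F.card : ℝ) * (ε / (4 * (F.card + 1))) = (ε / 4) * (F.card / (F.card + 1)) := by
        field_simp
      rw [h2]
      have h3 : (F.card : ℝ) / (F.card + 1) ≤ 1 := by
        rw [div_le_one hF1]; linarith
      nlinarith
    linarith

end Pool.Agent.Lib.MP_706923_co
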