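import Mathlib

/-!
MP_706923_co, second theorem (PRIME ORDERS).  For every lambda >= 2 with lambda <> 16 there are
delta > 0 and C such that at most C x / (log x)^(1+delta) primes p <= x are the order n = p = k - lambda
of a (v,k,lambda) difference set in some finite group (abelian or not).  (For lambda = 1 every prime
occurs, by Singer.)

Paper proof.  k = p + lambda, k^2 - k + lambda = lambda v. If v is even then n = p is a square,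
contradiction. So v is odd and for every prime q | v the order of p mod q is odd (Mann type test in
arbitrary groups, already in Lean: `mann`). Let rho be a root of x^2 - x + lambda mod q. If
k = rho mod q then q | v and p = rho - lambda = rho^2 mod q. So for all primes q such that rho^2 has
even order mod q (`Good`), p avoids the class rho^2 mod q besides the class 0. There are many such q:
all primes in a suitable residue class. The arithmetical large sieve (in the team library) gives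
the bound.

Each statement has a complete proof in its docstring; all modules are independent.
-/

set_option autoImplicit false

namespace Pool.Agent.Lib.MP_706923_co

open scoped BigOperators

/-- `q` is good for `l`: there is a root `k` of `x^2 - x + l` mod `q` such that `k - l` has a
power equal to `-1` mod `q`. -/
def Good (l q : ℕ) : Prop :=
  2 < q ∧ ¬ q ∣ l ∧ ∃ k : ℕ, k < q ∧ (q : ℤ) ∣ (k : ℤ) ^ 2 - k + l ∧
    ∃ j : ℕ, 1 ≤ j ∧ (q : ℤ) ∣ ((k : ℤ) - l) ^ j + 1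

/-- P1 (`Crit1.lean`, `theorem crit1 : S_Crit1`).

PROOF. Work in the field `F = ZMod q`, `s^2 = 1 - 4 l`, `ρ₁ = (1+s)/2`, `ρ₂ = (1-s)/2`, so
`ρ₁ + ρ₂ = 1`, `ρ₁ ρ₂ = l`, `ρᵢ² - ρᵢ + l = 0`, i.e. `ρᵢ - l = ρᵢ²`. `μ ≠ 0` in `F` (it is not a
square), so `l ≠ 0`, `q ∤ l`, `ρᵢ ≠ 0`; `q ≡ 1 mod 4`, so `q > 2`. Let `K = (q-1)/2^(t+2)` and
`yᵢ = (ρᵢ²)^K`; `yᵢ^(2^(t+1)) = ρᵢ^(q-1) = 1`. If `y₁ = y₂ = 1` then
`1 = (ρ₁ρ₂)^(2K) = l^(2K) = μ^(2^(t+1) K) = μ^((q-1)/2) = -1` (Euler's criterion, `μ` is not a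
square), contradiction. So some `y = yᵢ ≠ 1`; let `a ≥ 1` be minimal with `y^(2^a) = 1`; then
`z = y^(2^(a-1))` has `z² = 1`, `z ≠ 1`, so `z = -1`. Hence `(ρᵢ²)^(K 2^(a-1)) = -1`, and
`j = K 2^(a-1) ≥ 1`. Take `k = ρᵢ.val`. -/
def S_Crit1 : Prop :=
  ∀ (q : ℕ) [Fact q.Prime] (l μ t : ℕ), l = μ ^ (2 ^ t) → q % 2 ^ (t + 2) = 1 →
    ¬ IsSquare ((μ : ℕ) : ZMod q) → IsSquare ((1 : ZMod q) - 4 * (l : ZMod q)) → Good l q

/-- P2 (`Crit2.lean`, `theorem crit2 : S_Crit2`).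

PROOF. `F = ZMod q`, `l = c²`, `ρ = (1+s)/2` with `s² = 1 - 4c²`; `ρ² = ρ - c²`, so
`(c + ρ)² = c² + 2cρ + ρ² = (2c+1) ρ`. `2c+1` is not a square in `F`, in particular
`2c + 1 ≠ 0` and `c ≠ 0` in `F`, `q ∤ c²`, and `ρ ≠ 0` (`ρ(1-ρ) = c²`). If `ρ = y²` then
`2c+1 = ((c+ρ)/y)²` would be a square. So `ρ` is not a square, `ρ^((q-1)/2) = -1`, and
`(ρ²)^((q-1)/4) = -1`. Take `k = ρ.val`, `j = (q-1)/4 ≥ 1`. -/
def S_Crit2 : Prop :=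
  ∀ (q : ℕ) [Fact q.Prime] (c : ℕ), q % 4 = 1 →
    ¬ IsSquare ((2 * c + 1 : ℕ) : ZMod q) → IsSquare ((1 : ZMod q) - 4 * (c : ZMod q) ^ 2) →
    Good (c ^ 2) q

/-- P3 (`Jac.lean`, `theorem jac : S_Jac`).

PROOF. `n` odd and not a square, so some prime `p` has odd exponent `a` in `n`; `n = p^a m`,
`p ∤ m`. Let `r` be a quadratic nonresidue mod `p` (it exists since `p` is odd). By the Chinese
remainder theorem take `u ≡ r mod p`, `u ≡ 1 mod m`. Then `(u/n) = (u/p)^a (u/m) = (-1)^a * 1 = -1`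
(`jacobiSym.mul_right`, `jacobiSym.mod_left`), and `u` is coprime to `n`. -/
def S_Jac : Prop :=
  ∀ n : ℕ, Odd n → ¬ IsSquare n → ∃ u : ℕ, u.Coprime n ∧ jacobiSym u n = -1

/-- P4 (`Desc.lean`, `theorem desc : S_Desc`).

PROOF. Case `t = 0`: `(2m)^2 + 1 = e^2`, impossible for `m ≥ 1`. Auxiliary (A): if
`x^4 = 2 y^4 + 1` (naturals) then `y = 0`: `x` is odd, `(x²-1)(x²+1) = 2y⁴`, `x²+1 ≡ 2 mod 4`,
`gcd(x²-1, x²+1) = 2`, `y` is even, so `x²+1 = 2f⁴`, `x²-1 = 16 g⁴` (coprime factors `(x²+1)/2` and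
`(x²-1)/16`, product `(y/2)^4`), so `(x-4g²)(x+4g²) = 1` and `g = 0`, `y = 0`.
Case `t ≥ 2`: the number `(2m²)^(2^t)` is `s⁴` with `s = (2m²)^(2^(t-2)) ≥ 1`; `e² = 2s⁴+1`:
`e` is odd, `(e-1)/2 * (e+1)/2 = s⁴/2 = 8 (s/2)⁴` (`s` is even), coprime consecutive numbers, so
they are `{x⁴, 8y⁴}` with `x⁴ - 8y⁴ = ±1`, `x` odd; `-1` is impossible mod 8 (`x⁴ ≡ 1`);
`x⁴ - 1 = 8y⁴`: `(x²-1)(x²+1) = 8y⁴`, `x²+1 = 2a⁴`, `x²-1 = 4b⁴`, so `a⁴ = 2b⁴+1`, so `b = 0` by (A),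
`y = 0`, `s = 0`, contradiction.
Case `t = 1`: `e² = 8m⁴+1`; `(e-1)/2 * (e+1)/2 = 2m⁴` coprime consecutive, so they are `{x⁴, 2y⁴}`,
`xy = m`, `x⁴ - 2y⁴ = ±1`. `+1`: `y = 0` by (A), impossible since `m ≥ 1`. `-1`:
`2y⁴ = x⁴+1`; then `y^8 - x^4 = ((x⁴-1)/2)²`, i.e. `(y²)⁴ - x⁴ = w²`. By Fermat's theorem
(`a⁴ - b⁴ = c²` with `gcd(a,b)=1` implies `b = 0` or `c = 0`; infinite descent; standard: if `c` is
odd then `b` even, `a² = r²+s², b² = 2rs`, so `r = g², s = 2h²` up to order, and `a² = g⁴ + 4h⁴` gives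
again a triangle `g² = R²-S²`, `2h² = 2RS`, `R = A², S = B²`, `A⁴ - B⁴ = g²` smaller; if `b, a`
odd and `c` even: `(a²)² = (b²)² + c²`, `b² = r²-s²`, `a² = r²+s²`, so `r⁴ - s⁴ = (ab)²` with `ab` odd,
the first case) `w = 0`, so `x = y = 1`, `m = 1`, and `(2m²)^2 = 4`. -/
def S_Desc : Prop :=
  ∀ m t e : ℕ, 1 ≤ m → 2 * (2 * m ^ 2) ^ (2 ^ t) + 1 = e ^ 2 → (2 * m ^ 2) ^ (2 ^ t) = 4

/-- P5 (`Class.lean`, `theorem goodClass (h1 : S_Crit1) (h2 : S_Crit2) (h3 : S_Jac) (h4 : S_Desc) :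
S_GoodClass`).

PROOF. Write `l = μ^(2^t)` with `μ ≥ 2` not a square (take `t` maximal; strong induction).
For a prime `q ≡ 1 mod 4` and `q ≡ 1 mod (4l-1)` one has `((1-4l)/q) = ((4l-1)/q) = (q/(4l-1)) = 1`,
and `q > l`.
(A) The odd part `μ'` of `μ = 2^e μ'` is not a square: let `u` be coprime to `μ'` with
`(u/μ') = -1` (`h3`). `gcd(4l-1, μ') = 1` since `μ' ∣ l`. Class: `q ≡ 1 mod 2^(t+3)`,
`q ≡ 1 mod (4l-1)`, `q ≡ u mod μ'`. Then `(2/q) = 1` (`q ≡ 1 mod 8`), `(μ'/q) = (q/μ') = (u/μ') = -1`,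
so `μ` is not a square mod `q`; apply `h1`.
(B) `μ'` is a square: then `e` is odd and `μ = 2m²`. If `t = 0`: class `q ≡ 5 mod 8`,
`q ≡ 1 mod (4l-1)`; `(2/q) = -1`, `q ∤ m` (as `q > l`), so `μ = 2m²` is not a square mod `q`; apply
`h1` with `t = 0`.
(C) `μ = 2m²`, `t ≥ 1`: `l = c²`, `c = (2m²)^(2^(t-1))` even. `2c - 1 ≡ 3 mod 4` is not a square;
`2c+1` is not a square: otherwise `c = 4` by `h4` and `l = 16`. Let `u₁, u₂` be coprime to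
`2c-1`, `2c+1` with `(u₁/(2c-1)) = -1`, `(u₂/(2c+1)) = -1` (`h3`); `gcd(2c-1,2c+1) = 1`. Class:
`q ≡ 1 mod 8`, `q ≡ u₁ mod (2c-1)`, `q ≡ u₂ mod (2c+1)`. Then by reciprocity (`q ≡ 1 mod 4`)
`((2c-1)/q) = ((2c+1)/q) = -1`, so `2c+1` is not a square mod `q`, and
`((1-4c²)/q) = (-1/q)((2c-1)/q)((2c+1)/q) = 1`; apply `h2`. -/
def S_GoodClass : Prop :=
  ∀ l : ℕ, 2 ≤ l → l ≠ 16 → ∃ (M : ℕ) (a : ZMod M), 0 < M ∧ IsUnit a ∧
    ∀ q : ℕ, q.Prime → (q : ZMod M) = a → Good l q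

/-- The finite sets of primes with product at most `y`. -/
def PS (y : ℕ) : Finset (Finset ℕ) :=
  ((Finset.Icc 1 y).filter Nat.Prime).powerset.filter (fun D => ∏ q ∈ D, q ≤ y)

/-- P6 (`Phi.lean`, `theorem phi : S_Phi`).

PROOF. Let `F(E, y)` be the right side for `E`. (i) `F(∅, y) ≥ (1/2) log y`:
`log y ≤ ∑_{n=1}^y 1/n` (`log_add_one_le_harmonic`), every `n ≤ y` is `b² m` with `m` squarefree
(`Nat.sq_mul_squarefree`), `∑_{b ≥ 1} 1/b² ≤ 2`, so `∑_{n≤y} 1/n ≤ 2 ∑_{m ≤ y squarefree} 1/m`, and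
the squarefree `m ≤ y` correspond to `D ∈ PS y` (`m.primeFactors`), `1/m = ∏ 1/p ≤ ∏ 1/(p-1)`.
(ii) For `q ∉ E` prime: `F(E, y) ≤ (1 + 1/(q-1)) F(insert q E, y)`, because the `D` with `q ∈ D`
become `D.erase q` (product at most `y/q ≤ y`, weight `1/(q-1)` taken out). And
`1 + 1/(q-1) = (1 - 1/q)⁻¹`. Induction over `E`. -/
def S_Phi : Prop :=
  ∀ (E : Finset ℕ), (∀ q ∈ E, q.Prime) → ∀ y : ℕ, 1 ≤ y →
    (∏ q ∈ E, (1 - 1 / (q : ℝ))) * (Real.log y / 2)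
      ≤ ∑ D ∈ (PS y).filter (fun D => Disjoint D E), ∏ p ∈ D, (1 / ((p : ℝ) - 1))

/-- P7 (`Us.lean`, `theorem us : S_Us`).

PROOF (as in `NotSummable.lean`, same folder, which can be copied). Let
`f = ArithmeticFunction.vonMangoldt.residueClass a`, `c = φ(M)⁻¹`, and let `C₀` be from
`LSeries_residueClass_lower_bound`: `∑' f n / n^(1+t) ≥ c/t - C₀` for `0 < t ≤ 1`. Put `t_j = 2^(-j)`.
With `L = log n`, `t_j L e^(-t_j L) ≤ 2 (e^(-t_j L/2) - e^(-t_j L))` telescopes to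
`∑_{j=1}^J t_j n^(-t_j) ≤ (2 / log n) n^(-t_{J+1})`. Hence
`c J - C₀ ≤ ∑_{j=1}^J t_j ∑' f n / n^(1+t_j) ≤ 2 ∑' n, f n / (n log n) * n^(-t_{J+1})`.
The primes `n ≡ a` contribute `2 ∑' n^(-1-t_{J+1})`, the other prime powers at most a constant
(`summable_residueClass_non_primes_div`, `log n ≥ log 2`). So
`∑'_{q prime, q ≡ a} q^(-1-t_{J+1}) ≥ (c/2) J - C₁`. Given `s ∈ (0,1]` choose `J` with
`t_{J+1} ≤ ... `: `J = ⌈log₂(1/s)⌉`, so `t_J ≤ s` is not what is needed; take `J ≥ 0` maximal with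
`t_{J+1} ≥ s` (`J = 0` if none): then `q^(-1-s) ≥ q^(-1-t_{J+1})` and `J ≥ log₂(1/s) - 2`. Finally a
finite truncation `X` loses at most `1`. (`δ = c / (2 log 2)`.) -/
def S_Us : Prop :=
  ∀ (M : ℕ) (a : ZMod M), 0 < M → IsUnit a → ∃ δ C : ℝ, 0 < δ ∧ ∀ s : ℝ, 0 < s → s ≤ 1 →
    ∃ X : ℕ, δ * Real.log (1 / s) - C ≤
      ∑ q ∈ (Finset.range X).filter (fun q : ℕ => q.Prime ∧ ((q : ℕ) : ZMod M) = a),
        (q : ℝ) ^ (-(1 + s))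

/-- P8 (`TSum.lean`, `theorem tsum (h : S_Us) : S_TSum`).

PROOF. `T` = primes `≡ a`. For `s ∈ (0,1]` take `X` from `h`. `Z = ∏_{q ∈ T, q < X} (1 + q^(-1-s))`
`= ∑_{D ⊆ T_X} (∏ D)^(-1-s)` (`Finset.prod_one_add` or `Finset.prod_add_one`), and
`1 + x ≥ exp(x - x²)` for `0 ≤ x ≤ 1`, so `Z ≥ exp(δ log(1/s) - C - 2)`. The `D` with `∏ D > y`
contribute at most `y^(-s/2) ∑_D (∏ D)^(-1-s/2) ≤ y^(-s/2) ∑_n n^(-1-s/2) ≤ y^(-s/2) (1 + 2/s)`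
(`D ↦ ∏ D` is injective on sets of primes). The others contribute at most the sum in the
statement (`(∏ D)^(-1-s) ≤ 1/∏ D`). With `s = 4 log log y / log y` (`y` large) the tail is at most
`(log y)^(-2) (1 + log y) ≤ 1`, and the main term is at least `e^(-C-2) s^(-δ) ≥ e^(-C-2)
(log y)^(2δ/3)`, so the sum is at least `(log y)^(δ/2)` for large `y`. -/
def S_TSum : Prop :=
  ∀ (M : ℕ) (a : ZMod M), 0 < M → IsUnit a → ∃ (δ : ℝ) (y₀ : ℕ), 0 < δ ∧ ∀ y : ℕ, y₀ ≤ y →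
    (Real.log y) ^ δ ≤
      ∑ D ∈ (PS y).filter (fun D => ∀ q : ℕ, q ∈ D → ((q : ℕ) : ZMod M) = a), ∏ q ∈ D, (1 / (q : ℝ))

/-- P9 (`LLow.lean`, `theorem llow (h : S_Phi) : S_LLow`).

PROOF. For `D ∈ PS (R ^ 2)` the weight is at least
`∏_{p ∈ D} (1/(p-1)) * 2^{#(D ∩ T)} = ∑_{D₁ ⊆ D ∩ T} ∏_{p ∈ D₁} 1/(p-1) * ∏_{p ∈ D \ D₁} 1/(p-1)`
(`2/(q-2) ≥ 2/(q-1)`). So the sum is at least the sum over pairs `(D₁, D₂)`, `D₁ ∈ PS R`, all elements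
in `T`, `D₂ ∈ PS R` disjoint from `D₁` (the map `(D₁, D₂) ↦ (D₁ ∪ D₂, D₁)` is injective and
`D₁ ∪ D₂ ∈ PS (R^2)`), of `∏_{D₁} 1/(p-1) * ∏_{D₂} 1/(p-1)`; by `h` the inner sum over `D₂` is at least
`∏_{q ∈ D₁} (1 - 1/q) * log R / 2`, and `1/(q-1) * (1-1/q) = 1/q`. -/
def S_LLow : Prop :=
  ∀ (T : ℕ → Prop) [DecidablePred T], (∀ q, T q → 2 < q) → ∀ R : ℕ, 1 ≤ R →
    (Real.log R / 2) *
        (∑ D ∈ (PS R).filter (fun D => ∀ q ∈ D, T q), ∏ q ∈ D, (1 / (q : ℝ)))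
      ≤ ∑ D ∈ PS (R ^ 2), ∏ q ∈ D, (if T q then 2 / ((q : ℝ) - 2) else 1 / ((q : ℝ) - 1))

end Pool.Agent.Lib.MP_706923_co
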