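import Mathlib
import Pool.Agent.Lib.MP_706923_co.Dens
import Pool.Agent.Lib.MP_706923_co.Spec2
import Pool.Agent.Lib.MP_9f2731_nt.Sieve

/-!
MP_706923_co: counting prime (power) orders with the arithmetical large sieve.
-/

set_option autoImplicit false

namespace Pool.Agent.Lib.MP_706923_co

open scoped BigOperators

/-- A prime order avoids the class of a good prime. -/
lemma avoid {l q p : ℕ} (hq : q.Prime) (hql : ¬ q ∣ l) {k j : ℕ}
    (hk : (q : ℤ) ∣ (k : ℤ) ^ 2 - k + l) (hj1 : 1 ≤ j) (hj : (q : ℤ) ∣ ((k : ℤ) - l) ^ j + 1)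
    (hp : p.Prime) (hK : IsK l (p + l)) : ¬ (q : ℤ) ∣ (p : ℤ) - ((k : ℤ) - l) := by
  intro hpk
  obtain ⟨G, i1, i2, i3, D, hDk, hD⟩ := hK
  have hid := ds_identity D l hD
  rw [hDk] at hid
  have h1 : (q : ℤ) ∣ (l : ℤ) * Fintype.card G := by
    rw [← hid]
    obtain ⟨d, hd⟩ := hpk
    have h2 : (((p + l : ℕ) : ℤ)) ^ 2 - ((p + l : ℕ) : ℤ) + l
        = ((k : ℤ) ^ 2 - k + l) + q * (d * (q * d + 2 * k - 1)) := by
      have : ((p : ℕ) : ℤ) = (k : ℤ) - l + q * d := by linarith
      push_cast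
      rw [this]; ring
    rw [h2]
    exact dvd_add hk (dvd_mul_right _ _)
  have hqv : q ∣ Fintype.card G := by
    have h2 : q ∣ l * Fintype.card G := by exact_mod_cast h1
    exact (hq.dvd_mul.mp h2).resolve_left hql
  rcases Nat.even_or_odd (Fintype.card G) with he | ho
  · obtain ⟨s, hs⟩ := schutz G D l hD he
    rw [hDk] at hs
    have h3 : p = s ^ 2 := by omega
    rw [h3] at hp
    exact hp.not_isSquare ⟨s, by ring⟩
  · have hqp : q ∣ p ^ j + 1 := by
      have h4 : (q : ℤ) ∣ (p : ℤ) ^ j - ((k : ℤ) - l) ^ j :=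
        dvd_trans hpk (sub_dvd_pow_sub_pow _ _ _)
      have h5 : (q : ℤ) ∣ (p : ℤ) ^ j + 1 := by
        have := dvd_add h4 hj
        have h6 : (p : ℤ) ^ j - ((k : ℤ) - l) ^ j + (((k : ℤ) - l) ^ j + 1) = (p : ℤ) ^ j + 1 := by
          ring
        rwa [h6] at this
      exact_mod_cast h5
    have hne : (D.card : ℤ) ≠ l := by
      rw [hDk]
      have := hp.pos
      push_cast
      intro h
      have : (p : ℤ) = 0 := by linarith
      exact hp.ne_zero (by exact_mod_cast this)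
    have hev := mann D l hD ho q hq hqv p hp j hj1 hqp hne
    rw [hDk] at hev
    have h7 : (((p + l : ℕ) : ℤ)) - l = (p : ℤ) := by push_cast; ring
    rw [h7, padicValInt.of_nat] at hev
    haveI : Fact p.Prime := ⟨hp⟩
    rw [padicValNat_self] at hev
    exact absurd hev (by decide)

lemma PS_mem {y : ℕ} {D : Finset ℕ} (h : D ∈ PS y) :
    (∀ q ∈ D, q.Prime ∧ q ≤ y) ∧ ∏ q ∈ D, q ≤ y := by
  unfold PS at h
  rw [Finset.mem_filter, Finset.mem_powerset] at h
  refine ⟨fun q hq => ?_, h.2⟩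
  have := h.1 hq
  rw [Finset.mem_filter, Finset.mem_Icc] at this
  exact ⟨this.2, this.1.2⟩

/-- The sieve bound. -/
lemma sieve_bound (h3 : S_LLow) (l : ℕ) (T : ℕ → Prop) [DecidablePred T]
    (hT : ∀ q, T q → Good l q) (x R : ℕ) (hR : 1 ≤ R) (hRx : R ^ 4 ≤ x) (S : Finset ℕ)
    (hS : ∀ n ∈ S, n ≤ x ∧ n.Prime ∧ R ^ 2 < n ∧ IsK l (n + l)) :
    (S.card : ℝ) * ((Real.log R / 2) *
        (∑ D ∈ (PS R).filter (fun D => ∀ q ∈ D, T q), ∏ q ∈ D, (1 / (q : ℝ)))) ≤ 60 * x := by
  classical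
  choose! kf hkf using fun q (hq : T q) => (hT q hq).2.2
  let r : ℕ → ℕ := fun q => (((kf q : ℤ) - l) % (q : ℤ)).toNat
  let Ω : ℕ → Finset ℕ := fun q => if T q then {0, r q} else {0}
  have hr : ∀ q, T q → ((r q : ℕ) : ℤ) = ((kf q : ℤ) - l) % (q : ℤ) := by
    intro q hq
    simp only [r]
    apply Int.toNat_of_nonneg
    apply Int.emod_nonneg
    have := (hT q hq).1
    omega
  have hrlt : ∀ q, T q → r q < q := by
    intro q hq
    have h1 := hr q hq
    have h2 : ((kf q : ℤ) - l) % (q : ℤ) < q := by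
      apply Int.emod_lt_of_pos
      have := (hT q hq).1
      omega
    rw [← h1] at h2
    exact_mod_cast h2
  have hr0 : ∀ q, T q → r q ≠ 0 := by
    intro q hq h0
    have h1 := hr q hq
    rw [h0] at h1
    have h2 : (q : ℤ) ∣ (kf q : ℤ) - l := Int.dvd_of_emod_eq_zero h1.symm
    obtain ⟨_, _, j, hj1, hj⟩ := hkf q hq
    have h3 : (q : ℤ) ∣ ((kf q : ℤ) - l) ^ j := dvd_pow h2 (by omega)
    have h4 : (q : ℤ) ∣ 1 := by
      have := dvd_sub hj h3
      simpa using this
    have h5 : (q : ℤ) ≤ 1 := Int.le_of_dvd (by norm_num) h4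
    have := (hT q hq).1
    omega
  have hcard : ∀ q, T q → (Ω q).card = 2 := by
    intro q hq
    simp only [Ω, if_pos hq]
    rw [Finset.card_pair]
    exact fun h => hr0 q hq h.symm
  have hcard' : ∀ q, ¬ T q → (Ω q).card = 1 := by
    intro q hq
    simp only [Ω, if_neg hq, Finset.card_singleton]
  have hls := Pool.Agent.Lib.MP_9f2731_nt.arith_ls (x + 1) (R ^ 2) (PS (R ^ 2)) Ω
    (fun D hD => ⟨fun q hq => ((PS_mem hD).1 q hq).1, (PS_mem hD).2⟩)
    (by
      intro D hD q hq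
      have hqp := ((PS_mem hD).1 q hq).1
      by_cases hqT : T q
      · refine ⟨?_, by rw [hcard q hqT]; norm_num, by rw [hcard q hqT]; exact (hT q hqT).1⟩
        simp only [Ω, if_pos hqT]
        intro z hz
        rw [Finset.mem_insert, Finset.mem_singleton] at hz
        rw [Finset.mem_range]
        rcases hz with rfl | rfl
        · exact hqp.pos
        · exact hrlt q hqT
      · refine ⟨?_, by rw [hcard' q hqT]; norm_num, by rw [hcard' q hqT]; exact hqp.one_lt⟩
        simp only [Ω, if_neg hqT]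
        intro z hz
        rw [Finset.mem_singleton] at hz
        rw [Finset.mem_range, hz]
        exact hqp.pos)
    S
    (by
      intro n hn
      obtain ⟨hnx, hnp, hnR, hnK⟩ := hS n hn
      refine ⟨by omega, ?_⟩
      intro D hD q hq
      obtain ⟨hqp, hqR⟩ := (PS_mem hD).1 q hq
      have hne0 : n % q ≠ 0 := by
        intro h
        have h1 : q ∣ n := Nat.dvd_of_mod_eq_zero h
        rcases (Nat.dvd_prime hnp).mp h1 with h2 | h2
        · exact hqp.one_lt.ne' h2
        · omega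
      by_cases hqT : T q
      · simp only [Ω, if_pos hqT, Finset.mem_insert, Finset.mem_singleton]
        rintro (h | h)
        · exact hne0 h
        · obtain ⟨hkq, hkd, j, hj1, hj⟩ := hkf q hqT
          refine avoid hqp (hT q hqT).2.1 hkd hj1 hj hnp hnK ?_
          have h1 := hr q hqT
          rw [← h] at h1
          push_cast at h1
          exact Int.ModEq.dvd (show ((kf q : ℤ) - l) ≡ (n : ℤ) [ZMOD q] from h1.symm)
      · simp only [Ω, if_neg hqT, Finset.mem_singleton]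
        exact hne0)
  have hw : ∀ D ∈ PS (R ^ 2), ∏ q ∈ D, Pool.Agent.Lib.MP_9f2731_nt.hw Ω q
      = ∏ q ∈ D, (if T q then 2 / ((q : ℝ) - 2) else 1 / ((q : ℝ) - 1)) := by
    intro D _
    refine Finset.prod_congr rfl fun q _ => ?_
    unfold Pool.Agent.Lib.MP_9f2731_nt.hw
    by_cases hqT : T q
    · rw [if_pos hqT, hcard q hqT]; norm_num
    · rw [if_neg hqT, hcard' q hqT]; norm_num
  rw [Finset.sum_congr rfl hw] at hls
  have hlow := h3 T (fun q hq => (hT q hq).1) R hR
  have hS0 : (0 : ℝ) ≤ S.card := Nat.cast_nonneg _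
  refine le_trans (mul_le_mul_of_nonneg_left hlow hS0) (le_trans hls ?_)
  have h4 : ((R ^ 2 : ℕ) : ℝ) ^ 2 ≤ x := by
    have : ((R ^ 2 : ℕ) : ℝ) ^ 2 = ((R ^ 4 : ℕ) : ℝ) := by push_cast; ring
    rw [this]
    exact_mod_cast hRx
  have h5 : (1 : ℝ) ≤ x := by
    have : 1 ≤ x := le_trans (Nat.one_le_pow _ _ hR) hRx
    exact_mod_cast this
  push_cast at h4 ⊢
  nlinarith

end Pool.Agent.Lib.MP_706923_co
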