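import Pool.Agent.Lib.MP_706923_co.Spec2

/-!
MP_706923_co, second theorem, P1: the first criterion for good primes.
-/

set_option autoImplicit false

namespace Pool.Agent.Lib.MP_706923_co

namespace Crit1

theorem two_pow_root {F : Type*} [Field F] (y : F) (n : ℕ) (h1 : y ^ (2 ^ n) = 1) (h : y ≠ 1) :
    ∃ a : ℕ, y ^ (2 ^ a) = -1 := by
  induction n with
  | zero =>
    rw [pow_zero, pow_one] at h1
    exact absurd h1 h
  | succ n ih =>
    rw [pow_succ, pow_mul] at h1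
    rcases sq_eq_one_iff.mp h1 with h2 | h2
    · exact ih h2
    · exact ⟨n, h2⟩

/-- a root of the polynomial whose square has a power equal to `-1` -/
theorem good_of_root {q : ℕ} [Fact q.Prime] {l : ℕ} (hq : 2 < q) (hl : ((l : ℕ) : ZMod q) ≠ 0)
    (r : ZMod q) (hr : r ^ 2 - r + (l : ZMod q) = 0) (j : ℕ) (hj : 1 ≤ j)
    (h : (r ^ 2) ^ j = -1) : Good l q := by
  have hk : ((r.val : ℕ) : ZMod q) = r := ZMod.natCast_zmod_val r
  refine ⟨hq, ?_, r.val, ZMod.val_lt r, ?_, j, hj, ?_⟩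
  · intro hd
    exact hl ((ZMod.natCast_eq_zero_iff l q).2 hd)
  · rw [← ZMod.intCast_zmod_eq_zero_iff_dvd]
    push_cast
    rw [hk]
    exact hr
  · rw [← ZMod.intCast_zmod_eq_zero_iff_dvd]
    push_cast
    rw [hk]
    have h1 : r - (l : ZMod q) = r ^ 2 := by linear_combination -hr
    rw [h1, h]
    ring

end Crit1

open Crit1

theorem crit1 : S_Crit1 := by
  intro q _ l μ t hl hq hμ hsq
  have hprime : q.Prime := Fact.out
  -- `q = 2^(t+2) K + 1`
  obtain ⟨K, hK⟩ : ∃ K, q = 2 ^ (t + 2) * K + 1 :=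
    ⟨q / 2 ^ (t + 2), by rw [← hq]; exact (Nat.div_add_mod q (2 ^ (t + 2))).symm⟩
  have hK1 : 1 ≤ K := by
    by_contra h0
    have h1 : K = 0 := by omega
    rw [h1, mul_zero, zero_add] at hK
    exact hprime.one_lt.ne' hK
  have h4 : 4 ≤ 2 ^ (t + 2) := by
    have h1 : 2 ^ (t + 2) = 4 * 2 ^ t := by ring
    have h2 : 1 ≤ 2 ^ t := Nat.one_le_two_pow
    omega
  have hq5 : 5 ≤ q := by
    have : 4 * 1 ≤ 2 ^ (t + 2) * K := Nat.mul_le_mul h4 hK1
    omega
  have hqm : q - 1 = 2 ^ (t + 1) * (2 * K) := by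
    have : 2 ^ (t + 2) * K = 2 ^ (t + 1) * (2 * K) := by ring
    omega
  have hq2 : q / 2 = 2 ^ t * (2 * K) := by
    have : 2 ^ (t + 2) * K = 2 * (2 ^ t * (2 * K)) := by ring
    omega
  have hμ0 : ((μ : ℕ) : ZMod q) ≠ 0 := by
    intro h0
    exact hμ (by rw [h0]; exact IsSquare.zero)
  have hl0 : ((l : ℕ) : ZMod q) ≠ 0 := by
    rw [hl]
    push_cast
    exact pow_ne_zero _ hμ0
  have h2 : (2 : ZMod q) ≠ 0 := by
    intro h0
    have h1 : ((2 : ℕ) : ZMod q) = 0 := by exact_mod_cast h0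
    have h3 := Nat.le_of_dvd (by norm_num) ((ZMod.natCast_eq_zero_iff 2 q).1 h1)
    omega
  obtain ⟨s, hs⟩ := hsq
  -- the two roots
  set r₁ : ZMod q := (1 + s) / 2 with hr₁
  set r₂ : ZMod q := (1 - s) / 2 with hr₂
  have e1 : r₁ ^ 2 - r₁ + (l : ZMod q) = 0 := by
    rw [hr₁]
    field_simp
    linear_combination -hs
  have e2 : r₂ ^ 2 - r₂ + (l : ZMod q) = 0 := by
    rw [hr₂]
    field_simp
    linear_combination -hs
  have e3 : r₁ * r₂ = (l : ZMod q) := by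
    rw [hr₁, hr₂]
    field_simp
    linear_combination hs
  have hr1 : r₁ ≠ 0 := by
    intro h0
    rw [h0, zero_mul] at e3
    exact hl0 e3.symm
  have hr2 : r₂ ≠ 0 := by
    intro h0
    rw [h0, mul_zero] at e3
    exact hl0 e3.symm
  have hpow : ∀ r : ZMod q, r ≠ 0 → ((r ^ 2) ^ K) ^ (2 ^ (t + 1)) = 1 := by
    intro r hr
    have h1 := ZMod.pow_card_sub_one_eq_one hr
    rw [hqm] at h1
    rw [← pow_mul, ← pow_mul, ← h1]
    congr 1
    ring
  -- the conclusion for a root with a nontrivial power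
  have hfin : ∀ r : ZMod q, r ≠ 0 → r ^ 2 - r + (l : ZMod q) = 0 → (r ^ 2) ^ K ≠ 1 →
      Good l q := by
    intro r hr hr2 hne
    obtain ⟨a, ha⟩ := two_pow_root ((r ^ 2) ^ K) (t + 1) (hpow r hr) hne
    rw [← pow_mul] at ha
    refine good_of_root (by omega) hl0 r hr2 (K * 2 ^ a) ?_ ha
    exact Nat.mul_pos hK1 (by positivity)
  by_cases hy1 : (r₁ ^ 2) ^ K = 1
  · by_cases hy2 : (r₂ ^ 2) ^ K = 1
    · exfalso
      apply hμ
      rw [ZMod.euler_criterion q hμ0, hq2, pow_mul]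
      have h5 : ((μ : ℕ) : ZMod q) ^ (2 ^ t) = r₁ * r₂ := by
        rw [e3, hl]
        push_cast
        rfl
      rw [h5, pow_mul, mul_pow, mul_pow, hy1, hy2, one_mul]
    · exact hfin r₂ hr2 e2 hy2
  · exact hfin r₁ hr1 e1 hy1

end Pool.Agent.Lib.MP_706923_co
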