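import Pool.Agent.Lib.MP_706923_co.Spec3
import Pool.Agent.Lib.MP_706923_co.Crit1

/-!
MP_706923_co, lambda = 16, R1: the criterion for good primes.
-/

set_option autoImplicit false

namespace Pool.Agent.Lib.MP_706923_co

theorem crit16 : S_Crit16 := by
  intro q _ w hq hw hsq
  have hprime : q.Prime := Fact.out
  have hw0 : w ≠ 0 := by
    rintro rfl
    exact hsq IsSquare.zero
  obtain ⟨j, hj⟩ : ∃ j, q = 16 * j + 1 := ⟨q / 16, by omega⟩
  have hj1 : 1 ≤ j := by
    by_contra h0
    have h1 : j = 0 := by omega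
    rw [h1] at hj
    exact hprime.one_lt.ne' hj
  have h16 : ((16 : ℕ) : ZMod q) ≠ 0 := by
    intro h0
    have h1 : q ∣ 16 := (ZMod.natCast_eq_zero_iff 16 q).1 h0
    have h2 : q ≤ 16 := Nat.le_of_dvd (by norm_num) h1
    omega
  have h2 : w ^ 2 = w - 2 := by linear_combination hw
  have h4 : w ^ 4 = 2 - 3 * w := by
    have : w ^ 4 = (w ^ 2) ^ 2 := by ring
    rw [this, h2]
    linear_combination h2
  have hE : w ^ (q / 2) = -1 := by
    rcases ZMod.pow_div_two_eq_neg_one_or_one q hw0 with h | h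
    · exact absurd ((ZMod.euler_criterion q hw0).2 h) hsq
    · exact h
  refine Crit1.good_of_root (by omega) h16 (w ^ 4) ?_ j hj1 ?_
  · rw [h4]
    push_cast
    linear_combination 9 * h2
  · have h5 : ((w ^ 4) ^ 2) ^ j = w ^ (q / 2) := by
      rw [← pow_mul, ← pow_mul]
      congr 1
      omega
    rw [h5, hE]

end Pool.Agent.Lib.MP_706923_co
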