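import Pool.Agent.Lib.MP_706923_co.Spec2

set_option autoImplicit false

namespace Pool.Agent.Lib.MP_706923_co

theorem crit2 : S_Crit2 := by
  intro q _ c hq hns hsq
  have hp : q.Prime := Fact.out
  have hq2 : 2 < q := by
    have := hp.two_le
    omega
  have hcne : (c : ZMod q) ≠ 0 := by
    intro h
    apply hns
    refine ⟨1, ?_⟩
    push_cast
    rw [h]
    ring
  have h2ne : (2 : ZMod q) ≠ 0 := by
    intro h
    have h1 : ((2 : ℕ) : ZMod q) = 0 := by exact_mod_cast h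
    rw [ZMod.natCast_eq_zero_iff] at h1
    have := Nat.le_of_dvd (by norm_num) h1
    omega
  obtain ⟨s, hs⟩ := hsq
  obtain ⟨ρ, hρ⟩ : ∃ ρ : ZMod q, 2 * ρ = 1 + s :=
    ⟨(1 + s) / 2, by field_simp⟩
  have hroot : ρ ^ 2 - ρ + (c : ZMod q) ^ 2 = 0 := by
    have h4 : (2 * 2 : ZMod q) * (ρ ^ 2 - ρ + (c : ZMod q) ^ 2) = 0 := by
      linear_combination (2 * ρ + s - 1) * hρ - hs
    rcases mul_eq_zero.1 h4 with h | h
    · exact absurd h (mul_ne_zero h2ne h2ne)
    · exact h
  have hρne : ρ ≠ 0 := by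
    intro h
    rw [h] at hroot
    apply hcne
    have h1 : (c : ZMod q) ^ 2 = 0 := by linear_combination hroot
    exact pow_eq_zero_iff (two_ne_zero) |>.1 h1
  have hρns : ¬ IsSquare ρ := by
    rintro ⟨y, hy⟩
    have hy0 : y ≠ 0 := by
      intro h
      apply hρne
      rw [hy, h, mul_zero]
    apply hns
    refine ⟨((c : ZMod q) + ρ) / y, ?_⟩
    push_cast
    rw [div_mul_div_comm, eq_div_iff (mul_ne_zero hy0 hy0), ← hy]
    linear_combination -hroot
  have hpow : ρ ^ (q / 2) = -1 := by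
    rcases ZMod.pow_div_two_eq_neg_one_or_one q hρne with h | h
    · exact absurd ((ZMod.euler_criterion q hρne).2 h) hρns
    · exact h
  refine ⟨hq2, ?_, ρ.val, ZMod.val_lt ρ, ?_, q / 4, ?_, ?_⟩
  · intro h
    apply hcne
    have h1 := (ZMod.natCast_eq_zero_iff (c ^ 2) q).2 h
    push_cast at h1
    exact pow_eq_zero_iff (two_ne_zero) |>.1 h1
  · rw [← ZMod.intCast_zmod_eq_zero_iff_dvd]
    push_cast
    rw [ZMod.natCast_zmod_val]
    exact hroot
  · omega
  · rw [← ZMod.intCast_zmod_eq_zero_iff_dvd]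
    push_cast
    rw [ZMod.natCast_zmod_val]
    have h1 : ρ - (c : ZMod q) ^ 2 = ρ ^ 2 := by linear_combination -hroot
    have h2 : 2 * (q / 4) = q / 2 := by omega
    rw [h1, ← pow_mul, h2, hpow]
    ring

end Pool.Agent.Lib.MP_706923_co
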