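import Pool.Agent.Lib.MP_706923_co.Spec2

/-!
P4: elementary descents.
-/

set_option autoImplicit false

namespace Pool.Agent.Lib.MP_706923_co

namespace DescAux

lemma sq_pos_of_mul {p q b : ℤ} (hp : 0 < p) (h : Int.gcd p q = 1) (e : p * q = b ^ 2) :
    ∃ g : ℤ, p = g ^ 2 := by
  obtain ⟨g, hg | hg⟩ := Int.sq_of_gcd_eq_one h e
  · exact ⟨g, hg⟩
  · exfalso
    have := sq_nonneg g
    omega

lemma pow4 {a b c : ℕ} (h : Nat.Coprime a b) (e : a * b = c ^ 4) :
    (∃ d, a = d ^ 4) ∧ (∃ d, b = d ^ 4) := by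
  constructor
  · exact exists_eq_pow_of_mul_eq_pow (Nat.isUnit_iff.2 h) e
  · exact exists_eq_pow_of_mul_eq_pow (Nat.isUnit_iff.2 h.symm) (by rw [mul_comm]; exact e)

/-- One step of the descent. -/
lemma step (a b p q : ℤ) (hp : 0 < p) (hq : 0 < q) (hpo : p % 2 = 1) (hqe : q % 2 = 0)
    (hg : Int.gcd p q = 1) (h1 : a ^ 2 = p ^ 2 + q ^ 2) (h2 : b ^ 2 = 2 * p * q) :
    ∃ A B g : ℤ, Int.gcd A B = 1 ∧ g % 2 = 1 ∧ A ^ 4 = B ^ 4 + g ^ 2 ∧
      A.natAbs < a.natAbs ∧ B ≠ 0 := by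
  obtain ⟨q', rfl⟩ : ∃ q', q = 2 * q' := ⟨q / 2, by omega⟩
  have hq' : 0 < q' := by omega
  have hb : b % 2 = 0 := by
    rcases Int.emod_two_eq_zero_or_one b with h | h
    · exact h
    · exfalso
      obtain ⟨k, hk⟩ : ∃ k, b = 2 * k + 1 := ⟨b / 2, by omega⟩
      rw [hk] at h2
      have : (2 * k + 1) ^ 2 = 2 * (2 * k ^ 2 + 2 * k) + 1 := by ring
      rw [this] at h2
      have h3 : 2 * p * (2 * q') = 2 * (p * (2 * q')) := by ring
      rw [h3] at h2
      omega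
  obtain ⟨b', rfl⟩ : ∃ b', b = 2 * b' := ⟨b / 2, by omega⟩
  have h3 : p * q' = b' ^ 2 := by
    have : 4 * (p * q') = 4 * b' ^ 2 := by linarith [h2]
    linarith
  have hcop : IsCoprime p (2 * q') := Int.isCoprime_iff_gcd_eq_one.2 hg
  have hcop' : IsCoprime p q' := hcop.of_mul_right_right
  have hg' : Int.gcd p q' = 1 := Int.isCoprime_iff_gcd_eq_one.1 hcop'
  obtain ⟨g, hgp⟩ := sq_pos_of_mul hp hg' h3
  obtain ⟨h, hhq⟩ := sq_pos_of_mul hq' (by rw [Int.gcd_comm]; exact hg')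
    (show q' * p = b' ^ 2 by rw [mul_comm]; exact h3)
  have hgodd : g % 2 = 1 := by
    rcases Int.emod_two_eq_zero_or_one g with hh | hh
    · exfalso
      obtain ⟨k, hk⟩ : ∃ k, g = 2 * k := ⟨g / 2, by omega⟩
      rw [hk] at hgp
      have : (2 * k) ^ 2 = 2 * (2 * k ^ 2) := by ring
      rw [this] at hgp
      omega
    · exact hh
  have ha0 : 0 < |a| := by
    rw [abs_pos]
    rintro rfl
    have := pow_pos hp 2
    have := sq_nonneg (2 * q')
    nlinarith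
  have htri : PythagoreanTriple p (2 * q') |a| := by
    unfold PythagoreanTriple
    rw [abs_mul_abs_self]
    nlinarith [h1]
  obtain ⟨R, T, e1, e2, e3, e4, -, e6⟩ := htri.coprime_classification' hg hpo ha0
  have hRT : R * T = h ^ 2 := by
    have : 2 * (R * T) = 2 * h ^ 2 := by rw [← hhq]; linarith
    linarith
  have hh0 : h ≠ 0 := by
    rintro rfl
    simp at hhq
    omega
  have hhpos : 0 < h ^ 2 := by positivity
  have hR0 : 0 < R := by
    rcases e6.lt_or_eq with hlt | heq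
    · exact hlt
    · exfalso; rw [← heq] at hRT; simp at hRT; exact hh0 (by
        have := hRT.symm; exact pow_eq_zero_iff (two_ne_zero) |>.1 this)
  have hT0 : 0 < T := by
    by_contra hT
    push Not at hT
    have := mul_nonpos_of_nonneg_of_nonpos hR0.le hT
    linarith
  obtain ⟨A, hA⟩ := sq_pos_of_mul hR0 e4 hRT
  obtain ⟨B, hB⟩ := sq_pos_of_mul hT0 (by rw [Int.gcd_comm]; exact e4)
    (show T * R = h ^ 2 by rw [mul_comm]; exact hRT)
  refine ⟨A, B, g, ?_, hgodd, ?_, ?_, ?_⟩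
  · rw [← Int.isCoprime_iff_gcd_eq_one] at e4 ⊢
    rw [hA, hB] at e4
    exact (IsCoprime.pow_iff two_pos two_pos).1 e4
  · have : A ^ 4 - B ^ 4 = g ^ 2 := by
      rw [← hgp, e1, hA, hB]; ring
    linarith
  · have h5 : |a| = A ^ 4 + B ^ 4 := by rw [e3, hA, hB]; ring
    have hBne : B ≠ 0 := by
      rintro rfl
      simp at hB
      omega
    have hB4 : 0 < B ^ 4 := by positivity
    have hA4 : |A| ≤ A ^ 4 := by
      rcases eq_or_ne A 0 with rfl | hAne
      · simp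
      · have h6 : 1 ≤ |A| := Int.one_le_abs hAne
        have h7 : A ^ 4 = |A| ^ 4 := by
          rw [show (4 : ℕ) = 2 * 2 from rfl, pow_mul, pow_mul, sq_abs]
        rw [h7]
        exact le_self_pow₀ h6 (by norm_num)
    have h8 : |A| < |a| := by rw [h5]; linarith
    rw [Int.abs_eq_natAbs, Int.abs_eq_natAbs] at h8
    exact_mod_cast h8
  · rintro rfl
    simp at hB
    omega

lemma desc1 : ∀ n : ℕ, ∀ a b c : ℤ, a.natAbs < n → Int.gcd a b = 1 → c % 2 = 1 →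
    a ^ 4 = b ^ 4 + c ^ 2 → b = 0 := by
  intro n
  induction n with
  | zero => intro a b c h; omega
  | succ n ih =>
    intro a b c hn hg hc habc
    by_contra hb
    have hcop : IsCoprime a b := Int.isCoprime_iff_gcd_eq_one.2 hg
    have hc0 : c ≠ 0 := by rintro rfl; simp at hc
    have hcb : IsCoprime c (b ^ 2) := by
      have h1 : IsCoprime (a ^ 4) (b ^ 4) := hcop.pow
      rw [habc] at h1
      have h2 : IsCoprime (c ^ 2) (b ^ 4) := by
        have h3 : IsCoprime (c ^ 2 + b ^ 4 * 1) (b ^ 4) := by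
          rw [mul_one, add_comm]; exact h1
        exact IsCoprime.of_add_mul_left_left h3
      have h4 : IsCoprime c b := (IsCoprime.pow_iff two_pos (by norm_num : 0 < 4)).1 h2
      exact h4.pow_right
    have ha0 : 0 < a ^ 2 := by
      have : a ≠ 0 := by
        rintro rfl
        have h1 : 0 < b ^ 4 := by positivity
        have h2 : 0 ≤ c ^ 2 := sq_nonneg c
        have h3 : (0 : ℤ) ^ 4 = 0 := by norm_num
        rw [h3] at habc
        linarith
      positivity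
    have htri : PythagoreanTriple c (b ^ 2) (a ^ 2) := by
      unfold PythagoreanTriple
      linarith [habc]
    obtain ⟨R, T, e1, e2, e3, e4, e5, e6⟩ := htri.coprime_classification'
      (Int.isCoprime_iff_gcd_eq_one.1 hcb) hc ha0
    have hb2 : 0 < b ^ 2 := by positivity
    have hR0 : 0 < R := by
      rcases e6.lt_or_eq with hlt | heq
      · exact hlt
      · exfalso; rw [← heq] at e2; simp at e2; exact hb e2
    have hT0 : 0 < T := by
      by_contra hT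
      push Not at hT
      have := mul_nonpos_of_nonneg_of_nonpos hR0.le hT
      linarith
    have hst : ∃ A B g : ℤ, Int.gcd A B = 1 ∧ g % 2 = 1 ∧ A ^ 4 = B ^ 4 + g ^ 2 ∧
        A.natAbs < a.natAbs ∧ B ≠ 0 := by
      rcases e5 with ⟨h1, h2⟩ | ⟨h1, h2⟩
      · exact step a b T R hT0 hR0 h2 h1 (by rw [Int.gcd_comm]; exact e4)
          (by rw [e3]; ring) (by rw [e2]; ring)
      · exact step a b R T hR0 hT0 h1 h2 e4 e3 e2
    obtain ⟨A, B, g, h1, h2, h3, h4, h5⟩ := hst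
    exact h5 (ih A B g (by omega) h1 h2 h3)

/-- `x^4 + 1 = 2 y^4` has only the trivial solution. -/
lemma two_pow (x y : ℕ) (h : x ^ 4 + 1 = 2 * y ^ 4) : x = 1 := by
  have hxo : x % 2 = 1 := by
    rcases Nat.mod_two_eq_zero_or_one x with hh | hh
    · exfalso
      obtain ⟨k, hk⟩ : ∃ k, x = 2 * k := ⟨x / 2, by omega⟩
      rw [hk] at h
      have : (2 * k) ^ 4 = 2 * (8 * k ^ 4) := by ring
      rw [this] at h
      omega
    · exact hh
  have hyo : y % 2 = 1 := by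
    rcases Nat.mod_two_eq_zero_or_one y with hh | hh
    · exfalso
      obtain ⟨k, hk⟩ : ∃ k, y = 2 * k := ⟨y / 2, by omega⟩
      obtain ⟨j, hj⟩ : ∃ j, x = 2 * j + 1 := ⟨x / 2, by omega⟩
      rw [hk, hj] at h
      have e1 : (2 * k) ^ 4 = 4 * (4 * k ^ 4) := by ring
      have e2 : (2 * j + 1) ^ 4 = 4 * (4 * j ^ 4 + 8 * j ^ 3 + 6 * j ^ 2 + 2 * j) + 1 := by ring
      rw [e1, e2] at h
      omega
    · exact hh
  obtain ⟨j, hj⟩ : ∃ j, x = 2 * j + 1 := ⟨x / 2, by omega⟩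
  obtain ⟨i, hi⟩ : ∃ i, y = 2 * i + 1 := ⟨y / 2, by omega⟩
  -- w = (x^4 - 1)/2
  obtain ⟨w, hw⟩ : ∃ w : ℤ, (x : ℤ) ^ 4 = 2 * w + 1 := by
    refine ⟨2 * (4 * j ^ 4 + 8 * j ^ 3 + 6 * j ^ 2 + 2 * j), ?_⟩
    rw [hj]; push_cast; ring
  have hZ : (x : ℤ) ^ 4 + 1 = 2 * (y : ℤ) ^ 4 := by exact_mod_cast h
  have hwy : w + 1 = (y : ℤ) ^ 4 := by linarith
  have htri : PythagoreanTriple ((x : ℤ) ^ 2) w ((y : ℤ) ^ 4) := by
    unfold PythagoreanTriple
    rw [← hwy]
    have : (x : ℤ) ^ 2 * (x : ℤ) ^ 2 = 2 * w + 1 := by rw [← hw]; ring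
    rw [this]; ring
  have hcop : IsCoprime ((x : ℤ) ^ 2) w := by
    refine ⟨(x : ℤ) ^ 2, -2, ?_⟩
    have : (x : ℤ) ^ 2 * (x : ℤ) ^ 2 = 2 * w + 1 := by rw [← hw]; ring
    rw [this]; ring
  have hpar : ((x : ℤ) ^ 2) % 2 = 1 := by
    rw [hj]; push_cast
    have : (2 * (j : ℤ) + 1) ^ 2 = 2 * (2 * (j : ℤ) ^ 2 + 2 * j) + 1 := by ring
    rw [this]; omega
  have hpos : 0 < (y : ℤ) ^ 4 := by
    have : (0 : ℤ) < y := by exact_mod_cast (by omega : 0 < y)
    positivity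
  obtain ⟨R, T, e1, e2, e3, e4, -, -⟩ := htri.coprime_classification'
    (Int.isCoprime_iff_gcd_eq_one.1 hcop) hpar hpos
  have hfin : R ^ 4 = T ^ 4 + ((x : ℤ) * (y : ℤ) ^ 2) ^ 2 := by
    have : ((x : ℤ) * (y : ℤ) ^ 2) ^ 2 = (x : ℤ) ^ 2 * (y : ℤ) ^ 4 := by ring
    rw [this, e1, e3]; ring
  have hodd : ((x : ℤ) * (y : ℤ) ^ 2) % 2 = 1 := by
    rw [hj, hi]; push_cast
    have : (2 * (j : ℤ) + 1) * (2 * (i : ℤ) + 1) ^ 2 =
      2 * (j * (2 * (i : ℤ) + 1) ^ 2 + 2 * (i : ℤ) ^ 2 + 2 * i) + 1 := by ring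
    rw [this]; omega
  have hT := desc1 (R.natAbs + 1) R T _ (by omega) e4 hodd hfin
  rw [hT] at e2
  have hw0 : w = 0 := by rw [e2]; ring
  rw [hw0] at hw
  have hx4 : x ^ 4 = 1 := by exact_mod_cast hw
  exact (Nat.pow_eq_one.1 hx4).resolve_right (by norm_num)

lemma sq_eq_pow4_succ (x h : ℕ) (e : x ^ 2 = h ^ 4 + 1) : h = 0 := by
  by_contra hne
  have h1 : 1 ≤ h := Nat.one_le_iff_ne_zero.2 hne
  have h2 : h ^ 2 < x := by
    by_contra hc
    push Not at hc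
    have : x ^ 2 ≤ (h ^ 2) ^ 2 := Nat.pow_le_pow_left hc 2
    have e3 : (h ^ 2) ^ 2 = h ^ 4 := by ring
    omega
  have h3 : (h ^ 2 + 1) ^ 2 ≤ x ^ 2 := Nat.pow_le_pow_left h2 2
  have h4 : (h ^ 2 + 1) ^ 2 = h ^ 4 + 2 * h ^ 2 + 1 := by ring
  have h5 : 0 < h ^ 2 := by positivity
  omega

/-- (A) -/
lemma partA (x y : ℕ) (h : x ^ 4 = 2 * y ^ 4 + 1) : y = 0 := by
  have hxo : x % 2 = 1 := by
    rcases Nat.mod_two_eq_zero_or_one x with hh | hh
    · exfalso
      obtain ⟨k, hk⟩ : ∃ k, x = 2 * k := ⟨x / 2, by omega⟩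
      rw [hk] at h
      have : (2 * k) ^ 4 = 2 * (8 * k ^ 4) := by ring
      rw [this] at h
      omega
    · exact hh
  obtain ⟨j, hj⟩ : ∃ j, x = 2 * j + 1 := ⟨x / 2, by omega⟩
  -- P = (x^2+1)/2 = 2j^2+2j+1, x^2-1 = 4 j^2 + 4 j
  have e1 : (2 * j ^ 2 + 2 * j + 1) * (4 * j ^ 2 + 4 * j) = y ^ 4 := by
    rw [hj] at h
    have : (2 * j + 1) ^ 4 = 2 * ((2 * j ^ 2 + 2 * j + 1) * (4 * j ^ 2 + 4 * j)) + 1 := by ring
    omega
  have hcop : Nat.Coprime (2 * j ^ 2 + 2 * j + 1) (4 * j ^ 2 + 4 * j) := by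
    have : (4 * j ^ 2 + 4 * j) = 2 * (2 * j ^ 2 + 2 * j) := by ring
    rw [this]
    apply Nat.Coprime.mul_right
    · rw [Nat.coprime_comm, Nat.coprime_two_left]
      exact ⟨j ^ 2 + j, by ring⟩
    · exact (Nat.coprime_self_add_left).2 (Nat.coprime_one_left _)
  obtain ⟨-, g, hg⟩ := pow4 hcop e1
  have hx2 : x ^ 2 = g ^ 4 + 1 := by rw [← hg, hj]; ring
  have hg0 := sq_eq_pow4_succ x g hx2
  rw [hg, hg0] at e1
  have e2 : y ^ 4 = 0 := by rw [← e1]; ring
  exact pow_eq_zero_iff (by norm_num) |>.1 e2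

/-- (A'): `x^4 = 8 y^4 + 1` forces `y = 0`. -/
lemma partA' (x y : ℕ) (h : x ^ 4 = 8 * y ^ 4 + 1) : y = 0 := by
  have hxo : x % 2 = 1 := by
    rcases Nat.mod_two_eq_zero_or_one x with hh | hh
    · exfalso
      obtain ⟨k, hk⟩ : ∃ k, x = 2 * k := ⟨x / 2, by omega⟩
      rw [hk] at h
      have : (2 * k) ^ 4 = 2 * (8 * k ^ 4) := by ring
      rw [this] at h
      omega
    · exact hh
  obtain ⟨j, hj⟩ : ∃ j, x = 2 * j + 1 := ⟨x / 2, by omega⟩
  -- P = 2j^2+2j+1, Q = j^2+j : P * Q = y^4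
  have e1 : (2 * j ^ 2 + 2 * j + 1) * (j ^ 2 + j) = y ^ 4 := by
    rw [hj] at h
    have : (2 * j + 1) ^ 4 = 8 * ((2 * j ^ 2 + 2 * j + 1) * (j ^ 2 + j)) + 1 := by ring
    omega
  have hcop : Nat.Coprime (2 * j ^ 2 + 2 * j + 1) (j ^ 2 + j) := by
    have h1 : 2 * j ^ 2 + 2 * j + 1 = 1 + 2 * (j ^ 2 + j) := by ring
    rw [h1]
    exact (Nat.coprime_add_mul_right_left 1 (j ^ 2 + j) 2).2 (Nat.coprime_one_left _)
  obtain ⟨⟨a, ha⟩, g, hg⟩ := pow4 hcop e1
  have hag : a ^ 4 = 2 * g ^ 4 + 1 := by rw [← ha, ← hg]; ring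
  have hg0 := partA a g hag
  rw [hg, hg0] at e1
  simpa using e1.symm

end DescAux

open DescAux in
theorem desc : S_Desc := by
  intro m t e hm h
  have heo : e % 2 = 1 := by
    rcases Nat.mod_two_eq_zero_or_one e with hh | hh
    · exfalso
      obtain ⟨k, hk⟩ : ∃ k, e = 2 * k := ⟨e / 2, by omega⟩
      rw [hk] at h
      have : (2 * k) ^ 2 = 2 * (2 * k ^ 2) := by ring
      rw [this] at h
      omega
    · exact hh
  obtain ⟨k, hk⟩ : ∃ k, e = 2 * k + 1 := ⟨e / 2, by omega⟩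
  have hek : (2 * m ^ 2) ^ (2 ^ t) = 2 * (k * (k + 1)) := by
    rw [hk] at h
    have : (2 * k + 1) ^ 2 = 2 * (2 * (k * (k + 1))) + 1 := by ring
    omega
  have hcop : Nat.Coprime k (k + 1) := by simp
  match t, h, hek with
  | 0, h, hek =>
    exfalso
    have h1 : e ^ 2 = (2 * m) ^ 2 + 1 := by rw [← h]; ring
    have h2 : 2 * m < e := by
      by_contra hc
      push Not at hc
      have := Nat.pow_le_pow_left hc 2
      omega
    have h3 : (2 * m + 1) ^ 2 ≤ e ^ 2 := Nat.pow_le_pow_left h2 2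
    have h4 : (2 * m + 1) ^ 2 = (2 * m) ^ 2 + 4 * m + 1 := by ring
    omega
  | 1, h, hek =>
    have h1 : k * (k + 1) = 2 * m ^ 4 := by
      have : (2 * m ^ 2) ^ (2 ^ 1) = 2 * (2 * m ^ 4) := by ring
      omega
    rcases Nat.mod_two_eq_zero_or_one k with hh | hh
    · exfalso
      obtain ⟨k', hk'⟩ : ∃ k', k = 2 * k' := ⟨k / 2, by omega⟩
      have h2 : k' * (k + 1) = m ^ 4 := by
        have : k * (k + 1) = 2 * (k' * (k + 1)) := by
          conv_lhs => rw [hk']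
          rw [hk']; ring
        omega
      have hc2 : Nat.Coprime k' (k + 1) := by
        rw [hk'] at hcop ⊢
        exact Nat.Coprime.coprime_mul_left hcop
      obtain ⟨⟨y, hy⟩, x, hx⟩ := pow4 hc2 h2
      have h3 : x ^ 4 = 2 * y ^ 4 + 1 := by rw [← hx, ← hy, ← hk']
      have h4 := partA x y h3
      rw [hy, h4] at h2
      have : 0 < m ^ 4 := by positivity
      simp at h2
      omega
    · obtain ⟨k', hk'⟩ : ∃ k', k + 1 = 2 * k' := ⟨(k + 1) / 2, by omega⟩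
      have h2 : k * k' = m ^ 4 := by
        have : k * (k + 1) = 2 * (k * k') := by rw [hk']; ring
        omega
      have hc2 : Nat.Coprime k k' := by
        rw [hk'] at hcop
        exact Nat.Coprime.coprime_mul_left_right hcop
      obtain ⟨⟨x, hx⟩, y, hy⟩ := pow4 hc2 h2
      have h3 : x ^ 4 + 1 = 2 * y ^ 4 := by rw [← hx, ← hy, ← hk']
      have h4 := two_pow x y h3
      have h5 : k = 1 := by rw [hx, h4]; norm_num
      have h6 : (2 * m ^ 2) ^ (2 ^ 1) = 2 * (1 * (1 + 1)) := by rw [hek, h5]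
      rw [h6]
  | (u + 2), h, hek =>
    exfalso
    set s := (2 * m ^ 2) ^ (2 ^ u) with hs
    have hs4 : (2 * m ^ 2) ^ (2 ^ (u + 2)) = s ^ 4 := by
      rw [hs, ← pow_mul]
      congr 1
      rw [pow_add]
      norm_num
    rw [hs4] at hek
    have hspos : 0 < s := by positivity
    have hs2 : 2 ∣ s := by
      rw [hs]
      exact dvd_pow (Dvd.intro _ rfl) (by positivity)
    obtain ⟨r, hr⟩ := hs2
    have hr0 : 0 < r := by omega
    have h1 : k * (k + 1) = 8 * r ^ 4 := by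
      rw [hr] at hek
      have : (2 * r) ^ 4 = 2 * (8 * r ^ 4) := by ring
      omega
    have h8 : 8 ∣ k * (k + 1) := ⟨_, h1⟩
    rcases Nat.mod_two_eq_zero_or_one k with hh | hh
    · have hc8 : Nat.Coprime 8 (k + 1) := by
        have : Nat.Coprime 2 (k + 1) := by
          rw [Nat.coprime_two_left]; exact Nat.odd_iff.2 (by omega)
        exact Nat.Coprime.pow_left 3 this
      obtain ⟨k', hk'⟩ := hc8.dvd_of_dvd_mul_right h8
      have h2 : k' * (k + 1) = r ^ 4 := by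
        have : k * (k + 1) = 8 * (k' * (k + 1)) := by
          conv_lhs => rw [hk']
          rw [hk']; ring
        omega
      have hc2 : Nat.Coprime k' (k + 1) := by
        rw [hk'] at hcop ⊢
        exact Nat.Coprime.coprime_mul_left hcop
      obtain ⟨⟨y, hy⟩, x, hx⟩ := pow4 hc2 h2
      have h3 : x ^ 4 = 8 * y ^ 4 + 1 := by rw [← hx, ← hy, ← hk']
      have h4 := partA' x y h3
      rw [hy, h4] at h2
      have : 0 < r ^ 4 := by positivity
      simp at h2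
      omega
    · have hc8 : Nat.Coprime 8 k := by
        have : Nat.Coprime 2 k := by
          rw [Nat.coprime_two_left]; exact Nat.odd_iff.2 (by omega)
        exact Nat.Coprime.pow_left 3 this
      obtain ⟨k', hk'⟩ := hc8.dvd_of_dvd_mul_left h8
      have h2 : k * k' = r ^ 4 := by
        have : k * (k + 1) = 8 * (k * k') := by rw [hk']; ring
        omega
      have hc2 : Nat.Coprime k k' := by
        rw [hk'] at hcop
        exact Nat.Coprime.coprime_mul_left_right hcop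
      obtain ⟨⟨x, hx⟩, y, hy⟩ := pow4 hc2 h2
      have h3 : x ^ 4 + 1 = 8 * y ^ 4 := by rw [← hx, ← hy, ← hk']
      have hxo : x % 2 = 1 := by
        rcases Nat.mod_two_eq_zero_or_one x with hx2 | hx2
        · exfalso
          obtain ⟨i, hi⟩ : ∃ i, x = 2 * i := ⟨x / 2, by omega⟩
          rw [hi] at h3
          have : (2 * i) ^ 4 = 2 * (8 * i ^ 4) := by ring
          omega
        · exact hx2
      obtain ⟨i, hi⟩ : ∃ i, x = 2 * i + 1 := ⟨x / 2, by omega⟩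
      rw [hi] at h3
      have : (2 * i + 1) ^ 4 = 4 * (4 * i ^ 4 + 8 * i ^ 3 + 6 * i ^ 2 + 2 * i) + 1 := by ring
      rw [this] at h3
      omega

end Pool.Agent.Lib.MP_706923_co
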