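import Pool.Agent.Lib.MP_706923_co.Spec3

/-!
MP_706923_co, module R3 (`ext' : S_Ext`): ring homomorphisms of a subring of finite index in the ring
of integers of a number field to a prime field of large characteristic extend.
-/

set_option autoImplicit false

namespace Pool.Agent.Lib.MP_706923_co

open scoped BigOperators NumberField

namespace ExtAux

theorem exists_common (K : Type) [Field K] [NumberField K] (S : Subring (𝓞 K))
    (h : ∀ x : 𝓞 K, ∃ n : ℕ, 0 < n ∧ (n : 𝓞 K) * x ∈ S) :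
    ∃ N : ℕ, 0 < N ∧ ∀ x : 𝓞 K, (N : 𝓞 K) * x ∈ S := by
  classical
  choose n hn0 hn using h
  obtain ⟨s, hs⟩ := (Module.Finite.fg_top : (⊤ : Submodule ℤ (𝓞 K)).FG)
  refine ⟨∏ x ∈ s, n x, Finset.prod_pos fun x _ => hn0 x, ?_⟩
  have key : ∀ x : 𝓞 K, x ∈ Submodule.span ℤ (s : Set (𝓞 K)) →
      ((∏ x ∈ s, n x : ℕ) : 𝓞 K) * x ∈ S := by
    intro x hx
    induction hx using Submodule.span_induction with
    | mem x hx =>
      have hx' : x ∈ s := hx
      rw [← Finset.mul_prod_erase s n hx', Nat.cast_mul, mul_comm ((n x : ℕ) : 𝓞 K), mul_assoc]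
      exact S.mul_mem (natCast_mem S _) (hn x)
    | zero => simp
    | add x y _ _ hx hy => rw [mul_add]; exact S.add_mem hx hy
    | smul a x _ hx =>
      rw [mul_smul_comm]
      exact S.zsmul_mem hx a
  intro x
  exact key x (by rw [hs]; trivial)

end ExtAux

open ExtAux in
theorem ext' : S_Ext := by
  intro K _ _ S h
  obtain ⟨N, hN0, hN⟩ := exists_common K S h
  refine ⟨N, hN0, ?_⟩
  intro q hq hqN φ
  haveI : Fact q.Prime := ⟨hq⟩
  have hNq : (N : ZMod q) ≠ 0 := by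
    intro h0
    exact hqN ((ZMod.natCast_eq_zero_iff N q).1 h0)
  have hφN : φ ((N : ℕ) : S) = (N : ZMod q) := map_natCast φ N
  refine ⟨{ toFun := fun x => φ ⟨(N : 𝓞 K) * x, hN x⟩ * (N : ZMod q)⁻¹
            map_one' := ?_
            map_mul' := ?_
            map_zero' := ?_
            map_add' := ?_ }, ?_⟩
  · have h1 : (⟨(N : 𝓞 K) * 1, hN 1⟩ : S) = ((N : ℕ) : S) := by
      apply Subtype.ext; simp
    rw [h1, hφN]
    exact mul_inv_cancel₀ hNq
  · intro x y
    have h1 : (⟨(N : 𝓞 K) * x, hN x⟩ : S) * ⟨(N : 𝓞 K) * y, hN y⟩ =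
        ((N : ℕ) : S) * ⟨(N : 𝓞 K) * (x * y), hN (x * y)⟩ := by
      apply Subtype.ext
      simp only [Subring.coe_mul, Subring.coe_natCast]
      ring
    have h2 := congrArg φ h1
    rw [map_mul, map_mul, hφN] at h2
    field_simp
    rw [h2, mul_comm]
  · have h1 : (⟨(N : 𝓞 K) * 0, hN 0⟩ : S) = 0 := by
      apply Subtype.ext; simp
    rw [h1, map_zero, zero_mul]
  · intro x y
    have h1 : (⟨(N : 𝓞 K) * (x + y), hN (x + y)⟩ : S) =
        ⟨(N : 𝓞 K) * x, hN x⟩ + ⟨(N : 𝓞 K) * y, hN y⟩ := by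
      apply Subtype.ext
      simp only [Subring.coe_add]
      ring
    rw [h1, map_add, add_mul]
  · intro s
    have h1 : (⟨(N : 𝓞 K) * s, hN s⟩ : S) = ((N : ℕ) : S) * s := by
      apply Subtype.ext
      simp only [Subring.coe_mul, Subring.coe_natCast]
    change φ ⟨(N : 𝓞 K) * s, hN s⟩ * (N : ZMod q)⁻¹ = φ s
    rw [h1, map_mul, hφN, mul_comm (N : ZMod q), mul_assoc, mul_inv_cancel₀ hNq, mul_one]

end Pool.Agent.Lib.MP_706923_co
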