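import Pool.Agent.Lib.MP_706923_co.Spec2

/-! # P3: a residue class with Jacobi symbol `-1` modulo an odd nonsquare. -/

set_option autoImplicit false

namespace Pool.Agent.Lib.MP_706923_co

theorem jac : S_Jac := by
  intro n hodd hns
  obtain ⟨a, b, hab, hsf⟩ := Nat.sq_mul_squarefree n
  have hn0 : n ≠ 0 := by
    rintro rfl
    exact hns ⟨0, rfl⟩
  have hb0 : b ≠ 0 := by
    rintro rfl
    apply hn0
    rw [← hab]
    simp
  have ha0 : a ≠ 0 := by
    rintro rfl
    apply hn0
    rw [← hab]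
    simp
  have ha1 : a ≠ 1 := by
    rintro rfl
    apply hns
    exact ⟨b, by rw [← hab]; ring⟩
  obtain ⟨p, hp, c, hc⟩ := Nat.exists_prime_and_dvd ha1
  haveI : Fact p.Prime := ⟨hp⟩
  have hc0 : c ≠ 0 := by
    rintro rfl
    apply ha0
    rw [hc, mul_zero]
  have hpc : p.Coprime c := by
    rw [hc] at hsf
    exact Nat.coprime_of_squarefree_mul hsf
  have hpn : p ∣ n := by
    rw [← hab, hc]
    exact (dvd_mul_right p c).mul_left _
  have hp2 : p ≠ 2 := by
    rintro rfl
    exact (Nat.not_even_iff_odd.2 hodd) (even_iff_two_dvd.2 hpn)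
  -- a nonresidue
  have hchar : ringChar (ZMod p) ≠ 2 := by
    rw [ZMod.ringChar_zmod_n]
    exact hp2
  obtain ⟨r, hr⟩ := FiniteField.exists_nonsquare hchar
  have hcop : p.Coprime (c * ordCompl[p] b) :=
    Nat.Coprime.mul_right hpc (Nat.coprime_ordCompl hp hb0)
  obtain ⟨u, hu1, hu2⟩ := Nat.chineseRemainder hcop r.val 1
  have hur : ((u : ℕ) : ZMod p) = r := by
    have h := (ZMod.natCast_eq_natCast_iff _ _ _).2 hu1
    rw [h, ZMod.natCast_zmod_val]
  have hr0 : r ≠ 0 := by
    rintro rfl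
    exact hr ⟨0, by simp⟩
  have hup : u.Coprime p := by
    rw [Nat.coprime_comm, hp.coprime_iff_not_dvd]
    intro h
    apply hr0
    rw [← hur]
    exact (ZMod.natCast_eq_zero_iff u p).2 h
  have hum : u.Coprime (c * ordCompl[p] b) := by
    have h := hu2.gcd_eq
    rw [Nat.Coprime, h]
    simp
  have huc : u.Coprime c := Nat.Coprime.coprime_mul_right_right hum
  have hub1 : u.Coprime (ordCompl[p] b) := Nat.Coprime.coprime_mul_left_right hum
  have hub : u.Coprime b := by
    rw [← Nat.ordProj_mul_ordCompl_eq_self b p]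
    exact Nat.Coprime.mul_right (hup.pow_right _) hub1
  refine ⟨u, ?_, ?_⟩
  · rw [← hab, hc]
    exact Nat.Coprime.mul_right (hub.pow_right 2) (Nat.Coprime.mul_right hup huc)
  · have h1 : jacobiSym (u : ℤ) p = -1 := by
      rw [← jacobiSym.legendreSym.to_jacobiSym, legendreSym.eq_neg_one_iff]
      rw [Int.cast_natCast, hur]
      exact hr
    have h2 : jacobiSym (u : ℤ) c = 1 := by
      have h3 : ((u : ℕ) : ℤ) % (c : ℕ) = (1 : ℤ) % (c : ℕ) := by
        have h4 : u ≡ 1 [MOD c] := hu2.of_mul_right _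
        have h5 : u % c = 1 % c := h4
        exact_mod_cast h5
      rw [jacobiSym.mod_left' h3, jacobiSym.one_left]
    have h3 : jacobiSym (u : ℤ) b ^ 2 = 1 := by
      refine jacobiSym.sq_one ?_
      rw [Int.gcd_natCast_natCast]
      exact hub
    rw [← hab, hc, jacobiSym.mul_right' _ (pow_ne_zero 2 hb0) (mul_ne_zero hp.ne_zero hc0),
      jacobiSym.mul_right' _ hp.ne_zero hc0, pow_two, jacobiSym.mul_right' _ hb0 hb0, ← pow_two,
      h1, h2, h3]
    norm_num

end Pool.Agent.Lib.MP_706923_co
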