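import Mathlib
import Pool.Agent.Lib.MP_706923_co.Spec2

/-!
# MP_706923_co, P9: the lower bound for the sieve sum
-/

set_option autoImplicit false

namespace Pool.Agent.Lib.MP_706923_co

open scoped BigOperators

theorem LLow_mem {y : ℕ} {D : Finset ℕ} : D ∈ PS y ↔
    (∀ q ∈ D, 1 ≤ q ∧ q ≤ y ∧ q.Prime) ∧ ∏ q ∈ D, q ≤ y := by
  unfold PS
  rw [Finset.mem_filter, Finset.mem_powerset]
  constructor
  · rintro ⟨h1, h2⟩
    refine ⟨fun q hq => ?_, h2⟩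
    have h3 := h1 hq
    rw [Finset.mem_filter, Finset.mem_Icc] at h3
    exact ⟨h3.1.1, h3.1.2, h3.2⟩
  · rintro ⟨h1, h2⟩
    refine ⟨fun q hq => ?_, h2⟩
    rw [Finset.mem_filter, Finset.mem_Icc]
    exact ⟨⟨(h1 q hq).1, (h1 q hq).2.1⟩, (h1 q hq).2.2⟩

theorem LLow_pos {q : ℕ} (hq : q.Prime) : (0 : ℝ) < (q : ℝ) - 1 := by
  have h : (2 : ℝ) ≤ q := by exact_mod_cast hq.two_le
  linarith

theorem LLow_weight (T : ℕ → Prop) [DecidablePred T] (hT : ∀ q, T q → 2 < q) {q : ℕ}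
    (hq : q.Prime) : (if T q then 1 / ((q : ℝ) - 1) else 0) + 1 / ((q : ℝ) - 1) ≤
      (if T q then 2 / ((q : ℝ) - 2) else 1 / ((q : ℝ) - 1)) := by
  have h1 := LLow_pos hq
  by_cases h : T q
  · rw [if_pos h, if_pos h]
    have h2 : (2 : ℝ) < q := by exact_mod_cast hT q h
    have h3 : 1 / ((q : ℝ) - 1) + 1 / ((q : ℝ) - 1) = 2 / ((q : ℝ) - 1) := by ring
    rw [h3]
    exact div_le_div_of_nonneg_left (by norm_num) (by linarith) (by linarith)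
  · rw [if_neg h, if_neg h, zero_add]

theorem llow (h : S_Phi) : S_LLow := by
  classical
  intro T _ hT R hR
  set a : ℕ → ℝ := fun q => if T q then 1 / ((q : ℝ) - 1) else 0 with ha
  set b : ℕ → ℝ := fun q => 1 / ((q : ℝ) - 1) with hb
  have ha0 : ∀ q : ℕ, q.Prime → 0 ≤ a q := by
    intro q hq
    rw [ha]
    simp only
    split_ifs
    · have := LLow_pos hq
      positivity
    · exact le_refl _
  have hb0 : ∀ q : ℕ, q.Prime → 0 ≤ b q := by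
    intro q hq
    rw [hb]
    have := LLow_pos hq
    simp only
    positivity
  -- step 1
  have step1 : ∑ D ∈ PS (R ^ 2), ∑ D₁ ∈ D.powerset, (∏ q ∈ D₁, a q) * ∏ q ∈ D \ D₁, b q ≤
      ∑ D ∈ PS (R ^ 2), ∏ q ∈ D, (if T q then 2 / ((q : ℝ) - 2) else 1 / ((q : ℝ) - 1)) := by
    refine Finset.sum_le_sum fun D hD => ?_
    rw [← Finset.prod_add]
    obtain ⟨hD1, -⟩ := LLow_mem.1 hD
    refine Finset.prod_le_prod (fun q hq => add_nonneg (ha0 q (hD1 q hq).2.2)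
      (hb0 q (hD1 q hq).2.2)) fun q hq => ?_
    exact LLow_weight T hT (hD1 q hq).2.2
  refine le_trans ?_ step1
  rw [Finset.sum_sigma' (PS (R ^ 2)) (fun D => D.powerset)
    (fun D D₁ => (∏ q ∈ D₁, a q) * ∏ q ∈ D \ D₁, b q)]
  -- step 2: the pairs
  set Sg : Finset (Σ _ : Finset ℕ, Finset ℕ) :=
    ((PS R).filter (fun D => ∀ q ∈ D, T q)).sigma
      (fun D₁ => (PS R).filter (fun D => Disjoint D D₁)) with hSg
  set g : (Σ _ : Finset ℕ, Finset ℕ) → (Σ _ : Finset ℕ, Finset ℕ) :=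
    fun p => ⟨p.1 ∪ p.2, p.1⟩ with hg
  set f : (Σ _ : Finset ℕ, Finset ℕ) → ℝ :=
    fun p => (∏ q ∈ p.2, a q) * ∏ q ∈ p.1 \ p.2, b q with hf
  have hmem : ∀ p ∈ Sg, (p.1 ∈ PS R ∧ ∀ q ∈ p.1, T q) ∧ p.2 ∈ PS R ∧ Disjoint p.2 p.1 := by
    intro p hp
    rw [hSg, Finset.mem_sigma, Finset.mem_filter, Finset.mem_filter] at hp
    exact hp
  have hinj : Set.InjOn g (Sg : Set (Σ _ : Finset ℕ, Finset ℕ)) := by
    rintro ⟨D₁, D₂⟩ hp ⟨D₃, D₄⟩ hp' hgg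
    obtain ⟨-, -, hd⟩ := hmem _ hp
    obtain ⟨-, -, hd'⟩ := hmem _ hp'
    simp only at hd hd'
    have e := hgg
    rw [hg] at e
    simp only [Sigma.mk.injEq, heq_eq_eq] at e
    obtain ⟨e1, e2⟩ := e
    subst e2
    have e3 : D₂ = D₄ := by
      have h1 : (D₁ ∪ D₂) \ D₁ = D₂ := by
        rw [Finset.union_sdiff_left]
        exact Finset.sdiff_eq_self_of_disjoint hd
      have h2 : (D₁ ∪ D₄) \ D₁ = D₄ := by
        rw [Finset.union_sdiff_left]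
        exact Finset.sdiff_eq_self_of_disjoint hd'
      rw [← h1, e1, h2]
    rw [e3]
  have hsub : Sg.image g ⊆ (PS (R ^ 2)).sigma (fun D => D.powerset) := by
    intro x hx
    rw [Finset.mem_image] at hx
    obtain ⟨p, hp, rfl⟩ := hx
    obtain ⟨⟨h1, -⟩, h2, hd⟩ := hmem p hp
    obtain ⟨h1a, h1b⟩ := LLow_mem.1 h1
    obtain ⟨h2a, h2b⟩ := LLow_mem.1 h2
    have hRR : R ≤ R ^ 2 := by nlinarith
    rw [Finset.mem_sigma, LLow_mem, Finset.mem_powerset]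
    refine ⟨⟨fun q hq => ?_, ?_⟩, Finset.subset_union_left⟩
    · rcases Finset.mem_union.1 hq with hq | hq
      · exact ⟨(h1a q hq).1, (h1a q hq).2.1.trans hRR, (h1a q hq).2.2⟩
      · exact ⟨(h2a q hq).1, (h2a q hq).2.1.trans hRR, (h2a q hq).2.2⟩
    · show ∏ q ∈ p.1 ∪ p.2, q ≤ R ^ 2
      rw [Finset.prod_union hd.symm, pow_two]
      exact Nat.mul_le_mul h1b h2b
  have hfnn : ∀ x ∈ (PS (R ^ 2)).sigma (fun D => D.powerset), 0 ≤ f x := by
    intro x hx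
    rw [Finset.mem_sigma, Finset.mem_powerset] at hx
    obtain ⟨hx1, hx2⟩ := hx
    obtain ⟨hp, -⟩ := LLow_mem.1 hx1
    refine mul_nonneg (Finset.prod_nonneg fun q hq => ha0 q (hp q (hx2 hq)).2.2)
      (Finset.prod_nonneg fun q hq => hb0 q (hp q (Finset.sdiff_subset hq)).2.2)
  have step2 : ∑ p ∈ Sg, f (g p) ≤ ∑ x ∈ (PS (R ^ 2)).sigma (fun D => D.powerset), f x := by
    rw [← Finset.sum_image hinj]
    exact Finset.sum_le_sum_of_subset_of_nonneg hsub fun x hx _ => hfnn x hx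
  refine le_trans ?_ step2
  -- step 3
  rw [hSg, Finset.sum_sigma, Finset.mul_sum]
  refine Finset.sum_le_sum fun D₁ hD₁ => ?_
  rw [Finset.mem_filter] at hD₁
  obtain ⟨hD₁P, hD₁T⟩ := hD₁
  obtain ⟨hpr, -⟩ := LLow_mem.1 hD₁P
  have hphi := h D₁ (fun q hq => (hpr q hq).2.2) R hR
  have e1 : ∑ D₂ ∈ (PS R).filter (fun D => Disjoint D D₁), f (g ⟨D₁, D₂⟩) =
      (∏ q ∈ D₁, a q) * ∑ D₂ ∈ (PS R).filter (fun D => Disjoint D D₁),
        ∏ p ∈ D₂, (1 / ((p : ℝ) - 1)) := by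
    rw [Finset.mul_sum]
    refine Finset.sum_congr rfl fun D₂ hD₂ => ?_
    rw [Finset.mem_filter] at hD₂
    have h3 : (D₁ ∪ D₂) \ D₁ = D₂ := by
      rw [Finset.union_sdiff_left]
      exact Finset.sdiff_eq_self_of_disjoint hD₂.2
    show (∏ q ∈ D₁, a q) * ∏ q ∈ (D₁ ∪ D₂) \ D₁, b q = _
    rw [h3]
  rw [e1]
  have e2 : Real.log R / 2 * ∏ q ∈ D₁, (1 / (q : ℝ)) =
      (∏ q ∈ D₁, a q) * ((∏ q ∈ D₁, (1 - 1 / (q : ℝ))) * (Real.log R / 2)) := by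
    rw [← mul_assoc, ← Finset.prod_mul_distrib, mul_comm]
    congr 1
    refine Finset.prod_congr rfl fun q hq => ?_
    rw [ha]
    simp only
    rw [if_pos (hD₁T q hq)]
    have h4 := LLow_pos (hpr q hq).2.2
    have h5 : (0 : ℝ) < q := by linarith
    field_simp
  rw [e2]
  refine mul_le_mul_of_nonneg_left hphi ?_
  exact Finset.prod_nonneg fun q hq => ha0 q (hpr q hq).2.2

end Pool.Agent.Lib.MP_706923_co
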