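import Pool.Agent.Lib.MP_706923_co.Spec3

/-!
MP_706923_co: `-(ζ^16 + ζ^32 + ζ^64)` is not a square in the cyclotomic field of conductor 112.
-/

set_option autoImplicit false

namespace Pool.Agent.Lib.MP_706923_co

open scoped BigOperators NumberField
open Polynomial

namespace NonSqAux

/-- the endomorphism of `F` with `ζ ↦ ζ ^ k` -/
lemma exists_sigma {F : Type} [Field F] [NumberField F] [IsCyclotomicExtension {112} ℚ F] {ζ : F}
    (hζ : IsPrimitiveRoot ζ 112) (k : ℕ) (hk : k.Coprime 112) :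
    ∃ σ : F →ₐ[ℚ] F, σ ζ = ζ ^ k := by
  have hk' : IsPrimitiveRoot (ζ ^ k) 112 := hζ.pow_of_coprime k hk
  have hmin : minpoly ℚ ζ = cyclotomic 112 ℚ :=
    (hζ.minpoly_eq_cyclotomic_of_irreducible (cyclotomic.irreducible_rat (by norm_num))).symm
  have H : aeval (ζ ^ k) (minpoly ℚ (hζ.powerBasis ℚ).gen) = 0 := by
    rw [hζ.powerBasis_gen ℚ, hmin, aeval_def, eval₂_eq_eval_map, map_cyclotomic]
    exact hk'.isRoot_cyclotomic (by norm_num)
  exact ⟨(hζ.powerBasis ℚ).lift (ζ ^ k) H,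
    (congrArg _ (hζ.powerBasis_gen ℚ).symm).trans ((hζ.powerBasis ℚ).lift_gen (ζ ^ k) H)⟩

end NonSqAux

open NonSqAux

theorem nonSq : S_NonSq := by
  intro F _ _ _ ζ hζ
  rintro ⟨y, hy⟩
  obtain ⟨h, hh⟩ := exists_sigma hζ 99 (by norm_num)
  obtain ⟨τ, hτ⟩ := exists_sigma hζ 111 (by norm_num)
  have hcomm : ∀ x, h (τ x) = τ (h x) := by
    have : h.comp τ = τ.comp h := by
      apply (hζ.powerBasis ℚ).algHom_ext
      rw [hζ.powerBasis_gen ℚ]
      change h (τ ζ) = τ (h ζ)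
      rw [hτ, hh, map_pow, map_pow, hh, hτ, ← pow_mul, ← pow_mul, mul_comm]
    exact fun x => DFunLike.congr_fun this x
  have h112 : ζ ^ 112 = 1 := hζ.pow_eq_one
  obtain ⟨z, hz⟩ : ∃ z, z = ζ ^ 16 := ⟨_, rfl⟩
  obtain ⟨t, ht⟩ : ∃ t, t = ζ ^ 14 := ⟨_, rfl⟩
  have hz7 : z ^ 7 = 1 := by rw [hz, ← pow_mul]; exact h112
  have ht8 : t ^ 8 = 1 := by rw [ht, ← pow_mul]; exact h112
  have hz1 : z ≠ 1 := by rw [hz]; exact hζ.pow_ne_one_of_pos_of_lt (by norm_num) (by norm_num)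
  have ht4 : t ^ 4 ≠ 1 := by
    rw [ht, ← pow_mul]
    exact hζ.pow_ne_one_of_pos_of_lt (by norm_num) (by norm_num)
  have hsum : 1 + z + z ^ 2 + z ^ 3 + z ^ 4 + z ^ 5 + z ^ 6 = 0 := by
    have : (z - 1) * (1 + z + z ^ 2 + z ^ 3 + z ^ 4 + z ^ 5 + z ^ 6) = 0 := by
      linear_combination hz7
    exact (mul_eq_zero.1 this).resolve_left (sub_ne_zero.2 hz1)
  have ht4' : t ^ 4 = -1 := by
    have : (t ^ 4 - 1) * (t ^ 4 + 1) = 0 := by linear_combination ht8
    exact eq_neg_of_add_eq_zero_left ((mul_eq_zero.1 this).resolve_left (sub_ne_zero.2 ht4))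
  have hw : y * y = -(z + z ^ 2 + z ^ 4) := by
    rw [← hy, hz, ← pow_mul, ← pow_mul]
  have hhz : h z = z := by
    rw [hz, map_pow, hh, ← pow_mul, mul_comm 99 16, pow_mul, ← hz]
    calc z ^ 99 = (z ^ 7) ^ 14 * z := by ring
      _ = z := by rw [hz7]; ring
  have hτz : τ z = z ^ 6 := by
    rw [hz, map_pow, hτ, ← pow_mul, mul_comm 111 16, pow_mul, ← hz]
    calc z ^ 111 = (z ^ 7) ^ 15 * z ^ 6 := by ring
      _ = z ^ 6 := by rw [hz7]; ring
  have hht : h t = t ^ 3 := by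
    rw [ht, map_pow, hh, ← pow_mul, mul_comm 99 14, pow_mul, ← ht]
    calc t ^ 99 = (t ^ 8) ^ 12 * t ^ 3 := by ring
      _ = t ^ 3 := by rw [ht8]; ring
  have hhy : h y = y ∨ h y = -y := by
    have : h y * h y = y * y := by
      rw [← map_mul, hw, map_neg, map_add, map_add, map_pow, map_pow, hhz]
    exact mul_self_eq_mul_self_iff.1 this
  have hu2 : (y * τ y) * (y * τ y) = 2 := by
    have h1 : τ y * τ y = -(z ^ 6 + (z ^ 6) ^ 2 + (z ^ 6) ^ 4) := by
      rw [← map_mul, hw, map_neg, map_add, map_add, map_pow, map_pow, hτz]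
    have h2 : (y * τ y) * (y * τ y) = (y * y) * (τ y * τ y) := by ring
    rw [h2, hw, h1]
    have e1 : (z ^ 6) ^ 2 = z ^ 5 := by linear_combination z ^ 5 * hz7
    have e2 : (z ^ 6) ^ 4 = z ^ 3 := by
      linear_combination (z ^ 17 + z ^ 10 + z ^ 3) * hz7
    rw [e1, e2]
    linear_combination (3 + z + z ^ 2 + z ^ 3) * hz7 + hsum
  have hv2 : (t + t ^ 7) * (t + t ^ 7) = 2 := by
    linear_combination (2 + t ^ 6) * ht8 + t ^ 2 * ht4'
  have hhv : h (t + t ^ 7) = -(t + t ^ 7) := by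
    rw [map_add, map_pow, hht]
    linear_combination (t ^ 13 + t ^ 5) * ht8 + (t + t ^ 3) * ht4'
  have hhu : h (y * τ y) = y * τ y := by
    rw [map_mul, hcomm]
    rcases hhy with h1 | h1
    · rw [h1]
    · rw [h1, map_neg]
      ring
  have hhu' : h (y * τ y) = -(y * τ y) := by
    rcases mul_self_eq_mul_self_iff.1 (hu2.trans hv2.symm) with h1 | h1
    · rw [h1, hhv]
    · rw [h1, map_neg, hhv]
  have h0 : y * τ y = 0 := by
    have h1 : y * τ y = -(y * τ y) := hhu.symm.trans hhu'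
    have h2 : (2 : F) * (y * τ y) = 0 := by linear_combination h1
    exact (mul_eq_zero.1 h2).resolve_left two_ne_zero
  rw [h0, mul_zero] at hu2
  exact two_ne_zero hu2.symm

end Pool.Agent.Lib.MP_706923_co
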