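import Pool.Agent.Lib.MP_706923_co.Spec2

/-!
MP_706923_co, P6: lower bound for the sum of the weights of the sets disjoint from `E`
-/

set_option autoImplicit false

namespace Pool.Agent.Lib.MP_706923_co

open scoped BigOperators

namespace PhiAux

/-- the weight of `D` -/
noncomputable def wt (D : Finset ℕ) : ℝ := ∏ p ∈ D, (1 / ((p : ℝ) - 1))

/-- the right side -/
noncomputable def F (E : Finset ℕ) (y : ℕ) : ℝ :=
  ∑ D ∈ (PS y).filter (fun D => Disjoint D E), wt D

lemma mem_PS {y : ℕ} {D : Finset ℕ} :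
    D ∈ PS y ↔ (∀ p ∈ D, (1 ≤ p ∧ p ≤ y) ∧ p.Prime) ∧ ∏ q ∈ D, q ≤ y := by
  unfold PS
  rw [Finset.mem_filter, Finset.mem_powerset]
  simp only [Finset.subset_iff, Finset.mem_filter, Finset.mem_Icc]

lemma fac_nonneg {p : ℕ} (hp : p.Prime) : 0 ≤ 1 / ((p : ℝ) - 1) := by
  have h : (2 : ℝ) ≤ p := by exact_mod_cast hp.two_le
  exact div_nonneg zero_le_one (by linarith)

lemma wt_nonneg {y : ℕ} {D : Finset ℕ} (h : D ∈ PS y) : 0 ≤ wt D :=
  Finset.prod_nonneg fun p hp => fac_nonneg ((mem_PS.1 h).1 p hp).2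

lemma base (y : ℕ) (hy : 1 ≤ y) : Real.log y / 2 ≤ F ∅ y := by
  classical
  set Sq := (Finset.Icc 1 y).filter Squarefree with hSq
  have h1 : Real.log y ≤ ∑ n ∈ Finset.Icc 1 y, ((n : ℝ))⁻¹ := by
    have h2 := log_add_one_le_harmonic y
    rw [harmonic_eq_sum_Icc] at h2
    push_cast at h2
    refine le_trans (Real.log_le_log (by exact_mod_cast hy) ?_) h2
    linarith
  -- decomposition `n = b ^ 2 * m`
  have hdec : ∀ n : ℕ, ∃ x : ℕ × ℕ, x.1 ^ 2 * x.2 = n ∧ Squarefree x.2 := fun n => by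
    obtain ⟨a, b, h, ha⟩ := Nat.sq_mul_squarefree n
    exact ⟨(b, a), h, ha⟩
  choose g hg1 hg2 using hdec
  have h2 : ∑ n ∈ Finset.Icc 1 y, ((n : ℝ))⁻¹
      ≤ ∑ x ∈ Finset.Icc 1 y ×ˢ Sq, (((x.1 : ℝ) ^ 2)⁻¹ * ((x.2 : ℝ))⁻¹) := by
    have hinj : Set.InjOn g (Finset.Icc 1 y : Finset ℕ) := by
      intro a _ b _ hab
      rw [← hg1 a, ← hg1 b, hab]
    have e1 : ∑ n ∈ Finset.Icc 1 y, ((n : ℝ))⁻¹
        = ∑ x ∈ (Finset.Icc 1 y).image g, (((x.1 : ℝ) ^ 2)⁻¹ * ((x.2 : ℝ))⁻¹) := by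
      rw [Finset.sum_image hinj]
      refine Finset.sum_congr rfl fun n _ => ?_
      rw [← mul_inv]
      congr 1
      conv_lhs => rw [← hg1 n]
      push_cast
      rfl
    rw [e1]
    refine Finset.sum_le_sum_of_subset_of_nonneg ?_ fun x _ _ => by positivity
    intro x hx
    rw [Finset.mem_image] at hx
    obtain ⟨n, hn, rfl⟩ := hx
    rw [Finset.mem_Icc] at hn
    have e2 := hg1 n
    have hpos : 0 < (g n).1 ^ 2 * (g n).2 := by rw [e2]; omega
    have hb : 0 < (g n).1 ^ 2 := Nat.pos_of_mul_pos_right hpos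
    have hm : 0 < (g n).2 := Nat.pos_of_mul_pos_left hpos
    have hb1 : 0 < (g n).1 := Nat.pos_of_ne_zero fun h => by
      rw [h] at hb
      simp at hb
    have hle1 : (g n).1 ≤ n := by
      calc (g n).1 ≤ (g n).1 ^ 2 := Nat.le_self_pow (by norm_num) _
        _ ≤ (g n).1 ^ 2 * (g n).2 := Nat.le_mul_of_pos_right _ hm
        _ = n := e2
    have hle2 : (g n).2 ≤ n := by
      calc (g n).2 ≤ (g n).1 ^ 2 * (g n).2 := Nat.le_mul_of_pos_left _ hb
        _ = n := e2
    rw [Finset.mem_product, Finset.mem_Icc, hSq, Finset.mem_filter, Finset.mem_Icc]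
    exact ⟨⟨hb1, hle1.trans hn.2⟩, ⟨hm, hle2.trans hn.2⟩, hg2 n⟩
  have h3 : ∑ x ∈ Finset.Icc 1 y ×ˢ Sq, (((x.1 : ℝ) ^ 2)⁻¹ * ((x.2 : ℝ))⁻¹)
      = (∑ b ∈ Finset.Icc 1 y, ((b : ℝ) ^ 2)⁻¹) * ∑ m ∈ Sq, ((m : ℝ))⁻¹ := by
    rw [Finset.sum_product, Finset.sum_mul_sum]
  have h4 : ∑ b ∈ Finset.Icc 1 y, ((b : ℝ) ^ 2)⁻¹ ≤ 2 := by
    have e1 : Finset.Icc 1 y = Finset.Ioo 0 (y + 1) := by
      ext b
      rw [Finset.mem_Icc, Finset.mem_Ioo]
      omega
    rw [e1]
    have e2 := sum_Ioo_inv_sq_le (α := ℝ) 0 (y + 1)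
    simpa using e2
  have h5 : ∑ m ∈ Sq, ((m : ℝ))⁻¹ ≤ F ∅ y := by
    have hinj : Set.InjOn Nat.primeFactors (Sq : Finset ℕ) := by
      intro a ha b hb hab
      have ha1 : Squarefree a := (Finset.mem_filter.1 ha).2
      have hb1 : Squarefree b := (Finset.mem_filter.1 hb).2
      rw [← Nat.prod_primeFactors_of_squarefree ha1, ← Nat.prod_primeFactors_of_squarefree hb1,
        hab]
    have hle : ∀ m ∈ Sq, ((m : ℝ))⁻¹ ≤ wt m.primeFactors := by
      intro m hm
      have hm1 : Squarefree m := (Finset.mem_filter.1 hm).2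
      conv_lhs => rw [← Nat.prod_primeFactors_of_squarefree hm1]
      unfold wt
      push_cast
      rw [← Finset.prod_inv_distrib]
      refine Finset.prod_le_prod (fun p _ => by positivity) fun p hp => ?_
      have hp1 : (2 : ℝ) ≤ p := by exact_mod_cast (Nat.prime_of_mem_primeFactors hp).two_le
      rw [one_div]
      exact inv_anti₀ (by linarith) (by linarith)
    refine (Finset.sum_le_sum hle).trans ?_
    rw [← Finset.sum_image (f := wt) hinj]
    unfold F
    refine Finset.sum_le_sum_of_subset_of_nonneg ?_ fun D hD _ =>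
      wt_nonneg (Finset.mem_filter.1 hD).1
    intro D hD
    rw [Finset.mem_image] at hD
    obtain ⟨m, hm, rfl⟩ := hD
    rw [hSq, Finset.mem_filter, Finset.mem_Icc] at hm
    rw [Finset.mem_filter, mem_PS]
    refine ⟨⟨fun p hp => ?_, ?_⟩, Finset.disjoint_empty_right _⟩
    · have hpp := Nat.prime_of_mem_primeFactors hp
      exact ⟨⟨hpp.one_lt.le, (Nat.le_of_mem_primeFactors hp).trans hm.1.2⟩, hpp⟩
    · rw [Nat.prod_primeFactors_of_squarefree hm.2]
      exact hm.1.2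
  have h6 : 0 ≤ ∑ m ∈ Sq, ((m : ℝ))⁻¹ := Finset.sum_nonneg fun m _ => by positivity
  have h7 : Real.log y ≤ 2 * ∑ m ∈ Sq, ((m : ℝ))⁻¹ := by
    refine (h1.trans h2).trans ?_
    rw [h3]
    exact mul_le_mul_of_nonneg_right h4 h6
  linarith

lemma step (E : Finset ℕ) (y q : ℕ) (hq : q.Prime) :
    F E y ≤ (1 + 1 / ((q : ℝ) - 1)) * F (insert q E) y := by
  classical
  have hsplit : F E y = ∑ D ∈ (PS y).filter (fun D => Disjoint D (insert q E)), wt D
      + ∑ D ∈ (PS y).filter (fun D => Disjoint D E ∧ q ∈ D), wt D := by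
    unfold F
    rw [← Finset.sum_filter_add_sum_filter_not ((PS y).filter (fun D => Disjoint D E))
      (fun D => q ∉ D), Finset.filter_filter, Finset.filter_filter]
    congr 1
    · refine Finset.sum_congr (Finset.filter_congr fun D _ => ?_) fun _ _ => rfl
      rw [Finset.disjoint_insert_right]
      tauto
    · refine Finset.sum_congr (Finset.filter_congr fun D _ => ?_) fun _ _ => rfl
      rw [not_not]
  have hsec : ∑ D ∈ (PS y).filter (fun D => Disjoint D E ∧ q ∈ D), wt D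
      ≤ 1 / ((q : ℝ) - 1) * F (insert q E) y := by
    unfold F
    rw [Finset.mul_sum]
    have hinj : Set.InjOn (fun D : Finset ℕ => D.erase q)
        ((PS y).filter (fun D => Disjoint D E ∧ q ∈ D) : Finset (Finset ℕ)) := by
      intro D hD D' hD' h
      have h1 : q ∈ D := (Finset.mem_filter.1 hD).2.2
      have h2 : q ∈ D' := (Finset.mem_filter.1 hD').2.2
      have h3 : D.erase q = D'.erase q := h
      rw [← Finset.insert_erase h1, ← Finset.insert_erase h2, h3]
    have e1 : ∑ D ∈ (PS y).filter (fun D => Disjoint D E ∧ q ∈ D), wt D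
        = ∑ D ∈ ((PS y).filter (fun D => Disjoint D E ∧ q ∈ D)).image (fun D => D.erase q),
          1 / ((q : ℝ) - 1) * wt D := by
      rw [Finset.sum_image hinj]
      refine Finset.sum_congr rfl fun D hD => ?_
      have h1 : q ∈ D := (Finset.mem_filter.1 hD).2.2
      unfold wt
      exact (Finset.mul_prod_erase D (fun p : ℕ => 1 / ((p : ℝ) - 1)) h1).symm
    rw [e1]
    refine Finset.sum_le_sum_of_subset_of_nonneg ?_ fun D hD _ =>
      mul_nonneg (fac_nonneg hq) (wt_nonneg (Finset.mem_filter.1 hD).1)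
    intro D hD
    rw [Finset.mem_image] at hD
    obtain ⟨D, hD, rfl⟩ := hD
    rw [Finset.mem_filter, mem_PS] at hD
    obtain ⟨⟨hD1, hD2⟩, hD3, hD4⟩ := hD
    rw [Finset.mem_filter, mem_PS]
    refine ⟨⟨fun p hp => hD1 p (Finset.mem_of_mem_erase hp), ?_⟩, ?_⟩
    · refine le_trans ?_ hD2
      rw [← Finset.mul_prod_erase D (fun p => p) hD4]
      exact Nat.le_mul_of_pos_left _ hq.pos
    · rw [Finset.disjoint_insert_right]
      exact ⟨Finset.notMem_erase q D, Finset.disjoint_of_subset_left (Finset.erase_subset q D) hD3⟩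
  rw [hsplit, add_mul, one_mul]
  exact add_le_add (le_of_eq rfl) hsec

end PhiAux

open PhiAux

theorem phi : S_Phi := by
  classical
  intro E hE y hy
  have key : ∀ E : Finset ℕ, (∀ q ∈ E, q.Prime) →
      (∏ q ∈ E, (1 - 1 / (q : ℝ))) * F ∅ y ≤ F E y := by
    intro E
    induction E using Finset.induction_on with
    | empty => intro _; simp
    | insert q E hqE ih =>
      intro h
      have hq : q.Prime := h q (Finset.mem_insert_self q E)
      have hq2 : (2 : ℝ) ≤ q := by exact_mod_cast hq.two_le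
      have h1 := ih fun p hp => h p (Finset.mem_insert_of_mem hp)
      have h2 := step E y q hq
      rw [Finset.prod_insert hqE]
      have h3 : 0 ≤ 1 - 1 / (q : ℝ) := by
        rw [sub_nonneg, div_le_one (by linarith)]
        linarith
      have h4 : (1 - 1 / (q : ℝ)) * (1 + 1 / ((q : ℝ) - 1)) = 1 := by
        have : (q : ℝ) ≠ 0 := by linarith
        have : (q : ℝ) - 1 ≠ 0 := by linarith
        field_simp
        ring
      calc (1 - 1 / (q : ℝ)) * (∏ q ∈ E, (1 - 1 / (q : ℝ))) * F ∅ y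
          = (1 - 1 / (q : ℝ)) * ((∏ q ∈ E, (1 - 1 / (q : ℝ))) * F ∅ y) := by ring
        _ ≤ (1 - 1 / (q : ℝ)) * F E y := mul_le_mul_of_nonneg_left h1 h3
        _ ≤ (1 - 1 / (q : ℝ)) * ((1 + 1 / ((q : ℝ) - 1)) * F (insert q E) y) :=
          mul_le_mul_of_nonneg_left h2 h3
        _ = F (insert q E) y := by rw [← mul_assoc, h4, one_mul]
  have h0 : 0 ≤ ∏ q ∈ E, (1 - 1 / (q : ℝ)) := by
    refine Finset.prod_nonneg fun q hq => ?_
    have hq2 : (2 : ℝ) ≤ q := by exact_mod_cast (hE q hq).two_le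
    rw [sub_nonneg, div_le_one (by linarith)]
    linarith
  exact (mul_le_mul_of_nonneg_left (base y hy) h0).trans (key E hE)

end Pool.Agent.Lib.MP_706923_co
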