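import Mathlib
import Pool.Agent.Lib.MP_706923_co.Count

/-!
MP_706923_co: the bound for prime power orders from the sieve bound.
-/

set_option autoImplicit false

namespace Pool.Agent.Lib.MP_706923_co

open scoped BigOperators

lemma primePow_cases {n : ℕ} (h : IsPrimePow n) :
    n.Prime ∨ (∃ s, n = s ^ 2) ∨ ∃ s, n = s ^ 2 * s.minFac := by
  rw [isPrimePow_nat_iff] at h
  obtain ⟨p, a, hp, ha, rfl⟩ := h
  rcases Nat.even_or_odd' a with ⟨b, hb | hb⟩
  · right; left
    exact ⟨p ^ b, by rw [← pow_mul, hb, mul_comm]⟩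
  · rcases Nat.eq_zero_or_pos b with hb0 | hb0
    · left
      rw [hb, hb0]; simpa using hp
    · right; right
      refine ⟨p ^ b, ?_⟩
      rw [hp.pow_minFac (by omega), ← pow_mul, hb, mul_comm b 2, pow_succ]

lemma count_split (l x R : ℕ) :
    ∃ S : Finset ℕ, (∀ n ∈ S, n ≤ x ∧ n.Prime ∧ R ^ 2 < n ∧ IsK l (n + l)) ∧
      Nat.card {n : ℕ // n ≤ x ∧ IsPrimePow n ∧ IsK l (n + l)}
        ≤ S.card + (R ^ 2 + 1) + 2 * (Nat.sqrt x + 1) := by
  classical
  refine ⟨(Finset.range (x + 1)).filter (fun n => n.Prime ∧ R ^ 2 < n ∧ IsK l (n + l)), ?_, ?_⟩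
  · intro n hn
    rw [Finset.mem_filter, Finset.mem_range] at hn
    exact ⟨by omega, hn.2⟩
  · set S := (Finset.range (x + 1)).filter (fun n => n.Prime ∧ R ^ 2 < n ∧ IsK l (n + l)) with hSdef
    let U : Finset ℕ := ((S ∪ Finset.range (R ^ 2 + 1)) ∪
      (Finset.range (Nat.sqrt x + 1)).image (fun s => s ^ 2)) ∪
      (Finset.range (Nat.sqrt x + 1)).image (fun s => s ^ 2 * s.minFac)
    have hsub : ∀ n : ℕ, (n ≤ x ∧ IsPrimePow n ∧ IsK l (n + l)) → n ∈ U := by
      rintro n ⟨hnx, hpp, hK⟩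
      simp only [U, Finset.mem_union, Finset.mem_image, Finset.mem_range]
      rcases primePow_cases hpp with hp | ⟨s, hs⟩ | ⟨s, hs⟩
      · by_cases hR : R ^ 2 < n
        · left; left; left
          rw [hSdef, Finset.mem_filter, Finset.mem_range]
          exact ⟨by omega, hp, hR, hK⟩
        · left; left; right; omega
      · left; right
        refine ⟨s, ?_, hs.symm⟩
        have : s ≤ Nat.sqrt x := Nat.le_sqrt'.mpr (by omega)
        omega
      · right
        refine ⟨s, ?_, hs.symm⟩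
        have h1 : s ^ 2 ≤ x := by
          have h2 : 1 ≤ s.minFac := Nat.minFac_pos s
          nlinarith [Nat.zero_le (s ^ 2)]
        have : s ≤ Nat.sqrt x := Nat.le_sqrt'.mpr h1
        omega
    have hle : Nat.card {n : ℕ // n ≤ x ∧ IsPrimePow n ∧ IsK l (n + l)} ≤ U.card := by
      have h1 : Nat.card {n : ℕ // n ≤ x ∧ IsPrimePow n ∧ IsK l (n + l)} ≤ Nat.card U :=
        Nat.card_le_card_of_injective
          (fun n : {n : ℕ // n ≤ x ∧ IsPrimePow n ∧ IsK l (n + l)} => (⟨n.1, hsub n.1 n.2⟩ : U))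
          (fun a b h => Subtype.ext (congrArg (fun z : U => z.1) h))
      have h2 : Nat.card U = U.card := by simp
      rwa [h2] at h1
    refine le_trans hle ?_
    have h1 : U.card ≤ ((S.card + (Finset.range (R ^ 2 + 1)).card) +
        ((Finset.range (Nat.sqrt x + 1)).image (fun s => s ^ 2)).card) +
        ((Finset.range (Nat.sqrt x + 1)).image (fun s => s ^ 2 * s.minFac)).card := by
      refine le_trans (Finset.card_union_le _ _) (Nat.add_le_add_right ?_ _)
      refine le_trans (Finset.card_union_le _ _) (Nat.add_le_add_right ?_ _)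
      exact Finset.card_union_le _ _
    have h2 : ((Finset.range (Nat.sqrt x + 1)).image (fun s => s ^ 2)).card ≤ Nat.sqrt x + 1 := by
      refine le_trans Finset.card_image_le ?_
      simp
    have h3 : ((Finset.range (Nat.sqrt x + 1)).image (fun s => s ^ 2 * s.minFac)).card
        ≤ Nat.sqrt x + 1 := by
      refine le_trans Finset.card_image_le ?_
      simp
    rw [Finset.card_range] at h1
    omega

/-- **Prime power orders.** -/
theorem primeOrders (h1 : S_GoodClass) (h2 : S_TSum) (h3 : S_LLow) (l : ℕ) (hl : 2 ≤ l)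
    (hl16 : l ≠ 16) : ∃ δ C : ℝ, 0 < δ ∧ ∀ x : ℕ, 2 ≤ x →
      (Nat.card {n : ℕ // n ≤ x ∧ IsPrimePow n ∧ IsK l (n + l)} : ℝ)
        ≤ C * x / (Real.log x) ^ (1 + δ) := by
  classical
  obtain ⟨M, a, hM, ha, hgood⟩ := h1 l hl hl16
  obtain ⟨δ, y₀, hδ, hsum⟩ := h2 M a hM ha
  let T : ℕ → Prop := fun q => q.Prime ∧ (q : ZMod M) = a
  have hT : ∀ q, T q → Good l q := fun q hq => hgood q hq.1 hq.2
  set y₁ := max y₀ 2 with hy₁
  set X₁ : ℝ := ((y₁ + 1 : ℕ) : ℝ) ^ 4 with hX₁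
  set e : ℝ := 1 / (2 * (1 + δ)) with he
  have he0 : 0 < e := by positivity
  set C₂ : ℝ := (1 / e) ^ (1 + δ) with hC₂
  have hC₂0 : 0 < C₂ := by positivity
  set C₁ : ℝ := 120 * (8 : ℝ) ^ (1 + δ) with hC₁
  have hC₁0 : 0 < C₁ := by positivity
  have hX₁1 : 1 ≤ X₁ := by
    apply one_le_pow₀
    have : 1 ≤ y₁ + 1 := by omega
    exact_mod_cast this
  set C₃ : ℝ := 2 * (Real.log X₁) ^ (1 + δ) with hC₃
  have hC₃0 : 0 ≤ C₃ := by
    have := Real.log_nonneg hX₁1
    positivity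
  refine ⟨δ, C₁ + 6 * C₂ + C₃, hδ, fun x hx => ?_⟩
  have hxR : (2 : ℝ) ≤ x := by exact_mod_cast hx
  have hlogx : 0 < Real.log x := Real.log_pos (by linarith)
  have hpow : 0 < (Real.log x) ^ (1 + δ) := Real.rpow_pos_of_pos hlogx _
  rw [le_div_iff₀ hpow]
  set R := Nat.sqrt (Nat.sqrt x) with hR
  have hR4 : R ^ 4 ≤ x := by
    have h4 : R ^ 2 ≤ Nat.sqrt x := Nat.sqrt_le' _
    have h5 : (Nat.sqrt x) ^ 2 ≤ x := Nat.sqrt_le' _
    calc R ^ 4 = (R ^ 2) ^ 2 := by ring
      _ ≤ (Nat.sqrt x) ^ 2 := Nat.pow_le_pow_left h4 2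
      _ ≤ x := h5
  have hxR4 : x < (R + 1) ^ 4 := by
    have h4 : Nat.sqrt x < (R + 1) ^ 2 := Nat.lt_succ_sqrt' _
    have h5 : x < (Nat.sqrt x + 1) ^ 2 := Nat.lt_succ_sqrt' _
    calc x < (Nat.sqrt x + 1) ^ 2 := h5
      _ ≤ ((R + 1) ^ 2) ^ 2 := Nat.pow_le_pow_left (by omega) 2
      _ = (R + 1) ^ 4 := by ring
  by_cases hbig : y₁ ≤ R
  · -- large x
    have hR2 : 2 ≤ R := le_trans (le_max_right _ _) hbig
    have hRy : y₀ ≤ R := le_trans (le_max_left _ _) hbig
    obtain ⟨S, hS, hcard⟩ := count_split l x R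
    have hsv := sieve_bound h3 l T hT x R (by omega) hR4 S hS
    have hs := hsum R hRy
    have hRR : (2 : ℝ) ≤ R := by exact_mod_cast hR2
    have hlogR : 0 < Real.log R := Real.log_pos (by linarith)
    have hfil : (PS R).filter (fun D => ∀ q ∈ D, T q)
        = (PS R).filter (fun D => ∀ q : ℕ, q ∈ D → ((q : ℕ) : ZMod M) = a) := by
      apply Finset.filter_congr
      intro D hD
      constructor
      · intro h q hq; exact (h q hq).2
      · intro h q hq; exact ⟨((PS_mem hD).1 q hq).1, h q hq⟩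
    rw [hfil] at hsv
    have hS0 : (0 : ℝ) ≤ S.card := Nat.cast_nonneg _
    have h4 : (S.card : ℝ) * (Real.log R / 2 * (Real.log R) ^ δ) ≤ 60 * x := by
      refine le_trans ?_ hsv
      apply mul_le_mul_of_nonneg_left _ hS0
      exact mul_le_mul_of_nonneg_left hs (by positivity)
    have hlog8 : Real.log x ≤ 8 * Real.log R := by
      have h5 : (x : ℝ) ≤ (R : ℝ) ^ 8 := by
        have h6 : x ≤ R ^ 8 := by
          have h7 : R + 1 ≤ R ^ 2 := by nlinarith
          calc x ≤ (R + 1) ^ 4 := hxR4.le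
            _ ≤ (R ^ 2) ^ 4 := Nat.pow_le_pow_left h7 4
            _ = R ^ 8 := by ring
        exact_mod_cast h6
      have h8 := Real.log_le_log (by linarith) h5
      rw [Real.log_pow] at h8
      exact_mod_cast h8
    have hlogp : (Real.log x) ^ (1 + δ) ≤ (8 : ℝ) ^ (1 + δ) * (Real.log R * (Real.log R) ^ δ) := by
      have h5 : (Real.log x) ^ (1 + δ) ≤ (8 * Real.log R) ^ (1 + δ) :=
        Real.rpow_le_rpow hlogx.le hlog8 (by linarith)
      rw [Real.mul_rpow (by norm_num) hlogR.le] at h5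
      rw [Real.rpow_add hlogR, Real.rpow_one] at h5
      exact h5
    have h8pos : (0 : ℝ) < (8 : ℝ) ^ (1 + δ) := by positivity
    have hSb : (S.card : ℝ) * (Real.log x) ^ (1 + δ) ≤ C₁ * x := by
      calc (S.card : ℝ) * (Real.log x) ^ (1 + δ)
          ≤ (S.card : ℝ) * ((8 : ℝ) ^ (1 + δ) * (Real.log R * (Real.log R) ^ δ)) :=
            mul_le_mul_of_nonneg_left hlogp hS0
        _ = 2 * (8 : ℝ) ^ (1 + δ) * ((S.card : ℝ) * (Real.log R / 2 * (Real.log R) ^ δ)) := by ring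
        _ ≤ 2 * (8 : ℝ) ^ (1 + δ) * (60 * x) := mul_le_mul_of_nonneg_left h4 (by positivity)
        _ = C₁ * x := by rw [hC₁]; ring
    -- the square root terms
    have hsq : (Real.sqrt x) * (Real.log x) ^ (1 + δ) ≤ C₂ * x := by
      have h5 : Real.log x ≤ (x : ℝ) ^ e / e := Real.log_le_rpow_div (by linarith) he0
      have h6 : (Real.log x) ^ (1 + δ) ≤ ((x : ℝ) ^ e / e) ^ (1 + δ) :=
        Real.rpow_le_rpow hlogx.le h5 (by linarith)
      have h7 : ((x : ℝ) ^ e / e) ^ (1 + δ) = C₂ * Real.sqrt x := by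
        rw [div_eq_mul_one_div, Real.mul_rpow (by positivity) (by positivity), ← hC₂,
          ← Real.rpow_mul (by linarith), mul_comm]
        congr 1
        rw [Real.sqrt_eq_rpow]
        congr 1
        rw [he]
        have : (1 + δ) ≠ 0 := by positivity
        field_simp
      rw [h7] at h6
      calc (Real.sqrt x) * (Real.log x) ^ (1 + δ) ≤ Real.sqrt x * (C₂ * Real.sqrt x) :=
            mul_le_mul_of_nonneg_left h6 (Real.sqrt_nonneg _)
        _ = C₂ * (Real.sqrt x * Real.sqrt x) := by ring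
        _ = C₂ * x := by rw [Real.mul_self_sqrt (by linarith)]
    have hsqrtN : ((Nat.sqrt x : ℕ) : ℝ) ≤ Real.sqrt x := Real.nat_sqrt_le_real_sqrt
    have hsqrt1 : (1 : ℝ) ≤ Real.sqrt x := by
      rw [show (1 : ℝ) = Real.sqrt 1 by simp]
      exact Real.sqrt_le_sqrt (by linarith)
    have hR2s : R ^ 2 ≤ Nat.sqrt x := Nat.sqrt_le' _
    have hcardR : (Nat.card {n : ℕ // n ≤ x ∧ IsPrimePow n ∧ IsK l (n + l)} : ℝ)
        ≤ S.card + 6 * Real.sqrt x := by
      have h5 : Nat.card {n : ℕ // n ≤ x ∧ IsPrimePow n ∧ IsK l (n + l)}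
          ≤ S.card + (3 * Nat.sqrt x + 3) := by omega
      have h6 : (Nat.card {n : ℕ // n ≤ x ∧ IsPrimePow n ∧ IsK l (n + l)} : ℝ)
          ≤ S.card + (3 * (Nat.sqrt x : ℕ) + 3) := by exact_mod_cast h5
      linarith
    calc (Nat.card {n : ℕ // n ≤ x ∧ IsPrimePow n ∧ IsK l (n + l)} : ℝ) * (Real.log x) ^ (1 + δ)
        ≤ (S.card + 6 * Real.sqrt x) * (Real.log x) ^ (1 + δ) :=
          mul_le_mul_of_nonneg_right hcardR hpow.le
      _ = (S.card : ℝ) * (Real.log x) ^ (1 + δ) + 6 * (Real.sqrt x * (Real.log x) ^ (1 + δ)) := by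
          ring
      _ ≤ C₁ * x + 6 * (C₂ * x) := by linarith
      _ ≤ (C₁ + 6 * C₂ + C₃) * x := by nlinarith
  · -- small x
    have hxX : (x : ℝ) ≤ X₁ := by
      have h5 : x ≤ (y₁ + 1) ^ 4 := by
        calc x ≤ (R + 1) ^ 4 := hxR4.le
          _ ≤ (y₁ + 1) ^ 4 := Nat.pow_le_pow_left (by omega) 4
      rw [hX₁]
      exact_mod_cast h5
    have h5 : (Real.log x) ^ (1 + δ) ≤ (Real.log X₁) ^ (1 + δ) :=
      Real.rpow_le_rpow hlogx.le (Real.log_le_log (by linarith) hxX) (by linarith)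
    have h6 : (Nat.card {n : ℕ // n ≤ x ∧ IsPrimePow n ∧ IsK l (n + l)} : ℝ) ≤ 2 * x := by
      have h7 : Nat.card {n : ℕ // n ≤ x ∧ IsPrimePow n ∧ IsK l (n + l)} ≤ x + 1 := by
        have h8 : Nat.card (Fin (x + 1)) = x + 1 := by simp
        rw [← h8]
        exact Nat.card_le_card_of_injective
          (fun n : {n : ℕ // n ≤ x ∧ IsPrimePow n ∧ IsK l (n + l)} =>
            (⟨n.1, Nat.lt_succ_of_le n.2.1⟩ : Fin (x + 1)))
          (fun a b h => Subtype.ext (by simpa using h))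
      have h8 : (Nat.card {n : ℕ // n ≤ x ∧ IsPrimePow n ∧ IsK l (n + l)} : ℝ) ≤ x + 1 := by
        exact_mod_cast h7
      linarith
    calc (Nat.card {n : ℕ // n ≤ x ∧ IsPrimePow n ∧ IsK l (n + l)} : ℝ) * (Real.log x) ^ (1 + δ)
        ≤ (2 * x) * (Real.log X₁) ^ (1 + δ) := by
          apply mul_le_mul h6 h5 hpow.le (by linarith)
      _ = C₃ * x := by rw [hC₃]; ring
      _ ≤ (C₁ + 6 * C₂ + C₃) * x := by nlinarith

end Pool.Agent.Lib.MP_706923_co
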