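import Mathlib
import Pool.Agent.Lib.MP_706923_co.Spec2

/-!
MP_706923_co, removal of the exception lambda = 16 in the theorem on prime orders.

For lambda = 16 the root of x^2 - x + 16 is w^4 with w^2 - w + 2 = 0, so p = w^8 mod q; the prime
q = 1 mod 16 is good iff w is not a square mod q. This is not a congruence condition. We show by
the class number formula (Mathlib: the Dedekind zeta function has a simple pole at 1) that the primes
q = 1 mod 112 for which w is a square make up at most 1/96 (Dirichlet density), because they have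
96 prime ideals of norm q in K = Q(zeta_112, sqrt w), [K : Q] = 96, while all primes q = 1 mod 112 have
density 1/48.

Each statement has a complete proof in its docstring; all modules are independent.
-/

set_option autoImplicit false

namespace Pool.Agent.Lib.MP_706923_co

open scoped BigOperators NumberField

/-- R1 (`Crit16.lean`, `theorem crit16 : S_Crit16`).

PROOF. `w² = w - 2`, `ρ = w⁴ = 2 - 3w`, `w⁸ = -14 - 3w`, so `ρ² - ρ + 16 = 0` and `ρ - 16 = ρ² = w⁸`.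
`w ≠ 0`. With `j = (q-1)/16 ≥ 1`: `(w⁸)^j = w^((q-1)/2) = -1` (Euler's criterion, `w` is not a
square). Take `k = ρ.val`. `q` is odd, so `q ∤ 16`. -/
def S_Crit16 : Prop :=
  ∀ (q : ℕ) [Fact q.Prime] (w : ZMod q), q % 16 = 1 → w ^ 2 - w + 2 = 0 → ¬ IsSquare w → Good 16 q

/-- R2 (`NonSq.lean`, `theorem nonSq : S_NonSq`).

PROOF. Put `η = ζ^16+ζ^32+ζ^64` (`z = ζ^16` is a primitive 7th root of unity), `w = -η`,
`w² - w + 2 = 0` (`η² + η + 2 = 0` from `1+z+...+z^6 = 0`). Suppose `w = y²`. The Galois group of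
`F/ℚ` is abelian (`IsCyclotomicExtension.Rat.galEquivZMod` or `IsCyclotomicExtension.autEquivPow`,
`F/ℚ` is Galois). There is `τ` with `τ ζ = ζ⁻¹` (complex conjugation); `τ η = z⁻¹+z⁻²+z⁻⁴ = -1 - η`,
so `τ w = 1 - w`, `w * τ w = w - w² = 2`. Let `u = y * τ y`, so `u² = 2`. For `h` in the Galois group
with `h w = w`: `h y = ± y`, and `h (τ y) = τ (h y) = ± τ y` with the same sign, so `h u = u`.
Hence `u` is fixed by the subgroup fixing `ℚ(w)`, so `u ∈ ℚ(w)` (Galois correspondence,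
`IntermediateField.fixedField_fixingSubgroup`), `u = a + b w` with `a, b` rational. `u² = 2`:
`a² + 2ab w + b²(w - 2) = 2`, and `1, w` are linearly independent over `ℚ` (`w` is not rational:
discriminant -7), so `2ab + b² = 0` and `a² - 2b² = 2`. If `b = 0`: `a² = 2`. If `b = -2a`:
`a² - 8a² = 2`, impossible. Contradiction. -/
def S_NonSq : Prop :=
  ∀ (F : Type) [Field F] [NumberField F] [IsCyclotomicExtension {112} ℚ F] (ζ : F),
    IsPrimitiveRoot ζ 112 → ¬ IsSquare (-(ζ ^ 16 + ζ ^ 32 + ζ ^ 64))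

/-- R3 (`Ext.lean`, `theorem ext' : S_Ext`).

PROOF. `𝓞 K` is a finitely generated abelian group (`NumberField.RingOfIntegers.basis`), so
multiplying the denominators of a basis gives `N ≥ 1` with `N x ∈ S` for all `x ∈ 𝓞 K`. For a prime
`q ∤ N` let `ψ x = φ(N x) / N` (`N` is invertible in `ZMod q`). It is additive, `ψ 1 = φ(N)/N = 1`, and
multiplicative: `φ(N x) φ(N y) = φ(N² x y) = N φ(N x y)`. For `s ∈ S`: `ψ s = φ(N s)/N = φ s`. -/
def S_Ext : Prop :=
  ∀ (K : Type) [Field K] [NumberField K] (S : Subring (𝓞 K)),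
    (∀ x : 𝓞 K, ∃ n : ℕ, 0 < n ∧ (n : 𝓞 K) * x ∈ S) →
    ∃ N : ℕ, 0 < N ∧ ∀ q : ℕ, q.Prime → ¬ q ∣ N → ∀ φ : S →+* ZMod q,
      ∃ ψ : 𝓞 K →+* ZMod q, ∀ s : S, ψ s = φ s

/-- R4 (`Split.lean`, `theorem split (h1 : S_NonSq) (h2 : S_Ext) : S_Split`).

PROOF. `F = CyclotomicField 112 ℚ`, `ζ` a primitive 112th root of unity,
`w = -(ζ^16+ζ^32+ζ^64)`, not a square in `F` (`h1`), so `X² - w` is irreducible over `F` and
`K = AdjoinRoot (X² - C w)` is a field, `y` the root. `S` = the subring of `𝓞 K` generated by `ζ` and `y`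
(both integral), i.e. the range of `ev : ℤ[X][Y] → 𝓞 K` (or `MvPolynomial (Fin 2) ℤ`), `X ↦ ζ`, `Y ↦ y`.
Every element of `K` is `a + b y` with `a, b ∈ F`, a rational combination of `ζ^i`, so a
multiple is in `S`; take `N₀` from `h2` and `N = N₀`. Let `q > N` be prime, `q ≡ 1 mod 112`, all roots
of `x² - x + 2` in `ZMod q` squares. Let `z` be one of the `φ(112) = 48` primitive 112th roots of unity
in `ZMod q`; `w(z) = -(z^16+z^32+z^64)` is a root of `x² - x + 2`, hence `w(z) = v²`, `w(z) ≠ 0`,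
with 2 choices `v, -v`. For each of the 96 pairs `(z, v)`: if `P(ζ, y) = 0` then `P(z, v) = 0`: write
`P ≡ P₀(X) + P₁(X) Y mod (Y² - w(X))`; `P₀(ζ) + P₁(ζ) y = 0` gives `P₀(ζ) = P₁(ζ) = 0` and the
cyclotomic polynomial (`minpoly ℤ ζ`) divides `P₀, P₁` in `ℤ[X]`, so `P₀(z) = P₁(z) = 0`. So there is a
ring homomorphism `S → ZMod q` with `ζ ↦ z`, `y ↦ v`, and by `h2` a `ψ : 𝓞 K → ZMod q`. Its kernel `I`
is a prime ideal with `𝓞 K / I ≅ ZMod q` (surjective), so `absNorm I = q`. Different pairs give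
different kernels: `ζ - m ∈ I` for an integer `m ≡ z`, so `I` determines `z`, and similarly `v`.
(`{I // absNorm I = q}` is finite: `Ideal.finite_setOfPred_absNorm_eq`.) -/
def S_Split : Prop :=
  ∃ (K : Type) (_ : Field K) (_ : NumberField K) (N : ℕ),
    ∀ q : ℕ, q.Prime → q % 112 = 1 → N < q →
      (∀ w : ZMod q, w ^ 2 - w + 2 = 0 → IsSquare w) →
      96 ≤ Nat.card {I : Ideal (𝓞 K) // I.IsPrime ∧ Ideal.absNorm I = q}

/-- R5 (`Zeta.lean`, `theorem zeta : S_Zeta`).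

PROOF. `(s-1) ζ_K(s) → κ > 0` as `s → 1+` (`NumberField.tendsto_sub_one_mul_dedekindZeta_nhdsGT`), so
there is `s₁ ∈ (0,1]` with `0 ≠ ζ_K(1+s)` and `|s ζ_K(1+s)| ≤ κ + 1` for `0 < s ≤ s₁`; then the
defining series `∑ a_n n^(-1-s)` (`a_n` = number of ideals of norm `n`) is summable (a non summable
`tsum` is `0`) and its real value is at most `(κ+1)/s`. For `s ∈ (s₁, 1]` the left side is at most
`d ∑ n^(-1-s₁)`, a constant. Let `0 < s ≤ s₁` and let `B` be the finite set of prime ideals `I` with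
`absNorm I ∈ F`. The products of the subsets of `B` are distinct ideals (unique factorization), the
norm is multiplicative, so `∏_{I ∈ B} (1 + N(I)^(-1-s)) = ∑_{D ⊆ B} N(∏ D)^(-1-s) ≤ ζ_K(1+s)`, hence
`d ∑_{q ∈ F} log(1 + q^(-1-s)) ≤ log(1/s) + log(κ+1)`, and `log(1+x) ≥ x - x²`,
`∑_q q^(-2) ≤ 2`. -/
def S_Zeta : Prop :=
  ∀ (K : Type) [Field K] [NumberField K] (d : ℕ), ∃ C : ℝ, ∀ s : ℝ, 0 < s → s ≤ 1 →
    ∀ F : Finset ℕ, (∀ q ∈ F, q.Prime ∧
      d ≤ Nat.card {I : Ideal (𝓞 K) // I.IsPrime ∧ Ideal.absNorm I = q}) →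
    (d : ℝ) * ∑ q ∈ F, (q : ℝ) ^ (-(1 + s)) ≤ Real.log (1 / s) + C

/-- R6 (`Us2.lean`, `theorem us2 : S_Us2`; you may import `Us.lean`).

PROOF. The same as `us` in `Us.lean` (its lemma `low` gives
`φ⁻¹/2 * J - K ≤ ∑' n, P a J n`), with the constant kept: `δ = φ⁻¹ / (2 log 2) ≥ 0.7 φ⁻¹` since
`log 2 ≤ 0.6932` (`Real.log_two_lt_d9`). -/
def S_Us2 : Prop :=
  ∀ (M : ℕ) (a : ZMod M), 0 < M → IsUnit a → ∃ C : ℝ, ∀ s : ℝ, 0 < s → s ≤ 1 →
    ∃ X : ℕ, (7 / 10 : ℝ) / M.totient * Real.log (1 / s) - C ≤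
      ∑ q ∈ (Finset.range X).filter (fun q : ℕ => q.Prime ∧ ((q : ℕ) : ZMod M) = a),
        (q : ℝ) ^ (-(1 + s))

/-- R7 (`TSum2.lean`, `theorem tsum2 : S_TSum2`; you may import `TSum.lean`).

PROOF. The same as `tsum` in `TSum.lean` for an arbitrary set `T` of primes (its lemma `core` is
already for an arbitrary finite set of primes). -/
def S_TSum2 : Prop :=
  ∀ (T : ℕ → Prop) [DecidablePred T], (∀ q, T q → q.Prime) →
    (∃ δ C : ℝ, 0 < δ ∧ ∀ s : ℝ, 0 < s → s ≤ 1 → ∃ X : ℕ, δ * Real.log (1 / s) - C ≤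
      ∑ q ∈ (Finset.range X).filter T, (q : ℝ) ^ (-(1 + s))) →
    ∃ (δ : ℝ) (y₀ : ℕ), 0 < δ ∧ ∀ y : ℕ, y₀ ≤ y →
      (Real.log y) ^ δ ≤ ∑ D ∈ (PS y).filter (fun D => ∀ q ∈ D, T q), ∏ q ∈ D, (1 / (q : ℝ))

end Pool.Agent.Lib.MP_706923_co
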