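import Mathlib
import Pool.Agent.Lib.MP_706923_co.PrimeOrd
import Pool.Agent.Lib.MP_706923_co.Spec3

/-!
MP_706923_co: the bound for prime power orders for an arbitrary set of good primes, and the case
`l = 16`.
-/

set_option autoImplicit false

namespace Pool.Agent.Lib.MP_706923_co

open scoped BigOperators NumberField

/-- **Prime power orders**, from a set of good primes. -/
theorem bound_of (h3 : S_LLow) (l : ℕ) (T : ℕ → Prop) [DecidablePred T]
    (hT : ∀ q, T q → Good l q)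
    (h2 : ∃ (δ : ℝ) (y₀ : ℕ), 0 < δ ∧ ∀ y : ℕ, y₀ ≤ y →
      (Real.log y) ^ δ ≤ ∑ D ∈ (PS y).filter (fun D => ∀ q ∈ D, T q), ∏ q ∈ D, (1 / (q : ℝ))) :
    ∃ δ C : ℝ, 0 < δ ∧ ∀ x : ℕ, 2 ≤ x →
      (Nat.card {n : ℕ // n ≤ x ∧ IsPrimePow n ∧ IsK l (n + l)} : ℝ)
        ≤ C * x / (Real.log x) ^ (1 + δ) := by
  obtain ⟨δ, y₀, hδ, hsum⟩ := h2
  set y₁ := max y₀ 2 with hy₁
  set X₁ : ℝ := ((y₁ + 1 : ℕ) : ℝ) ^ 4 with hX₁
  set e : ℝ := 1 / (2 * (1 + δ)) with he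
  have he0 : 0 < e := by positivity
  set C₂ : ℝ := (1 / e) ^ (1 + δ) with hC₂
  have hC₂0 : 0 < C₂ := by positivity
  set C₁ : ℝ := 120 * (8 : ℝ) ^ (1 + δ) with hC₁
  have hC₁0 : 0 < C₁ := by positivity
  have hX₁1 : 1 ≤ X₁ := by
    apply one_le_pow₀
    have : 1 ≤ y₁ + 1 := by omega
    exact_mod_cast this
  set C₃ : ℝ := 2 * (Real.log X₁) ^ (1 + δ) with hC₃
  have hC₃0 : 0 ≤ C₃ := by
    have := Real.log_nonneg hX₁1
    positivity
  refine ⟨δ, C₁ + 6 * C₂ + C₃, hδ, fun x hx => ?_⟩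
  have hxR : (2 : ℝ) ≤ x := by exact_mod_cast hx
  have hlogx : 0 < Real.log x := Real.log_pos (by linarith)
  have hpow : 0 < (Real.log x) ^ (1 + δ) := Real.rpow_pos_of_pos hlogx _
  rw [le_div_iff₀ hpow]
  set R := Nat.sqrt (Nat.sqrt x) with hR
  have hR4 : R ^ 4 ≤ x := by
    have h4 : R ^ 2 ≤ Nat.sqrt x := Nat.sqrt_le' _
    have h5 : (Nat.sqrt x) ^ 2 ≤ x := Nat.sqrt_le' _
    calc R ^ 4 = (R ^ 2) ^ 2 := by ring
      _ ≤ (Nat.sqrt x) ^ 2 := Nat.pow_le_pow_left h4 2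
      _ ≤ x := h5
  have hxR4 : x < (R + 1) ^ 4 := by
    have h4 : Nat.sqrt x < (R + 1) ^ 2 := Nat.lt_succ_sqrt' _
    have h5 : x < (Nat.sqrt x + 1) ^ 2 := Nat.lt_succ_sqrt' _
    calc x < (Nat.sqrt x + 1) ^ 2 := h5
      _ ≤ ((R + 1) ^ 2) ^ 2 := Nat.pow_le_pow_left (by omega) 2
      _ = (R + 1) ^ 4 := by ring
  by_cases hbig : y₁ ≤ R
  · -- large x
    have hR2 : 2 ≤ R := le_trans (le_max_right _ _) hbig
    have hRy : y₀ ≤ R := le_trans (le_max_left _ _) hbig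
    obtain ⟨S, hS, hcard⟩ := count_split l x R
    have hsv := sieve_bound h3 l T hT x R (by omega) hR4 S hS
    have hs := hsum R hRy
    have hRR : (2 : ℝ) ≤ R := by exact_mod_cast hR2
    have hlogR : 0 < Real.log R := Real.log_pos (by linarith)
    have hS0 : (0 : ℝ) ≤ S.card := Nat.cast_nonneg _
    have h4 : (S.card : ℝ) * (Real.log R / 2 * (Real.log R) ^ δ) ≤ 60 * x := by
      refine le_trans ?_ hsv
      apply mul_le_mul_of_nonneg_left _ hS0
      exact mul_le_mul_of_nonneg_left hs (by positivity)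
    have hlog8 : Real.log x ≤ 8 * Real.log R := by
      have h5 : (x : ℝ) ≤ (R : ℝ) ^ 8 := by
        have h6 : x ≤ R ^ 8 := by
          have h7 : R + 1 ≤ R ^ 2 := by nlinarith
          calc x ≤ (R + 1) ^ 4 := hxR4.le
            _ ≤ (R ^ 2) ^ 4 := Nat.pow_le_pow_left h7 4
            _ = R ^ 8 := by ring
        exact_mod_cast h6
      have h8 := Real.log_le_log (by linarith) h5
      rw [Real.log_pow] at h8
      exact_mod_cast h8
    have hlogp : (Real.log x) ^ (1 + δ) ≤ (8 : ℝ) ^ (1 + δ) * (Real.log R * (Real.log R) ^ δ) := by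
      have h5 : (Real.log x) ^ (1 + δ) ≤ (8 * Real.log R) ^ (1 + δ) :=
        Real.rpow_le_rpow hlogx.le hlog8 (by linarith)
      rw [Real.mul_rpow (by norm_num) hlogR.le] at h5
      rw [Real.rpow_add hlogR, Real.rpow_one] at h5
      exact h5
    have h8pos : (0 : ℝ) < (8 : ℝ) ^ (1 + δ) := by positivity
    have hSb : (S.card : ℝ) * (Real.log x) ^ (1 + δ) ≤ C₁ * x := by
      calc (S.card : ℝ) * (Real.log x) ^ (1 + δ)
          ≤ (S.card : ℝ) * ((8 : ℝ) ^ (1 + δ) * (Real.log R * (Real.log R) ^ δ)) :=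
            mul_le_mul_of_nonneg_left hlogp hS0
        _ = 2 * (8 : ℝ) ^ (1 + δ) * ((S.card : ℝ) * (Real.log R / 2 * (Real.log R) ^ δ)) := by ring
        _ ≤ 2 * (8 : ℝ) ^ (1 + δ) * (60 * x) := mul_le_mul_of_nonneg_left h4 (by positivity)
        _ = C₁ * x := by rw [hC₁]; ring
    -- the square root terms
    have hsq : (Real.sqrt x) * (Real.log x) ^ (1 + δ) ≤ C₂ * x := by
      have h5 : Real.log x ≤ (x : ℝ) ^ e / e := Real.log_le_rpow_div (by linarith) he0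
      have h6 : (Real.log x) ^ (1 + δ) ≤ ((x : ℝ) ^ e / e) ^ (1 + δ) :=
        Real.rpow_le_rpow hlogx.le h5 (by linarith)
      have h7 : ((x : ℝ) ^ e / e) ^ (1 + δ) = C₂ * Real.sqrt x := by
        rw [div_eq_mul_one_div, Real.mul_rpow (by positivity) (by positivity), ← hC₂,
          ← Real.rpow_mul (by linarith), mul_comm]
        congr 1
        rw [Real.sqrt_eq_rpow]
        congr 1
        rw [he]
        have : (1 + δ) ≠ 0 := by positivity
        field_simp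
      rw [h7] at h6
      calc (Real.sqrt x) * (Real.log x) ^ (1 + δ) ≤ Real.sqrt x * (C₂ * Real.sqrt x) :=
            mul_le_mul_of_nonneg_left h6 (Real.sqrt_nonneg _)
        _ = C₂ * (Real.sqrt x * Real.sqrt x) := by ring
        _ = C₂ * x := by rw [Real.mul_self_sqrt (by linarith)]
    have hsqrtN : ((Nat.sqrt x : ℕ) : ℝ) ≤ Real.sqrt x := Real.nat_sqrt_le_real_sqrt
    have hsqrt1 : (1 : ℝ) ≤ Real.sqrt x := by
      rw [show (1 : ℝ) = Real.sqrt 1 by simp]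
      exact Real.sqrt_le_sqrt (by linarith)
    have hR2s : R ^ 2 ≤ Nat.sqrt x := Nat.sqrt_le' _
    have hcardR : (Nat.card {n : ℕ // n ≤ x ∧ IsPrimePow n ∧ IsK l (n + l)} : ℝ)
        ≤ S.card + 6 * Real.sqrt x := by
      have h5 : Nat.card {n : ℕ // n ≤ x ∧ IsPrimePow n ∧ IsK l (n + l)}
          ≤ S.card + (3 * Nat.sqrt x + 3) := by omega
      have h6 : (Nat.card {n : ℕ // n ≤ x ∧ IsPrimePow n ∧ IsK l (n + l)} : ℝ)
          ≤ S.card + (3 * (Nat.sqrt x : ℕ) + 3) := by exact_mod_cast h5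
      linarith
    calc (Nat.card {n : ℕ // n ≤ x ∧ IsPrimePow n ∧ IsK l (n + l)} : ℝ) * (Real.log x) ^ (1 + δ)
        ≤ (S.card + 6 * Real.sqrt x) * (Real.log x) ^ (1 + δ) :=
          mul_le_mul_of_nonneg_right hcardR hpow.le
      _ = (S.card : ℝ) * (Real.log x) ^ (1 + δ) + 6 * (Real.sqrt x * (Real.log x) ^ (1 + δ)) := by
          ring
      _ ≤ C₁ * x + 6 * (C₂ * x) := by linarith
      _ ≤ (C₁ + 6 * C₂ + C₃) * x := by nlinarith
  · -- small x
    have hxX : (x : ℝ) ≤ X₁ := by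
      have h5 : x ≤ (y₁ + 1) ^ 4 := by
        calc x ≤ (R + 1) ^ 4 := hxR4.le
          _ ≤ (y₁ + 1) ^ 4 := Nat.pow_le_pow_left (by omega) 4
      rw [hX₁]
      exact_mod_cast h5
    have h5 : (Real.log x) ^ (1 + δ) ≤ (Real.log X₁) ^ (1 + δ) :=
      Real.rpow_le_rpow hlogx.le (Real.log_le_log (by linarith) hxX) (by linarith)
    have h6 : (Nat.card {n : ℕ // n ≤ x ∧ IsPrimePow n ∧ IsK l (n + l)} : ℝ) ≤ 2 * x := by
      have h7 : Nat.card {n : ℕ // n ≤ x ∧ IsPrimePow n ∧ IsK l (n + l)} ≤ x + 1 := by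
        have h8 : Nat.card (Fin (x + 1)) = x + 1 := by simp
        rw [← h8]
        exact Nat.card_le_card_of_injective
          (fun n : {n : ℕ // n ≤ x ∧ IsPrimePow n ∧ IsK l (n + l)} =>
            (⟨n.1, Nat.lt_succ_of_le n.2.1⟩ : Fin (x + 1)))
          (fun a b h => Subtype.ext (by simpa using h))
      have h8 : (Nat.card {n : ℕ // n ≤ x ∧ IsPrimePow n ∧ IsK l (n + l)} : ℝ) ≤ x + 1 := by
        exact_mod_cast h7
      linarith
    calc (Nat.card {n : ℕ // n ≤ x ∧ IsPrimePow n ∧ IsK l (n + l)} : ℝ) * (Real.log x) ^ (1 + δ)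
        ≤ (2 * x) * (Real.log X₁) ^ (1 + δ) := by
          apply mul_le_mul h6 h5 hpow.le (by linarith)
      _ = C₃ * x := by rw [hC₃]; ring
      _ ≤ (C₁ + 6 * C₂ + C₃) * x := by nlinarith

/-- The good primes for `l = 16`. -/
def T16 (q : ℕ) : Prop :=
  q.Prime ∧ ((q : ℕ) : ZMod 112) = 1 ∧ ∃ w : ZMod q, w ^ 2 - w + 2 = 0 ∧ ¬ IsSquare w

lemma mod112 {q : ℕ} (h : ((q : ℕ) : ZMod 112) = 1) : q % 112 = 1 := by
  have h1 : ((q : ℕ) : ZMod 112) = ((1 : ℕ) : ZMod 112) := by rw [h]; simp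
  rw [ZMod.natCast_eq_natCast_iff] at h1
  exact h1

lemma T16_good (h : S_Crit16) (q : ℕ) (hq : T16 q) : Good 16 q := by
  obtain ⟨hp, h1, w, hw, hns⟩ := hq
  haveI : Fact q.Prime := ⟨hp⟩
  have := mod112 h1
  exact h q w (by omega) hw hns

lemma T16_sum (hs : S_Split) (hz : S_Zeta) (hu : S_Us2) :
    ∃ δ C : ℝ, 0 < δ ∧ ∀ s : ℝ, 0 < s → s ≤ 1 → ∃ X : ℕ, δ * Real.log (1 / s) - C ≤
      open Classical in ∑ q ∈ (Finset.range X).filter T16, (q : ℝ) ^ (-(1 + s)) := by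
  classical
  obtain ⟨K, i1, i2, N, hN⟩ := hs
  obtain ⟨C₂, hC₂⟩ := hz K 96
  obtain ⟨C₁, hC₁⟩ := hu 112 1 (by norm_num) isUnit_one
  refine ⟨1 / 240, C₁ + C₂ / 96 + (N + 1), by norm_num, fun s hs0 hs1 => ?_⟩
  obtain ⟨X, hX⟩ := hC₁ s hs0 hs1
  refine ⟨X, ?_⟩
  have htot : ((112 : ℕ).totient : ℝ) = 48 := by
    have : (112 : ℕ).totient = 48 := by decide +kernel
    rw [this]; norm_num
  rw [htot] at hX
  set A := (Finset.range X).filter (fun q : ℕ => q.Prime ∧ ((q : ℕ) : ZMod 112) = 1) with hA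
  set B := A.filter (fun q => N < q ∧ ∀ w : ZMod q, w ^ 2 - w + 2 = 0 → IsSquare w) with hB
  have hbad : (96 : ℝ) * ∑ q ∈ B, (q : ℝ) ^ (-(1 + s)) ≤ Real.log (1 / s) + C₂ := by
    have := hC₂ s hs0 hs1 B (by
      intro q hq
      rw [hB, Finset.mem_filter, hA, Finset.mem_filter] at hq
      exact ⟨hq.1.2.1, hN q hq.1.2.1 (mod112 hq.1.2.2) hq.2.1 hq.2.2⟩)
    exact_mod_cast this
  have hsub : A ⊆ ((Finset.range X).filter T16 ∪ Finset.range (N + 1)) ∪ B := by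
    intro q hq
    have hq' := hq
    rw [hA, Finset.mem_filter] at hq'
    rw [Finset.mem_union, Finset.mem_union]
    by_cases hqN : q ≤ N
    · left; right
      rw [Finset.mem_range]; omega
    · by_cases hall : ∀ w : ZMod q, w ^ 2 - w + 2 = 0 → IsSquare w
      · right
        rw [hB, Finset.mem_filter]
        exact ⟨hq, by omega, hall⟩
      · left; left
        push Not at hall
        obtain ⟨w, hw, hns⟩ := hall
        rw [Finset.mem_filter]
        exact ⟨hq'.1, hq'.2.1, hq'.2.2, w, hw, hns⟩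
  have hnn : ∀ q : ℕ, (0 : ℝ) ≤ (q : ℝ) ^ (-(1 + s)) := fun q => Real.rpow_nonneg (Nat.cast_nonneg q) _
  have h1 : ∑ q ∈ A, (q : ℝ) ^ (-(1 + s)) ≤
      (∑ q ∈ (Finset.range X).filter T16, (q : ℝ) ^ (-(1 + s)) + (N + 1))
        + ∑ q ∈ B, (q : ℝ) ^ (-(1 + s)) := by
    have hsm : ∑ q ∈ Finset.range (N + 1), (q : ℝ) ^ (-(1 + s)) ≤ N + 1 := by
      have h2 : ∀ q ∈ Finset.range (N + 1), (q : ℝ) ^ (-(1 + s)) ≤ 1 := by
        intro q _
        rcases Nat.eq_zero_or_pos q with h0 | hpos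
        · subst h0
          rw [Nat.cast_zero, Real.zero_rpow (by linarith)]
          norm_num
        · apply Real.rpow_le_one_of_one_le_of_nonpos
          · exact_mod_cast hpos
          · linarith
      have h3 := Finset.sum_le_card_nsmul _ _ _ h2
      simpa using h3
    have h4 : ∑ q ∈ A, (q : ℝ) ^ (-(1 + s)) ≤
        ∑ q ∈ ((Finset.range X).filter T16 ∪ Finset.range (N + 1)) ∪ B, (q : ℝ) ^ (-(1 + s)) :=
      Finset.sum_le_sum_of_subset_of_nonneg hsub (fun q _ _ => hnn q)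
    have h5 : ∑ q ∈ ((Finset.range X).filter T16 ∪ Finset.range (N + 1)) ∪ B, (q : ℝ) ^ (-(1 + s))
        ≤ ∑ q ∈ (Finset.range X).filter T16 ∪ Finset.range (N + 1), (q : ℝ) ^ (-(1 + s))
          + ∑ q ∈ B, (q : ℝ) ^ (-(1 + s)) := by
      rw [← Finset.sum_union_inter]
      have : 0 ≤ ∑ q ∈ ((Finset.range X).filter T16 ∪ Finset.range (N + 1)) ∩ B,
        (q : ℝ) ^ (-(1 + s)) := Finset.sum_nonneg (fun q _ => hnn q)
      linarith
    have h6 : ∑ q ∈ (Finset.range X).filter T16 ∪ Finset.range (N + 1), (q : ℝ) ^ (-(1 + s))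
        ≤ ∑ q ∈ (Finset.range X).filter T16, (q : ℝ) ^ (-(1 + s))
          + ∑ q ∈ Finset.range (N + 1), (q : ℝ) ^ (-(1 + s)) := by
      rw [← Finset.sum_union_inter]
      have : 0 ≤ ∑ q ∈ (Finset.range X).filter T16 ∩ Finset.range (N + 1),
        (q : ℝ) ^ (-(1 + s)) := Finset.sum_nonneg (fun q _ => hnn q)
      linarith
    linarith
  have h7 : (7 / 10 : ℝ) / 48 * Real.log (1 / s) - 1 / 96 * Real.log (1 / s)
      = 1 / 240 * Real.log (1 / s) := by ring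
  linarith

/-- The bound for every `l ≥ 2`. -/
theorem primeOrdersAll (h1 : S_GoodClass) (h2 : S_TSum2) (h3 : S_LLow) (h4 : S_Crit16)
    (h5 : S_Split) (h6 : S_Zeta) (h7 : S_Us2) (l : ℕ) (hl : 2 ≤ l) :
    ∃ δ C : ℝ, 0 < δ ∧ ∀ x : ℕ, 2 ≤ x →
      (Nat.card {n : ℕ // n ≤ x ∧ IsPrimePow n ∧ IsK l (n + l)} : ℝ)
        ≤ C * x / (Real.log x) ^ (1 + δ) := by
  classical
  by_cases h16 : l = 16
  · subst h16
    exact bound_of h3 16 T16 (T16_good h4)
      (h2 T16 (fun q hq => hq.1) (T16_sum h5 h6 h7))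
  · obtain ⟨M, a, hM, ha, hgood⟩ := h1 l hl h16
    refine bound_of h3 l (fun q => q.Prime ∧ ((q : ℕ) : ZMod M) = a)
      (fun q hq => hgood q hq.1 hq.2) (h2 _ (fun q hq => hq.1) ?_)
    obtain ⟨C, hC⟩ := h7 M a hM ha
    haveI : NeZero M := ⟨by omega⟩
    have htpos : (0 : ℝ) < M.totient := by exact_mod_cast Nat.totient_pos.mpr hM
    exact ⟨(7 / 10 : ℝ) / M.totient, C, by positivity, fun s hs0 hs1 => hC s hs0 hs1⟩

end Pool.Agent.Lib.MP_706923_co
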