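import Pool.Agent.Lib.MP_706923_co.Spec3

/-!
R4: 96 prime ideals of norm `q` in the ring of integers of `ℚ(ζ_112, √w)`.
-/

set_option autoImplicit false

namespace Pool.Agent.Lib.MP_706923_co

open scoped BigOperators NumberField

namespace SplitAux

open Polynomial

noncomputable def ev (T : Type) [CommRing T] (t u : T) : ℤ[X][X] →+* T :=
  eval₂RingHom (eval₂RingHom (Int.castRingHom T) t) u

lemma ev_X (T : Type) [CommRing T] (t u : T) : ev T t u X = u := by simp [ev]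

lemma ev_C (T : Type) [CommRing T] (t u : T) (r : ℤ[X]) :
    ev T t u (C r) = eval₂ (Int.castRingHom T) t r := by simp [ev]

lemma ev_map {T T' : Type} [CommRing T] [CommRing T'] (f : T →+* T') (t u : T) (P : ℤ[X][X]) :
    f (ev T t u P) = ev T' (f t) (f u) P := by
  have : f.comp (ev T t u) = ev T' (f t) (f u) := by
    apply Polynomial.ringHom_ext'
    · apply Polynomial.ringHom_ext'
      · exact RingHom.ext_int _ _
      · simp [ev]
    · simp [ev]
  rw [← this]; rfl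

/-- `W(X) = -(X^16 + X^32 + X^64)` -/
noncomputable def WW : ℤ[X] := -(X ^ 16 + X ^ 32 + X ^ 64)

lemma eval_WW (T : Type) [CommRing T] (t : T) :
    eval₂ (Int.castRingHom T) t WW = -(t ^ 16 + t ^ 32 + t ^ 64) := by
  simp [WW, eval₂_neg, eval₂_add, eval₂_pow]

lemma ev_M (T : Type) [CommRing T] (t u : T) :
    ev T t u (X ^ 2 - C WW) = u ^ 2 - -(t ^ 16 + t ^ 32 + t ^ 64) := by
  rw [map_sub, map_pow, ev_X, ev_C, eval_WW]

lemma lin (h1 : S_NonSq) (K : Type) [Field K] [NumberField K] (ζ y : K)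
    (hζ : IsPrimitiveRoot ζ 112) (hy : y ^ 2 = -(ζ ^ 16 + ζ ^ 32 + ζ ^ 64)) (a b : ℤ[X])
    (h : eval₂ (Int.castRingHom K) ζ b * y + eval₂ (Int.castRingHom K) ζ a = 0) :
    eval₂ (Int.castRingHom K) ζ b = 0 := by
  by_contra hb
  have hcyc := hζ.intermediateField_adjoin_isCyclotomicExtension ℚ
  set F := IntermediateField.adjoin ℚ {ζ} with hF
  have hmem : ζ ∈ F := IntermediateField.mem_adjoin_simple_self ℚ ζ
  have hev : ∀ r : ℤ[X], eval₂ (Int.castRingHom K) ζ r ∈ F := by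
    intro r
    have : eval₂ (Int.castRingHom K) ζ r
        = algebraMap F K (eval₂ (Int.castRingHom F) (⟨ζ, hmem⟩ : F) r) := by
      rw [hom_eval₂]
      congr 1
    rw [this]
    exact (eval₂ (Int.castRingHom F) (⟨ζ, hmem⟩ : F) r).2
  have hyF : y ∈ F := by
    have : y = -(eval₂ (Int.castRingHom K) ζ a) / eval₂ (Int.castRingHom K) ζ b := by
      field_simp
      linear_combination h
    rw [this]
    exact F.div_mem (F.neg_mem (hev a)) (hev b)
  have hζF : IsPrimitiveRoot (⟨ζ, hmem⟩ : F) 112 := by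
    apply IsPrimitiveRoot.of_map_of_injective (f := algebraMap F K) (by exact hζ)
    exact (algebraMap F K).injective
  have hsq : IsSquare (-((⟨ζ, hmem⟩ : F) ^ 16 + (⟨ζ, hmem⟩ : F) ^ 32 + (⟨ζ, hmem⟩ : F) ^ 64)) := by
    refine ⟨⟨y, hyF⟩, ?_⟩
    apply Subtype.ext
    change -(ζ ^ 16 + ζ ^ 32 + ζ ^ 64) = y * y
    rw [← sq, hy]
  refine @h1 F _ _ ?_ ⟨ζ, hmem⟩ hζF hsq
  have e : (DivisionRing.toRatAlgebra : Algebra ℚ F) = F.algebra' := Subsingleton.elim _ _
  rw [e]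
  exact hcyc

lemma key (h1 : S_NonSq) (K : Type) [Field K] [NumberField K] (ζ y : K)
    (hζ : IsPrimitiveRoot ζ 112) (hy : y ^ 2 = -(ζ ^ 16 + ζ ^ 32 + ζ ^ 64)) (P : ℤ[X][X])
    (hP : ev K ζ y P = 0) (q : ℕ) [Fact q.Prime] (z v : ZMod q) (hz : IsPrimitiveRoot z 112)
    (hv : v ^ 2 = -(z ^ 16 + z ^ 32 + z ^ 64)) : ev (ZMod q) z v P = 0 := by
  have hM : (X ^ 2 - C WW : ℤ[X][X]).Monic := monic_X_pow_sub_C _ two_ne_zero
  have hdeg : (P %ₘ (X ^ 2 - C WW)).natDegree ≤ 1 := by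
    have h1 := natDegree_modByMonic_lt P hM (by
      intro h
      have := congrArg natDegree h
      rw [natDegree_X_pow_sub_C, natDegree_one] at this
      omega)
    rw [natDegree_X_pow_sub_C] at h1
    omega
  obtain ⟨b, a, hab⟩ := exists_eq_X_add_C_of_natDegree_le_one hdeg
  have hdiv := modByMonic_add_div P (X ^ 2 - C WW)
  have e1 : ∀ (T : Type) [CommRing T] (t u : T), u ^ 2 = -(t ^ 16 + t ^ 32 + t ^ 64) →
      ev T t u P = eval₂ (Int.castRingHom T) t b * u + eval₂ (Int.castRingHom T) t a := by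
    intro T _ t u hu
    conv_lhs => rw [← hdiv]
    rw [map_add, map_mul, ev_M, hu, sub_self, zero_mul, add_zero, hab, map_add, map_mul, ev_X,
      ev_C, ev_C]
  rw [e1 K ζ y hy] at hP
  have hb := lin h1 K ζ y hζ hy a b hP
  rw [hb, zero_mul, zero_add] at hP
  have hd : ∀ r : ℤ[X], eval₂ (Int.castRingHom K) ζ r = 0 →
      eval₂ (Int.castRingHom (ZMod q)) z r = 0 := by
    intro r hr
    have h3 : cyclotomic 112 ℤ ∣ r := by
      rw [cyclotomic_eq_minpoly hζ (by norm_num)]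
      exact minpoly.isIntegrallyClosed_dvd (hζ.isIntegral (by norm_num)) hr
    obtain ⟨s, rfl⟩ := h3
    have h4 : IsRoot (cyclotomic 112 (ZMod q)) z := hz.isRoot_cyclotomic (by norm_num)
    rw [← map_cyclotomic_int, IsRoot.def, eval_map] at h4
    rw [eval₂_mul, h4, zero_mul]
  rw [e1 (ZMod q) z v hv, hd b hb, hd a hP, zero_mul, zero_add]

lemma main (h1 : S_NonSq) (h2 : S_Ext) (K : Type) [Field K] [NumberField K] (ζ y : K)
    (hζ : IsPrimitiveRoot ζ 112) (hy : y ^ 2 = -(ζ ^ 16 + ζ ^ 32 + ζ ^ 64))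
    (hgen : ∀ x : K, ∃ n : ℕ, 0 < n ∧ ∃ P : ℤ[X][X], (n : K) * x = ev K ζ y P) :
    ∃ N : ℕ, ∀ q : ℕ, q.Prime → q % 112 = 1 → N < q →
      (∀ w : ZMod q, w ^ 2 - w + 2 = 0 → IsSquare w) →
      96 ≤ Nat.card {I : Ideal (𝓞 K) // I.IsPrime ∧ Ideal.absNorm I = q} := by
  have hζi : IsIntegral ℤ ζ := hζ.isIntegral (by norm_num)
  have hyi : IsIntegral ℤ y := by
    apply IsIntegral.of_pow two_pos
    rw [hy]
    exact (((hζi.pow 16).add (hζi.pow 32)).add (hζi.pow 64)).neg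
  obtain ⟨ζO, hζO⟩ : ∃ ζO : 𝓞 K, algebraMap (𝓞 K) K ζO = ζ := ⟨⟨ζ, hζi⟩, rfl⟩
  obtain ⟨yO, hyO⟩ : ∃ yO : 𝓞 K, algebraMap (𝓞 K) K yO = y := ⟨⟨y, hyi⟩, rfl⟩
  have hinj : Function.Injective (algebraMap (𝓞 K) K) := NumberField.RingOfIntegers.coe_injective
  have hevO : ∀ P, algebraMap (𝓞 K) K (ev (𝓞 K) ζO yO P) = ev K ζ y P := by
    intro P
    rw [ev_map, hζO, hyO]
  obtain ⟨N, hN, hext⟩ := h2 K (ev (𝓞 K) ζO yO).range (by
    intro x
    obtain ⟨n, hn, P, hP⟩ := hgen (algebraMap (𝓞 K) K x)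
    refine ⟨n, hn, P, hinj ?_⟩
    rw [hevO, ← hP, map_mul, map_natCast])
  refine ⟨N, ?_⟩
  intro q hq hq1 hNq hsq
  have : Fact q.Prime := ⟨hq⟩
  have hqN : ¬ q ∣ N := fun h => absurd (Nat.le_of_dvd hN h) (by omega)
  have hext' := hext q hq hqN
  -- homomorphisms
  have hhom : ∀ z v : ZMod q, IsPrimitiveRoot z 112 → v ^ 2 = -(z ^ 16 + z ^ 32 + z ^ 64) →
      ∃ ψ : 𝓞 K →+* ZMod q, ψ ζO = z ∧ ψ yO = v := by
    intro z v hz hv
    have hker : RingHom.ker (ev (𝓞 K) ζO yO).rangeRestrict ≤ RingHom.ker (ev (ZMod q) z v) := by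
      intro P hP
      rw [RingHom.mem_ker] at hP ⊢
      have h3 : ev (𝓞 K) ζO yO P = 0 := congrArg Subtype.val hP
      have h4 : ev K ζ y P = 0 := by rw [← hevO, h3, map_zero]
      exact key h1 K ζ y hζ hy P h4 q z v hz hv
    set φ := RingHom.liftOfSurjective (ev (𝓞 K) ζO yO).rangeRestrict
      (RingHom.rangeRestrict_surjective _) ⟨ev (ZMod q) z v, hker⟩ with hφ
    have hφe : ∀ P, φ ((ev (𝓞 K) ζO yO).rangeRestrict P) = ev (ZMod q) z v P := by
      intro P
      rw [hφ]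
      exact RingHom.liftOfRightInverse_comp_apply _ _ _ _ P
    obtain ⟨ψ, hψ⟩ := hext' φ
    have hψe : ∀ P, ψ (ev (𝓞 K) ζO yO P) = ev (ZMod q) z v P := by
      intro P
      rw [← hφe P]
      exact hψ ((ev (𝓞 K) ζO yO).rangeRestrict P)
    refine ⟨ψ, ?_, ?_⟩
    · have h5 := hψe (C X)
      rw [ev_C, ev_C, eval₂_X, eval₂_X] at h5
      exact h5
    · have h5 := hψe X
      rw [ev_X, ev_X] at h5
      exact h5
  -- roots of unity
  have hroot : ∃ z₀ : ZMod q, IsPrimitiveRoot z₀ 112 := by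
    obtain ⟨g, hg⟩ := IsCyclic.exists_generator (α := (ZMod q)ˣ)
    have hord : orderOf g = q - 1 := by
      rw [orderOf_eq_card_of_forall_mem_zpowers hg, Nat.card_eq_fintype_card,
        ZMod.card_units_eq_totient, Nat.totient_prime hq]
    have hdvd : 112 ∣ q - 1 := (Nat.modEq_iff_dvd' hq.one_lt.le).1 (by
      unfold Nat.ModEq; omega)
    obtain ⟨m, hm⟩ := hdvd
    have hm0 : m ≠ 0 := by
      rintro rfl
      have := hq.one_lt
      omega
    have h6 : orderOf (g ^ m) = 112 := by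
      rw [orderOf_pow_of_dvd hm0 (by rw [hord, hm]; exact Dvd.intro_left _ rfl), hord, hm]
      exact Nat.mul_div_cancel _ (Nat.pos_of_ne_zero hm0)
    refine ⟨((g ^ m : (ZMod q)ˣ) : ZMod q), ?_⟩
    rw [IsPrimitiveRoot.coe_units_iff, ← h6]
    exact IsPrimitiveRoot.orderOf _
  obtain ⟨z₀, hz₀⟩ := hroot
  have hq2 : (2 : ZMod q) ≠ 0 := by
    intro h
    have h7 : ((2 : ℕ) : ZMod q) = 0 := by exact_mod_cast h
    rw [ZMod.natCast_eq_zero_iff] at h7
    have h8 := Nat.le_of_dvd (by norm_num) h7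
    have := hq.one_lt
    omega
  have hw : ∀ z : ZMod q, IsPrimitiveRoot z 112 →
      (-(z ^ 16 + z ^ 32 + z ^ 64)) ^ 2 - (-(z ^ 16 + z ^ 32 + z ^ 64)) + 2 = 0 := by
    intro z hz
    have hc : IsPrimitiveRoot (z ^ 16) 7 := hz.pow (by norm_num) (by norm_num)
    have hs := hc.geom_sum_eq_zero (by norm_num)
    have h7 := hc.pow_eq_one
    set c := z ^ 16 with hcdef
    have e32 : z ^ 32 = c ^ 2 := by rw [hcdef]; ring
    have e64 : z ^ 64 = c ^ 4 := by rw [hcdef]; ring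
    rw [e32, e64]
    simp only [Finset.sum_range_succ, Finset.sum_range_zero] at hs
    linear_combination 2 * hs + c * h7
  have hv : ∀ z : ZMod q, ∃ v : ZMod q, IsPrimitiveRoot z 112 →
      v ^ 2 = -(z ^ 16 + z ^ 32 + z ^ 64) ∧ v ≠ -v := by
    intro z
    by_cases hz : IsPrimitiveRoot z 112
    · obtain ⟨v, hv⟩ := hsq _ (hw z hz)
      refine ⟨v, fun _ => ⟨by rw [sq]; exact hv.symm, ?_⟩⟩
      intro h
      have h9 : 2 * v = 0 := by linear_combination h
      have h10 : v = 0 := (mul_eq_zero.1 h9).resolve_left hq2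
      have h11 := hw z hz
      rw [hv, h10] at h11
      apply hq2
      linear_combination h11
    · exact ⟨0, fun h => absurd h hz⟩
  choose v hv using hv
  have hv2 : ∀ z b, IsPrimitiveRoot z 112 →
      (if b = true then v z else -v z) ^ 2 = -(z ^ 16 + z ^ 32 + z ^ 64) := by
    intro z b hz
    split_ifs
    · exact (hv z hz).1
    · rw [neg_sq]; exact (hv z hz).1
  have hpsi : ∀ (z : primitiveRoots 112 (ZMod q)) (b : Bool), ∃ ψ : 𝓞 K →+* ZMod q,
      ψ ζO = z ∧ ψ yO = if b = true then v z else -v z := by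
    intro z b
    have hz : IsPrimitiveRoot (z : ZMod q) 112 := (mem_primitiveRoots (by norm_num)).1 z.2
    exact hhom z _ hz (hv2 z b hz)
  choose ψ hψ using hpsi
  have hprop : ∀ ψ : 𝓞 K →+* ZMod q, (RingHom.ker ψ).IsPrime ∧
      Ideal.absNorm (RingHom.ker ψ) = q := by
    intro ψ
    refine ⟨RingHom.ker_isPrime ψ, ?_⟩
    rw [Ideal.absNorm_apply, Submodule.cardQuot_apply]
    have e := RingHom.quotientKerEquivOfSurjective (ZMod.ringHom_surjective ψ)
    rw [Nat.card_congr e.toEquiv, Nat.card_zmod]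
  have hkinj : ∀ ψ₁ ψ₂ : 𝓞 K →+* ZMod q, RingHom.ker ψ₁ = RingHom.ker ψ₂ → ψ₁ = ψ₂ := by
    intro ψ₁ ψ₂ h
    ext x
    have h12 : x - ((ψ₁ x).val : 𝓞 K) ∈ RingHom.ker ψ₁ := by
      rw [RingHom.mem_ker, map_sub, map_natCast, ZMod.natCast_zmod_val, sub_self]
    rw [h, RingHom.mem_ker, map_sub, map_natCast, ZMod.natCast_zmod_val, sub_eq_zero] at h12
    exact h12.symm
  let f : (primitiveRoots 112 (ZMod q)) × Bool →
      {I : Ideal (𝓞 K) // I.IsPrime ∧ Ideal.absNorm I = q} :=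
    fun p => ⟨RingHom.ker (ψ p.1 p.2), hprop _⟩
  have hf : Function.Injective f := by
    rintro ⟨z, b⟩ ⟨z', b'⟩ h
    have h13 : RingHom.ker (ψ z b) = RingHom.ker (ψ z' b') := congrArg Subtype.val h
    have h14 := hkinj _ _ h13
    have h15 : (z : ZMod q) = z' := by
      rw [← (hψ z b).1, ← (hψ z' b').1, h14]
    have h16 : z = z' := Subtype.ext h15
    subst h16
    have hz : IsPrimitiveRoot (z : ZMod q) 112 := (mem_primitiveRoots (by norm_num)).1 z.2
    have h17 : (if b = true then v z else -v z) = (if b' = true then v z else -v z) := by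
      rw [← (hψ z b).2, ← (hψ z b').2, h14]
    have h18 : b = b' := by
      cases b <;> cases b' <;> simp at h17 ⊢
      · exact (hv z hz).2 h17.symm
      · exact (hv z hz).2 h17
    rw [h18]
  have : Finite {I : Ideal (𝓞 K) // I.IsPrime ∧ Ideal.absNorm I = q} := by
    have h19 := Ideal.finite_setOfPred_absNorm_eq (S := 𝓞 K) q
    exact (h19.subset (fun I hI => hI.2)).to_subtype
  have hcard := Nat.card_le_card_of_injective f hf
  have h20 : Nat.card ((primitiveRoots 112 (ZMod q)) × Bool) = 96 := by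
    rw [Nat.card_prod, Nat.card_eq_fintype_card, Fintype.card_coe, hz₀.card_primitiveRoots,
      Nat.card_eq_fintype_card, Fintype.card_bool]
    rfl
  omega

end SplitAux

open SplitAux Polynomial in
theorem split (h1 : S_NonSq) (h2 : S_Ext) : S_Split := by
  obtain ⟨ζ, hζ⟩ : ∃ ζ : ℂ, IsPrimitiveRoot ζ 112 :=
    ⟨_, Complex.isPrimitiveRoot_exp 112 (by norm_num)⟩
  obtain ⟨y, hy⟩ : ∃ y : ℂ, y ^ 2 = -(ζ ^ 16 + ζ ^ 32 + ζ ^ 64) :=
    IsAlgClosed.exists_pow_nat_eq _ two_pos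
  have hζi : IsIntegral ℚ ζ := hζ.isIntegral (by norm_num) |>.tower_top
  have hyi : IsIntegral ℚ y := by
    apply IsIntegral.of_pow two_pos
    rw [hy]
    exact (((hζi.pow 16).add (hζi.pow 32)).add (hζi.pow 64)).neg
  let K := IntermediateField.adjoin ℚ ({ζ, y} : Set ℂ)
  have hint : ∀ x ∈ ({ζ, y} : Set ℂ), IsIntegral ℚ x := by
    intro x hx
    simp only [Set.mem_insert_iff, Set.mem_singleton_iff] at hx
    rcases hx with rfl | rfl
    · exact hζi
    · exact hyi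
  have : FiniteDimensional ℚ K := IntermediateField.finiteDimensional_adjoin hint
  have : NumberField K := NumberField.of_module_finite ℚ K
  have hζm : ζ ∈ K := IntermediateField.subset_adjoin ℚ _ (by simp)
  have hym : y ∈ K := IntermediateField.subset_adjoin ℚ _ (by simp)
  have hζK : IsPrimitiveRoot (⟨ζ, hζm⟩ : K) 112 := by
    apply IsPrimitiveRoot.of_map_of_injective (f := algebraMap K ℂ) (by exact hζ)
    exact (algebraMap K ℂ).injective
  have hyK : (⟨y, hym⟩ : K) ^ 2 = -((⟨ζ, hζm⟩ : K) ^ 16 + (⟨ζ, hζm⟩ : K) ^ 32 +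
      (⟨ζ, hζm⟩ : K) ^ 64) := Subtype.ext hy
  have hgen : ∀ x : K, ∃ n : ℕ, 0 < n ∧ ∃ P : ℤ[X][X],
      (n : K) * x = ev K ⟨ζ, hζm⟩ ⟨y, hym⟩ P := by
    intro x
    have hx : (x : ℂ) ∈ Algebra.adjoin ℚ ({ζ, y} : Set ℂ) := by
      rw [← IntermediateField.adjoin_toSubalgebra_of_isAlgebraic
        (fun z hz => (hint z hz).isAlgebraic)]
      exact x.2
    have hall : ∀ z : ℂ, z ∈ Algebra.adjoin ℚ ({ζ, y} : Set ℂ) → ∃ n : ℕ, 0 < n ∧ ∃ P : ℤ[X][X],
        (n : ℂ) * z = ev ℂ ζ y P := by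
      intro z hz
      induction hz using Algebra.adjoin_induction with
      | mem w hw =>
        simp only [Set.mem_insert_iff, Set.mem_singleton_iff] at hw
        rcases hw with rfl | rfl
        · exact ⟨1, one_pos, C X, by rw [ev_C, eval₂_X]; simp⟩
        · exact ⟨1, one_pos, X, by rw [ev_X]; simp⟩
      | algebraMap r =>
        refine ⟨r.den, r.den_pos, C (C r.num), ?_⟩
        rw [ev_C, eval₂_C]
        have h5 : (r.den : ℚ) * r = r.num := by
          rw [mul_comm]; exact Rat.mul_den_eq_num r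
        have h6 := congrArg (algebraMap ℚ ℂ) h5
        rw [map_mul, map_natCast, map_intCast] at h6
        exact h6
      | add a b _ _ ha hb =>
        obtain ⟨n, hn, P, hP⟩ := ha
        obtain ⟨m, hm, Q, hQ⟩ := hb
        refine ⟨n * m, Nat.mul_pos hn hm, (m : ℤ[X][X]) * P + (n : ℤ[X][X]) * Q, ?_⟩
        rw [map_add, map_mul, map_mul, ← hP, ← hQ, map_natCast, map_natCast]
        push_cast
        ring
      | mul a b _ _ ha hb =>
        obtain ⟨n, hn, P, hP⟩ := ha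
        obtain ⟨m, hm, Q, hQ⟩ := hb
        refine ⟨n * m, Nat.mul_pos hn hm, P * Q, ?_⟩
        rw [map_mul, ← hP, ← hQ]
        push_cast
        ring
    obtain ⟨n, hn, P, hP⟩ := hall x hx
    refine ⟨n, hn, P, (algebraMap K ℂ).injective ?_⟩
    rw [map_mul, map_natCast, ev_map]
    exact hP
  obtain ⟨N, hN⟩ := SplitAux.main h1 h2 K ⟨ζ, hζm⟩ ⟨y, hym⟩ hζK hyK hgen
  exact ⟨K, inferInstance, inferInstance, N, hN⟩

end Pool.Agent.Lib.MP_706923_co
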