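import Pool.Agent.Lib.MP_706923_co.Spec2

set_option autoImplicit false

namespace Pool.Agent.Lib.MP_706923_co

namespace TSumAux

open scoped BigOperators

theorem exp_sub_sq_le {x : ℝ} (h0 : 0 ≤ x) (h1 : x ≤ 1) : Real.exp (x - x ^ 2) ≤ 1 + x := by
  have h2 := (abs_le.1 (Real.abs_exp_sub_one_sub_id_le
    (show |x| ≤ 1 by rw [abs_of_nonneg h0]; exact h1))).2
  have h3 := Real.add_one_le_exp (x ^ 2)
  rw [Real.exp_sub, div_le_iff₀ (Real.exp_pos _)]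
  have h4 : (1 + x) * (x ^ 2 + 1) ≤ (1 + x) * Real.exp (x ^ 2) :=
    mul_le_mul_of_nonneg_left h3 (by linarith)
  nlinarith [pow_nonneg h0 3]

theorem zstep {σ : ℝ} (hσ : 0 < σ) (n : ℕ) (hn : 1 ≤ n) :
    σ * ((n + 1 : ℕ) : ℝ) ^ (-(1 + σ)) ≤ (n : ℝ) ^ (-σ) - ((n + 1 : ℕ) : ℝ) ^ (-σ) := by
  have hn0 : (0 : ℝ) < n := by exact_mod_cast hn
  have hm0 : (0 : ℝ) < ((n + 1 : ℕ) : ℝ) := by positivity
  obtain ⟨m, hm⟩ : ∃ m : ℝ, m = ((n + 1 : ℕ) : ℝ) := ⟨_, rfl⟩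
  have hmn : m = n + 1 := by rw [hm]; push_cast; ring
  rw [← hm] at hm0 ⊢
  have h1 : 1 / m ≤ Real.log m - Real.log n := by
    rw [← Real.log_div hm0.ne' hn0.ne']
    have := Real.one_sub_inv_le_log_of_pos (div_pos hm0 hn0)
    have h2 : (1 : ℝ) - (m / n)⁻¹ = 1 / m := by
      rw [inv_div]
      field_simp
      rw [hmn]; ring
    linarith
  have h3 : (n : ℝ) ^ (-σ) = m ^ (-σ) * Real.exp (σ * (Real.log m - Real.log n)) := by
    rw [Real.rpow_def_of_pos hn0, Real.rpow_def_of_pos hm0, ← Real.exp_add]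
    congr 1; ring
  have h4 : m ^ (-(1 + σ)) = m ^ (-σ) * (1 / m) := by
    rw [show -(1 + σ) = -σ + (-1) by ring, Real.rpow_add hm0, Real.rpow_neg_one, one_div]
  rw [h3, h4]
  have h5 := Real.add_one_le_exp (σ * (Real.log m - Real.log n))
  have h6 : 0 < m ^ (-σ) := Real.rpow_pos_of_pos hm0 _
  have h7 : σ * (1 / m) ≤ σ * (Real.log m - Real.log n) := mul_le_mul_of_nonneg_left h1 hσ.le
  have h8 : m ^ (-σ) * (1 + σ * (1 / m)) ≤
      m ^ (-σ) * Real.exp (σ * (Real.log m - Real.log n)) :=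
    mul_le_mul_of_nonneg_left (by linarith) h6.le
  nlinarith [h8]

theorem zbound {σ : ℝ} (hσ : 0 < σ) (N : ℕ) (hN : 1 ≤ N) :
    ∑ n ∈ Finset.Icc 1 N, (n : ℝ) ^ (-(1 + σ)) ≤ 1 + 1 / σ * (1 - (N : ℝ) ^ (-σ)) := by
  induction N, hN using Nat.le_induction with
  | base => simp
  | succ n hn ih =>
    rw [Finset.sum_Icc_succ_top (by omega)]
    have h1 := zstep hσ n hn
    have h2 : ((n + 1 : ℕ) : ℝ) ^ (-(1 + σ)) ≤
        1 / σ * ((n : ℝ) ^ (-σ) - ((n + 1 : ℕ) : ℝ) ^ (-σ)) := by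
      rw [one_div, ← div_eq_inv_mul, le_div_iff₀ hσ]
      linarith
    have h3 : 1 / σ * (1 - (n : ℝ) ^ (-σ)) +
        1 / σ * ((n : ℝ) ^ (-σ) - ((n + 1 : ℕ) : ℝ) ^ (-σ)) =
        1 / σ * (1 - ((n + 1 : ℕ) : ℝ) ^ (-σ)) := by ring
    linarith

theorem zbound' {σ : ℝ} (hσ : 0 < σ) (N : ℕ) (hN : 1 ≤ N) :
    ∑ n ∈ Finset.Icc 1 N, (n : ℝ) ^ (-(1 + σ)) ≤ 1 + 1 / σ := by
  have h1 := zbound hσ N hN
  have h2 : 0 ≤ (N : ℝ) ^ (-σ) := Real.rpow_nonneg (by positivity) _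
  have h3 : 1 / σ * (1 - (N : ℝ) ^ (-σ)) ≤ 1 / σ * 1 :=
    mul_le_mul_of_nonneg_left (by linarith) (by positivity)
  linarith

theorem prod_pos' (D : Finset ℕ) (hD : ∀ q ∈ D, q.Prime) : 0 < ∏ q ∈ D, q :=
  Finset.prod_pos fun q hq => (hD q hq).pos

theorem powsum {σ : ℝ} (hσ : 0 < σ) (T : Finset ℕ) (hT : ∀ q ∈ T, q.Prime) :
    ∑ D ∈ T.powerset, (((∏ q ∈ D, q : ℕ) : ℝ)) ^ (-(1 + σ)) ≤ 1 + 1 / σ := by
  have hinj : Set.InjOn (fun D : Finset ℕ => ∏ q ∈ D, q) (T.powerset : Set (Finset ℕ)) := by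
    intro D hD E hE h
    have hD' : ∀ q ∈ D, q.Prime := fun q hq => hT q (Finset.mem_powerset.1 (by simpa using hD) hq)
    have hE' : ∀ q ∈ E, q.Prime := fun q hq => hT q (Finset.mem_powerset.1 (by simpa using hE) hq)
    have h1 := Nat.primeFactors_prod hD'
    have h2 := Nat.primeFactors_prod hE'
    simp only at h
    rw [h] at h1
    exact h1.symm.trans h2
  have h1 : ∑ D ∈ T.powerset, (((∏ q ∈ D, q : ℕ) : ℝ)) ^ (-(1 + σ)) =
      ∑ n ∈ T.powerset.image (fun D : Finset ℕ => ∏ q ∈ D, q), (n : ℝ) ^ (-(1 + σ)) := by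
    rw [Finset.sum_image hinj]
  rw [h1]
  have hTp := prod_pos' T hT
  refine le_trans (Finset.sum_le_sum_of_subset_of_nonneg
    (t := Finset.Icc 1 (∏ q ∈ T, q)) ?_ ?_) (zbound' hσ _ hTp)
  · intro n hn
    rw [Finset.mem_image] at hn
    obtain ⟨D, hD, rfl⟩ := hn
    have hDT := Finset.mem_powerset.1 hD
    rw [Finset.mem_Icc]
    exact ⟨prod_pos' D fun q hq => hT q (hDT hq),
      Nat.le_of_dvd hTp (Finset.prod_dvd_prod_of_subset _ _ _ hDT)⟩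
  · intro n _ _
    exact Real.rpow_nonneg (by positivity) _

theorem sqsum (T : Finset ℕ) (hT : ∀ q ∈ T, q.Prime) {s : ℝ} (hs : 0 < s) :
    ∑ q ∈ T, ((q : ℝ) ^ (-(1 + s))) ^ 2 ≤ 2 := by
  have h1 : ∑ q ∈ T, ((q : ℝ) ^ (-(1 + s))) ^ 2 ≤ ∑ q ∈ T, ((q : ℝ) ^ 2)⁻¹ := by
    apply Finset.sum_le_sum
    intro q hq
    have hq1 : (1 : ℝ) ≤ q := by exact_mod_cast (hT q hq).one_le
    have h2 : (q : ℝ) ^ (-(1 + s)) ≤ (q : ℝ)⁻¹ := by
      rw [← Real.rpow_neg_one]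
      exact Real.rpow_le_rpow_of_exponent_le hq1 (by linarith)
    rw [← inv_pow]
    exact pow_le_pow_left₀ (Real.rpow_nonneg (by positivity) _) h2 2
  refine h1.trans ?_
  have h3 : T ⊆ Finset.Ioo 0 (∏ q ∈ T, q + 1) := by
    intro q hq
    rw [Finset.mem_Ioo]
    exact ⟨(hT q hq).pos, Nat.lt_succ_of_le
      (Nat.le_of_dvd (prod_pos' T hT) (Finset.dvd_prod_of_mem _ hq))⟩
  refine (Finset.sum_le_sum_of_subset_of_nonneg h3 fun _ _ _ => by positivity).trans ?_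
  have := sum_Ioo_inv_sq_le (α := ℝ) 0 (∏ q ∈ T, q + 1)
  refine this.trans ?_
  norm_num

theorem core (T : Finset ℕ) (hT : ∀ q ∈ T, q.Prime) {s : ℝ} (hs : 0 < s) (y : ℕ) (hy : 1 ≤ y) :
    Real.exp (∑ q ∈ T, (q : ℝ) ^ (-(1 + s)) - 2) ≤
      ∑ D ∈ T.powerset.filter (fun D => ∏ q ∈ D, q ≤ y), ∏ q ∈ D, (1 / (q : ℝ)) +
        (y : ℝ) ^ (-(s / 2)) * (1 + 2 / s) := by
  have hy0 : (0 : ℝ) < y := by exact_mod_cast hy
  have h1 : Real.exp (∑ q ∈ T, (q : ℝ) ^ (-(1 + s)) - 2) ≤ ∏ q ∈ T, (1 + (q : ℝ) ^ (-(1 + s))) := by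
    have h2 := sqsum T hT hs
    calc Real.exp (∑ q ∈ T, (q : ℝ) ^ (-(1 + s)) - 2)
        ≤ Real.exp (∑ q ∈ T, ((q : ℝ) ^ (-(1 + s)) - ((q : ℝ) ^ (-(1 + s))) ^ 2)) := by
          apply Real.exp_le_exp.2
          rw [Finset.sum_sub_distrib]
          linarith
      _ = ∏ q ∈ T, Real.exp ((q : ℝ) ^ (-(1 + s)) - ((q : ℝ) ^ (-(1 + s))) ^ 2) := by
          rw [Real.exp_sum]
      _ ≤ _ := by
          apply Finset.prod_le_prod
          · intro q _; positivity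
          · intro q hq
            have hq1 : (1 : ℝ) ≤ q := by exact_mod_cast (hT q hq).one_le
            exact exp_sub_sq_le (Real.rpow_nonneg (by positivity) _)
              (Real.rpow_le_one_of_one_le_of_nonpos hq1 (by linarith))
  refine h1.trans ?_
  rw [Finset.prod_one_add]
  rw [← Finset.sum_filter_add_sum_filter_not T.powerset (fun D => ∏ q ∈ D, q ≤ y)]
  apply add_le_add
  · apply Finset.sum_le_sum
    intro D hD
    have hDT := Finset.mem_powerset.1 (Finset.mem_filter.1 hD).1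
    apply Finset.prod_le_prod
    · intro q _; exact Real.rpow_nonneg (by positivity) _
    · intro q hq
      have hq1 : (1 : ℝ) ≤ q := by exact_mod_cast (hT q (hDT hq)).one_le
      rw [one_div, ← Real.rpow_neg_one]
      exact Real.rpow_le_rpow_of_exponent_le hq1 (by linarith)
  · have h3 : ∑ D ∈ T.powerset.filter (fun D => ¬ ∏ q ∈ D, q ≤ y),
        ∏ q ∈ D, (q : ℝ) ^ (-(1 + s)) ≤
        ∑ D ∈ T.powerset.filter (fun D => ¬ ∏ q ∈ D, q ≤ y),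
          (y : ℝ) ^ (-(s / 2)) * (((∏ q ∈ D, q : ℕ) : ℝ)) ^ (-(1 + s / 2)) := by
      apply Finset.sum_le_sum
      intro D hD
      have hDT := Finset.mem_powerset.1 (Finset.mem_filter.1 hD).1
      have hDy := (Finset.mem_filter.1 hD).2
      have hPy : (y : ℝ) ≤ ((∏ q ∈ D, q : ℕ) : ℝ) := by
        exact_mod_cast (not_le.1 hDy).le
      have hP0 : (0 : ℝ) < ((∏ q ∈ D, q : ℕ) : ℝ) := lt_of_lt_of_le hy0 hPy
      have h4 : ∏ q ∈ D, (q : ℝ) ^ (-(1 + s)) = (((∏ q ∈ D, q : ℕ) : ℝ)) ^ (-(1 + s)) := by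
        rw [Nat.cast_prod, Real.finsetProd_rpow _ _ (fun q _ => by positivity)]
      rw [h4, show -(1 + s) = -(s / 2) + -(1 + s / 2) by ring, Real.rpow_add hP0]
      apply mul_le_mul_of_nonneg_right _ (Real.rpow_nonneg hP0.le _)
      exact Real.rpow_le_rpow_of_nonpos hy0 hPy (by linarith)
    refine h3.trans ?_
    rw [← Finset.mul_sum]
    apply mul_le_mul_of_nonneg_left _ (Real.rpow_nonneg hy0.le _)
    refine (Finset.sum_le_sum_of_subset_of_nonneg (Finset.filter_subset _ _)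
      fun D _ _ => Real.rpow_nonneg (by positivity) _).trans ?_
    have h5 := powsum (half_pos hs) T hT
    have h6 : 1 / (s / 2) = 2 / s := by field_simp
    rw [h6] at h5
    exact h5

theorem core2 (M : ℕ) (a : ZMod M) (X : ℕ) {s : ℝ} (hs : 0 < s) (y : ℕ) (hy : 1 ≤ y) :
    Real.exp (∑ q ∈ (Finset.range X).filter (fun q : ℕ => q.Prime ∧ ((q : ℕ) : ZMod M) = a),
        (q : ℝ) ^ (-(1 + s)) - 2) ≤
      ∑ D ∈ (PS y).filter (fun D => ∀ q : ℕ, q ∈ D → ((q : ℕ) : ZMod M) = a),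
        ∏ q ∈ D, (1 / (q : ℝ)) + (y : ℝ) ^ (-(s / 2)) * (1 + 2 / s) := by
  refine (core _ (fun q hq => (Finset.mem_filter.1 hq).2.1) hs y hy).trans ?_
  apply add_le_add _ le_rfl
  apply Finset.sum_le_sum_of_subset_of_nonneg
  · intro D hD
    rw [Finset.mem_filter, Finset.mem_powerset] at hD
    obtain ⟨hDT, hDy⟩ := hD
    have hp : ∀ q ∈ D, q.Prime := fun q hq => (Finset.mem_filter.1 (hDT hq)).2.1
    rw [Finset.mem_filter, PS, Finset.mem_filter, Finset.mem_powerset]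
    refine ⟨⟨?_, hDy⟩, fun q hq => (Finset.mem_filter.1 (hDT hq)).2.2⟩
    intro q hq
    rw [Finset.mem_filter, Finset.mem_Icc]
    exact ⟨⟨(hp q hq).one_le, (Nat.le_of_dvd (prod_pos' D hp)
      (Finset.dvd_prod_of_mem _ hq)).trans hDy⟩, hp q hq⟩
  · intro D _ _
    exact Finset.prod_nonneg fun q _ => by positivity

end TSumAux

open TSumAux

theorem tsum (h : S_Us) : S_TSum := by
  intro M a hM ha
  obtain ⟨δ, C, hδ, hU⟩ := h M a hM ha
  have hev : ∀ᶠ L : ℝ in Filter.atTop, 2 ≤ L ∧ 1 / 2 ≤ Real.log L ∧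
      4 * Real.log L ≤ L ^ (1 / 4 : ℝ) ∧ 2 * Real.exp (C + 2) ≤ L ^ (δ / 4) := by
    have e1 : ∀ᶠ L : ℝ in Filter.atTop, 2 ≤ L := Filter.eventually_ge_atTop 2
    have e2 : ∀ᶠ L : ℝ in Filter.atTop, 1 / 2 ≤ Real.log L :=
      Real.tendsto_log_atTop.eventually_ge_atTop (1 / 2)
    have e3 : ∀ᶠ L : ℝ in Filter.atTop, 4 * Real.log L ≤ L ^ (1 / 4 : ℝ) := by
      have := (isLittleO_log_rpow_atTop (show (0 : ℝ) < 1 / 4 by norm_num)).bound
        (show (0 : ℝ) < 1 / 4 by norm_num)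
      filter_upwards [this, e1, e2] with L hL h1 h2
      rw [Real.norm_of_nonneg (by linarith), Real.norm_of_nonneg
        (Real.rpow_nonneg (by linarith) _)] at hL
      linarith
    have e4 : ∀ᶠ L : ℝ in Filter.atTop, 2 * Real.exp (C + 2) ≤ L ^ (δ / 4) :=
      (tendsto_rpow_atTop (by positivity)).eventually_ge_atTop _
    filter_upwards [e1, e2, e3, e4] with L h1 h2 h3 h4
    exact ⟨h1, h2, h3, h4⟩
  have hev2 := (Real.tendsto_log_atTop.comp (tendsto_natCast_atTop_atTop (R := ℝ))).eventually hev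
  obtain ⟨y₀, hy₀⟩ := Filter.eventually_atTop.1 hev2
  refine ⟨δ / 2, max y₀ 1, by positivity, ?_⟩
  intro y hy
  have hy1 : 1 ≤ y := (le_max_right _ _).trans hy
  obtain ⟨hL2, hll, h4ll, hbig⟩ := hy₀ y ((le_max_left _ _).trans hy)
  simp only [Function.comp] at hL2 hll h4ll hbig
  obtain ⟨L, hL⟩ : ∃ L : ℝ, L = Real.log (y : ℝ) := ⟨_, rfl⟩
  rw [← hL] at hL2 hll h4ll hbig ⊢
  have hL0 : 0 < L := by linarith
  have hy0 : (0 : ℝ) < y := by exact_mod_cast hy1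
  obtain ⟨s, hs⟩ : ∃ s : ℝ, s = 4 * Real.log L / L := ⟨_, rfl⟩
  have hs0 : 0 < s := by rw [hs]; apply div_pos; linarith; exact hL0
  -- `1/s ≥ L^(3/4)`
  have h34 : L ^ (3 / 4 : ℝ) ≤ 1 / s := by
    rw [hs, one_div, inv_div, le_div_iff₀ (by linarith)]
    calc L ^ (3 / 4 : ℝ) * (4 * Real.log L) ≤ L ^ (3 / 4 : ℝ) * L ^ (1 / 4 : ℝ) :=
          mul_le_mul_of_nonneg_left h4ll (Real.rpow_nonneg hL0.le _)
      _ = L := by rw [← Real.rpow_add hL0]; norm_num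
  have hs1 : s ≤ 1 := by
    have h1 : (1 : ℝ) ≤ L ^ (3 / 4 : ℝ) := Real.one_le_rpow (by linarith) (by norm_num)
    have h2 : 1 ≤ 1 / s := h1.trans h34
    rw [le_div_iff₀ hs0] at h2
    linarith
  obtain ⟨X, hX⟩ := hU s hs0 hs1
  have hc := core2 M a X hs0 y hy1
  -- the tail
  have htail : (y : ℝ) ^ (-(s / 2)) * (1 + 2 / s) ≤ 1 := by
    have h1 : (y : ℝ) ^ (-(s / 2)) = (L ^ 2)⁻¹ := by
      rw [Real.rpow_def_of_pos hy0, ← hL]
      have : L * -(s / 2) = -(2 * Real.log L) := by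
        rw [hs]; field_simp; ring
      rw [this, Real.exp_neg]
      congr 1
      rw [show (2 : ℝ) * Real.log L = Real.log (L ^ 2) by rw [Real.log_pow]; norm_num]
      exact Real.exp_log (by positivity)
    have h2 : 2 / s ≤ L := by
      rw [div_le_iff₀ hs0, hs]
      rw [mul_div_assoc', mul_comm L, mul_div_assoc, div_self hL0.ne']
      linarith
    rw [h1, inv_mul_le_iff₀ (by positivity)]
    nlinarith
  -- the main term
  have hmain : 2 * L ^ (δ / 2) ≤ Real.exp (∑ q ∈ (Finset.range X).filter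
      (fun q : ℕ => q.Prime ∧ ((q : ℕ) : ZMod M) = a), (q : ℝ) ^ (-(1 + s)) - 2) := by
    have h1 : Real.exp (δ * Real.log (1 / s) - C - 2) ≤ Real.exp (∑ q ∈ (Finset.range X).filter
      (fun q : ℕ => q.Prime ∧ ((q : ℕ) : ZMod M) = a), (q : ℝ) ^ (-(1 + s)) - 2) :=
      Real.exp_le_exp.2 (by linarith)
    refine le_trans ?_ h1
    have h2 : Real.log (L ^ (3 / 4 : ℝ)) ≤ Real.log (1 / s) :=
      Real.log_le_log (Real.rpow_pos_of_pos hL0 _) h34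
    rw [Real.log_rpow hL0] at h2
    have h3 : δ * (3 / 4 * Real.log L) ≤ δ * Real.log (1 / s) :=
      mul_le_mul_of_nonneg_left h2 hδ.le
    have h4 : Real.exp (δ * (3 / 4 * Real.log L) - C - 2) ≤
        Real.exp (δ * Real.log (1 / s) - C - 2) := Real.exp_le_exp.2 (by linarith)
    refine le_trans ?_ h4
    have h5 : Real.exp (δ * (3 / 4 * Real.log L) - C - 2) =
        L ^ (δ / 2) * L ^ (δ / 4) * (Real.exp (C + 2))⁻¹ := by
      rw [← Real.exp_neg, Real.rpow_def_of_pos hL0, Real.rpow_def_of_pos hL0, ← Real.exp_add,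
        ← Real.exp_add]
      congr 1; ring
    rw [h5, ← div_eq_mul_inv, le_div_iff₀ (Real.exp_pos _)]
    have h6 : L ^ (δ / 2) * (2 * Real.exp (C + 2)) ≤ L ^ (δ / 2) * L ^ (δ / 4) :=
      mul_le_mul_of_nonneg_left hbig (Real.rpow_nonneg hL0.le _)
    linarith
  have hone : 1 ≤ L ^ (δ / 2) := Real.one_le_rpow (by linarith) (by positivity)
  linarith

end Pool.Agent.Lib.MP_706923_co
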