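import Pool.Agent.Lib.MP_706923_co.Spec3
import Pool.Agent.Lib.MP_706923_co.TSum

set_option autoImplicit false

namespace Pool.Agent.Lib.MP_706923_co

namespace TSum2Aux

open scoped BigOperators

theorem core2 (T : ℕ → Prop) [DecidablePred T] (hT : ∀ q, T q → q.Prime) (X : ℕ) {s : ℝ}
    (hs : 0 < s) (y : ℕ) (hy : 1 ≤ y) :
    Real.exp (∑ q ∈ (Finset.range X).filter T, (q : ℝ) ^ (-(1 + s)) - 2) ≤
      ∑ D ∈ (PS y).filter (fun D => ∀ q ∈ D, T q),
        ∏ q ∈ D, (1 / (q : ℝ)) + (y : ℝ) ^ (-(s / 2)) * (1 + 2 / s) := by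
  refine (TSumAux.core _ (fun q hq => hT q (Finset.mem_filter.1 hq).2) hs y hy).trans ?_
  apply add_le_add _ le_rfl
  apply Finset.sum_le_sum_of_subset_of_nonneg
  · intro D hD
    rw [Finset.mem_filter, Finset.mem_powerset] at hD
    obtain ⟨hDT, hDy⟩ := hD
    have hp : ∀ q ∈ D, q.Prime := fun q hq => hT q (Finset.mem_filter.1 (hDT hq)).2
    rw [Finset.mem_filter, PS, Finset.mem_filter, Finset.mem_powerset]
    refine ⟨⟨?_, hDy⟩, fun q hq => (Finset.mem_filter.1 (hDT hq)).2⟩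
    intro q hq
    rw [Finset.mem_filter, Finset.mem_Icc]
    exact ⟨⟨(hp q hq).one_le, (Nat.le_of_dvd (TSumAux.prod_pos' D hp)
      (Finset.dvd_prod_of_mem _ hq)).trans hDy⟩, hp q hq⟩
  · intro D _ _
    exact Finset.prod_nonneg fun q _ => by positivity

end TSum2Aux

theorem tsum2 : S_TSum2 := by
  intro T _ hT hU
  obtain ⟨δ, C, hδ, hU⟩ := hU
  have hev : ∀ᶠ L : ℝ in Filter.atTop, 2 ≤ L ∧ 1 / 2 ≤ Real.log L ∧
      4 * Real.log L ≤ L ^ (1 / 4 : ℝ) ∧ 2 * Real.exp (C + 2) ≤ L ^ (δ / 4) := by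
    have e1 : ∀ᶠ L : ℝ in Filter.atTop, 2 ≤ L := Filter.eventually_ge_atTop 2
    have e2 : ∀ᶠ L : ℝ in Filter.atTop, 1 / 2 ≤ Real.log L :=
      Real.tendsto_log_atTop.eventually_ge_atTop (1 / 2)
    have e3 : ∀ᶠ L : ℝ in Filter.atTop, 4 * Real.log L ≤ L ^ (1 / 4 : ℝ) := by
      have := (isLittleO_log_rpow_atTop (show (0 : ℝ) < 1 / 4 by norm_num)).bound
        (show (0 : ℝ) < 1 / 4 by norm_num)
      filter_upwards [this, e1, e2] with L hL h1 h2
      rw [Real.norm_of_nonneg (by linarith), Real.norm_of_nonneg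
        (Real.rpow_nonneg (by linarith) _)] at hL
      linarith
    have e4 : ∀ᶠ L : ℝ in Filter.atTop, 2 * Real.exp (C + 2) ≤ L ^ (δ / 4) :=
      (tendsto_rpow_atTop (by positivity)).eventually_ge_atTop _
    filter_upwards [e1, e2, e3, e4] with L h1 h2 h3 h4
    exact ⟨h1, h2, h3, h4⟩
  have hev2 := (Real.tendsto_log_atTop.comp (tendsto_natCast_atTop_atTop (R := ℝ))).eventually hev
  obtain ⟨y₀, hy₀⟩ := Filter.eventually_atTop.1 hev2
  refine ⟨δ / 2, max y₀ 1, by positivity, ?_⟩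
  intro y hy
  have hy1 : 1 ≤ y := (le_max_right _ _).trans hy
  obtain ⟨hL2, hll, h4ll, hbig⟩ := hy₀ y ((le_max_left _ _).trans hy)
  simp only [Function.comp] at hL2 hll h4ll hbig
  obtain ⟨L, hL⟩ : ∃ L : ℝ, L = Real.log (y : ℝ) := ⟨_, rfl⟩
  rw [← hL] at hL2 hll h4ll hbig ⊢
  have hL0 : 0 < L := by linarith
  have hy0 : (0 : ℝ) < y := by exact_mod_cast hy1
  obtain ⟨s, hs⟩ : ∃ s : ℝ, s = 4 * Real.log L / L := ⟨_, rfl⟩
  have hs0 : 0 < s := by rw [hs]; apply div_pos; linarith; exact hL0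
  -- `1/s ≥ L^(3/4)`
  have h34 : L ^ (3 / 4 : ℝ) ≤ 1 / s := by
    rw [hs, one_div, inv_div, le_div_iff₀ (by linarith)]
    calc L ^ (3 / 4 : ℝ) * (4 * Real.log L) ≤ L ^ (3 / 4 : ℝ) * L ^ (1 / 4 : ℝ) :=
          mul_le_mul_of_nonneg_left h4ll (Real.rpow_nonneg hL0.le _)
      _ = L := by rw [← Real.rpow_add hL0]; norm_num
  have hs1 : s ≤ 1 := by
    have h1 : (1 : ℝ) ≤ L ^ (3 / 4 : ℝ) := Real.one_le_rpow (by linarith) (by norm_num)
    have h2 : 1 ≤ 1 / s := h1.trans h34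
    rw [le_div_iff₀ hs0] at h2
    linarith
  obtain ⟨X, hX⟩ := hU s hs0 hs1
  have hc := TSum2Aux.core2 T hT X hs0 y hy1
  -- the tail
  have htail : (y : ℝ) ^ (-(s / 2)) * (1 + 2 / s) ≤ 1 := by
    have h1 : (y : ℝ) ^ (-(s / 2)) = (L ^ 2)⁻¹ := by
      rw [Real.rpow_def_of_pos hy0, ← hL]
      have : L * -(s / 2) = -(2 * Real.log L) := by
        rw [hs]; field_simp; ring
      rw [this, Real.exp_neg]
      congr 1
      rw [show (2 : ℝ) * Real.log L = Real.log (L ^ 2) by rw [Real.log_pow]; norm_num]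
      exact Real.exp_log (by positivity)
    have h2 : 2 / s ≤ L := by
      rw [div_le_iff₀ hs0, hs]
      rw [mul_div_assoc', mul_comm L, mul_div_assoc, div_self hL0.ne']
      linarith
    rw [h1, inv_mul_le_iff₀ (by positivity)]
    nlinarith
  -- the main term
  have hmain : 2 * L ^ (δ / 2) ≤ Real.exp (∑ q ∈ (Finset.range X).filter T,
      (q : ℝ) ^ (-(1 + s)) - 2) := by
    have h1 : Real.exp (δ * Real.log (1 / s) - C - 2) ≤ Real.exp (∑ q ∈ (Finset.range X).filter T,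
      (q : ℝ) ^ (-(1 + s)) - 2) :=
      Real.exp_le_exp.2 (by linarith)
    refine le_trans ?_ h1
    have h2 : Real.log (L ^ (3 / 4 : ℝ)) ≤ Real.log (1 / s) :=
      Real.log_le_log (Real.rpow_pos_of_pos hL0 _) h34
    rw [Real.log_rpow hL0] at h2
    have h3 : δ * (3 / 4 * Real.log L) ≤ δ * Real.log (1 / s) :=
      mul_le_mul_of_nonneg_left h2 hδ.le
    have h4 : Real.exp (δ * (3 / 4 * Real.log L) - C - 2) ≤
        Real.exp (δ * Real.log (1 / s) - C - 2) := Real.exp_le_exp.2 (by linarith)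
    refine le_trans ?_ h4
    have h5 : Real.exp (δ * (3 / 4 * Real.log L) - C - 2) =
        L ^ (δ / 2) * L ^ (δ / 4) * (Real.exp (C + 2))⁻¹ := by
      rw [← Real.exp_neg, Real.rpow_def_of_pos hL0, Real.rpow_def_of_pos hL0, ← Real.exp_add,
        ← Real.exp_add]
      congr 1; ring
    rw [h5, ← div_eq_mul_inv, le_div_iff₀ (Real.exp_pos _)]
    have h6 : L ^ (δ / 2) * (2 * Real.exp (C + 2)) ≤ L ^ (δ / 2) * L ^ (δ / 4) :=
      mul_le_mul_of_nonneg_left hbig (Real.rpow_nonneg hL0.le _)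
    linarith
  have hone : 1 ≤ L ^ (δ / 2) := Real.one_le_rpow (by linarith) (by positivity)
  linarith

end Pool.Agent.Lib.MP_706923_co
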