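import Pool.Agent.Lib.MP_706923_co.Spec2

/-! MP_706923_co, P7: lower bound for the sums of `q^(-1-s)` over the primes in a residue class. -/

set_option autoImplicit false

namespace Pool.Agent.Lib.MP_706923_co

open ArithmeticFunction ArithmeticFunction.vonMangoldt Finset

namespace UsAux

theorem y_le (y : ℝ) : y * Real.exp (-y) ≤ 2 * (Real.exp (-(y / 2)) - Real.exp (-y)) := by
  have h1 : y / 2 + 1 ≤ Real.exp (y / 2) := Real.add_one_le_exp _
  have h2 : Real.exp (-(y / 2)) = Real.exp (-y) * Real.exp (y / 2) := by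
    rw [← Real.exp_add]
    congr 1
    ring
  rw [h2]
  have h3 : 0 < Real.exp (-y) := Real.exp_pos _
  nlinarith

theorem tele (L : ℝ) (J : ℕ) :
    ∑ j ∈ range J, ((1 / 2 : ℝ) ^ j * L) * Real.exp (-((1 / 2 : ℝ) ^ j * L))
      ≤ 2 * (Real.exp (-((1 / 2 : ℝ) ^ J * L)) - Real.exp (-L)) := by
  induction J with
  | zero => simp
  | succ J ih =>
    rw [sum_range_succ]
    have h := y_le ((1 / 2 : ℝ) ^ J * L)
    have e : (1 / 2 : ℝ) ^ (J + 1) * L = (1 / 2 : ℝ) ^ J * L / 2 := by
      rw [pow_succ]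
      ring
    rw [e]
    linarith

theorem rc_one {q : ℕ} (a : ZMod q) : residueClass a 1 = 0 :=
  le_antisymm ((residueClass_le a 1).trans (by simp)) (residueClass_nonneg a 1)

/-- the terms of the prime sum -/
noncomputable def P {q : ℕ} (a : ZMod q) (J n : ℕ) : ℝ :=
  if n.Prime ∧ ((n : ℕ) : ZMod q) = a then (n : ℝ) ^ (-(1 + (1 / 2 : ℝ) ^ J)) else 0

theorem P_nonneg {q : ℕ} (a : ZMod q) (J n : ℕ) : 0 ≤ P a J n := by
  unfold P
  split_ifs
  · positivity
  · exact le_rfl

theorem P_summable {q : ℕ} (a : ZMod q) (J : ℕ) : Summable (P a J) := by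
  have h : Summable fun n : ℕ => (n : ℝ) ^ (-(1 + (1 / 2 : ℝ) ^ J)) := by
    rw [Real.summable_nat_rpow]
    have : (0 : ℝ) < (1 / 2 : ℝ) ^ J := by positivity
    linarith
  refine Summable.of_nonneg_of_le (P_nonneg a J) (fun n => ?_) h
  unfold P
  split_ifs
  · exact le_rfl
  · positivity

theorem low {q : ℕ} [NeZero q] {a : ZMod q} (ha : IsUnit a) :
    ∃ K : ℝ, ∀ J : ℕ, (q.totient : ℝ)⁻¹ / 2 * J - K ≤ ∑' n : ℕ, P a J n := by
  set f : ℕ → ℝ := residueClass a with hf
  have hf0 : ∀ n, 0 ≤ f n := residueClass_nonneg a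
  have hl2 : 0 < Real.log 2 := Real.log_pos one_lt_two
  have hnp := summable_residueClass_non_primes_div a
  have ht0 : ∀ j : ℕ, (0 : ℝ) < (1 / 2 : ℝ) ^ j := fun j => by positivity
  have ht1 : ∀ j : ℕ, (1 / 2 : ℝ) ^ j ≤ 1 := fun j => pow_le_one₀ (by norm_num) (by norm_num)
  obtain ⟨C, hC⟩ := LSeries_residueClass_lower_bound ha
  let g : ℕ → ℝ := fun n => f n / (n * Real.log n)
  have hg0 : ∀ n, 0 ≤ g n := fun n =>
    div_nonneg (hf0 n) (mul_nonneg (Nat.cast_nonneg n) (Real.log_natCast_nonneg n))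
  let G : ℕ → ℕ → ℝ := fun J n => g n * Real.exp (-((1 / 2 : ℝ) ^ J * Real.log n))
  have hG0 : ∀ J n, 0 ≤ G J n := fun J n => mul_nonneg (hg0 n) (Real.exp_pos _).le
  have hGle : ∀ J n, G J n ≤ P a J n + 1 / Real.log 2 * ((if n.Prime then 0 else f n) / n) := by
    intro J n
    rcases Nat.lt_or_ge n 2 with hn | hn
    · have hgn : G J n = 0 := by
        interval_cases n
        · simp [G, g]
        · simp [G, g]
      rw [hgn]
      have h2 : (0 : ℝ) ≤ (if n.Prime then 0 else f n) / n := by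
        refine div_nonneg ?_ (Nat.cast_nonneg n)
        split_ifs
        · exact le_rfl
        · exact hf0 n
      have h3 : (0 : ℝ) ≤ 1 / Real.log 2 := by positivity
      exact add_nonneg (P_nonneg a J n) (mul_nonneg h3 h2)
    · have hn0 : (0 : ℝ) < n := by
        have : 0 < n := by omega
        exact_mod_cast this
      have hln : Real.log 2 ≤ Real.log n :=
        Real.log_le_log two_pos (by exact_mod_cast hn)
      have hlpos : 0 < Real.log n := hl2.trans_le hln
      by_cases hp : n.Prime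
      · by_cases hna : (n : ZMod q) = a
        · have e1 : f n = Real.log n := by
            rw [hf]
            simp only [residueClass]
            rw [Set.indicator_of_mem (by exact hna)]
            exact vonMangoldt_apply_prime hp
          have e2 : g n = (n : ℝ)⁻¹ := by
            simp only [g]
            rw [e1]
            field_simp
          have e3 : (n : ℝ) ^ (-(1 + (1 / 2 : ℝ) ^ J)) =
              (n : ℝ)⁻¹ * Real.exp (-((1 / 2 : ℝ) ^ J * Real.log n)) := by
            rw [neg_add, Real.rpow_add hn0, Real.rpow_neg_one, Real.rpow_def_of_pos hn0]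
            congr 2
            ring
          rw [if_pos hp]
          simp only [G]
          rw [e2, P, if_pos ⟨hp, hna⟩, e3]
          simp
        · have e1 : f n = 0 := by
            rw [hf]
            simp only [residueClass]
            exact Set.indicator_of_notMem (by exact hna) _
          have : G J n = 0 := by
            simp only [G, g]
            rw [e1, zero_div, zero_mul]
          rw [this, if_pos hp]
          simp [P_nonneg]
      · rw [if_neg hp]
        have e2 : 1 / Real.log 2 * (f n / n) = f n / (n * Real.log 2) := by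
          field_simp
        have e3 : G J n ≤ g n := by
          simp only [G]
          refine mul_le_of_le_one_right (hg0 n) ?_
          rw [Real.exp_le_one_iff]
          have := mul_pos (ht0 J) hlpos
          linarith
        refine e3.trans (le_trans ?_ (le_add_of_nonneg_left (P_nonneg a J n)))
        rw [e2]
        exact div_le_div_of_nonneg_left (hf0 n) (by positivity)
          (mul_le_mul_of_nonneg_left hln hn0.le)
  have hR : Summable fun n : ℕ => 1 / Real.log 2 * ((if n.Prime then 0 else f n) / n) :=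
    hnp.mul_left (1 / Real.log 2)
  have hGs : ∀ J, Summable (G J) := fun J =>
    Summable.of_nonneg_of_le (hG0 J) (hGle J) ((P_summable a J).add hR)
  have hsum : ∀ j : ℕ, Summable fun n : ℕ => f n / (n : ℝ) ^ (1 + (1 / 2 : ℝ) ^ j) := fun j =>
    LSeries.summable_real_of_abscissaOfAbsConv_lt <|
      (abscissaOfAbsConv_residueClass_le_one a).trans_lt <| by
        have := ht0 j
        exact_mod_cast (by linarith : (1 : ℝ) < 1 + (1 / 2 : ℝ) ^ j)
  have hpt : ∀ (J n : ℕ), ∑ j ∈ range J, (1 / 2 : ℝ) ^ j * (f n / (n : ℝ) ^ (1 + (1 / 2 : ℝ) ^ j))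
      ≤ 2 * G J n := by
    intro J n
    rcases Nat.lt_or_ge n 2 with hn | hn
    · have hfn : f n = 0 := by
        interval_cases n
        · rw [hf]
          exact residueClass_apply_zero a
        · rw [hf]
          exact rc_one a
      have : 0 ≤ G J n := hG0 J n
      simp only [hfn, zero_div, mul_zero, sum_const_zero]
      linarith
    · have hn0 : (0 : ℝ) < n := by
        have : 0 < n := by omega
        exact_mod_cast this
      have hlpos : 0 < Real.log n := hl2.trans_le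
        (Real.log_le_log two_pos (by exact_mod_cast hn))
      have e : ∀ j ∈ range J, (1 / 2 : ℝ) ^ j * (f n / (n : ℝ) ^ (1 + (1 / 2 : ℝ) ^ j))
          = g n * (((1 / 2 : ℝ) ^ j * Real.log n) * Real.exp (-((1 / 2 : ℝ) ^ j * Real.log n))) := by
        intro j _
        have e1 : (n : ℝ) ^ (1 + (1 / 2 : ℝ) ^ j) = n * Real.exp ((1 / 2 : ℝ) ^ j * Real.log n) := by
          rw [Real.rpow_add hn0, Real.rpow_one, Real.rpow_def_of_pos hn0, mul_comm (Real.log _)]
        rw [e1, Real.exp_neg]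
        simp only [g]
        have : Real.exp ((1 / 2 : ℝ) ^ j * Real.log n) ≠ 0 := (Real.exp_pos _).ne'
        field_simp
      rw [sum_congr rfl e, ← mul_sum]
      have h2 := Real.exp_pos (-Real.log n)
      have h3 := mul_le_mul_of_nonneg_left (tele (Real.log n) J) (hg0 n)
      refine h3.trans ?_
      simp only [G]
      nlinarith [mul_nonneg (hg0 n) h2.le]
  refine ⟨|C| + ∑' n : ℕ, 1 / Real.log 2 * ((if n.Prime then 0 else f n) / n), fun J => ?_⟩
  have h1 : ∑ j ∈ range J, (1 / 2 : ℝ) ^ j * ∑' n : ℕ, f n / (n : ℝ) ^ (1 + (1 / 2 : ℝ) ^ j)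
      ≤ 2 * ∑' n, G J n := by
    have e1 : ∑ j ∈ range J, (1 / 2 : ℝ) ^ j * ∑' n : ℕ, f n / (n : ℝ) ^ (1 + (1 / 2 : ℝ) ^ j)
        = ∑' n : ℕ, ∑ j ∈ range J, (1 / 2 : ℝ) ^ j *
          (f n / (n : ℝ) ^ (1 + (1 / 2 : ℝ) ^ j)) := by
      rw [Summable.tsum_finsetSum (fun j _ => (hsum j).mul_left _)]
      exact sum_congr rfl fun j _ => tsum_mul_left.symm
    rw [e1, ← tsum_mul_left]
    exact Summable.tsum_le_tsum (hpt J)
      (summable_sum fun j _ => (hsum j).mul_left _) ((hGs J).mul_left 2)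
  have h2 : ∀ j ∈ range J, (q.totient : ℝ)⁻¹ - |C| * (1 / 2 : ℝ) ^ j
      ≤ (1 / 2 : ℝ) ^ j * ∑' n : ℕ, f n / (n : ℝ) ^ (1 + (1 / 2 : ℝ) ^ j) := by
    intro j _
    have hx : (1 + (1 / 2 : ℝ) ^ j) ∈ Set.Ioc (1 : ℝ) 2 :=
      ⟨by linarith [ht0 j], by linarith [ht1 j]⟩
    have h3 := mul_le_mul_of_nonneg_left (hC hx) (ht0 j).le
    refine le_trans ?_ h3
    rw [add_sub_cancel_left, mul_sub]
    have e3 : (1 / 2 : ℝ) ^ j * ((q.totient : ℝ)⁻¹ / (1 / 2 : ℝ) ^ j) = (q.totient : ℝ)⁻¹ := by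
      field_simp
    rw [e3]
    have h4 : (1 / 2 : ℝ) ^ j * C ≤ |C| * (1 / 2 : ℝ) ^ j := by
      rw [mul_comm]
      exact mul_le_mul_of_nonneg_right (le_abs_self C) (ht0 j).le
    linarith
  have h5 := (sum_le_sum h2).trans h1
  rw [sum_sub_distrib, sum_const, card_range, nsmul_eq_mul, ← mul_sum] at h5
  have h6 : |C| * ∑ j ∈ range J, (1 / 2 : ℝ) ^ j ≤ |C| * 2 :=
    mul_le_mul_of_nonneg_left (sum_geometric_two_le J) (abs_nonneg C)
  have h7 : ∑' n, G J n ≤ ∑' n, P a J n +
      ∑' n : ℕ, 1 / Real.log 2 * ((if n.Prime then 0 else f n) / n) := by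
    rw [← (P_summable a J).tsum_add hR]
    exact Summable.tsum_le_tsum (hGle J) (hGs J) ((P_summable a J).add hR)
  linarith

end UsAux

open UsAux in
theorem us : S_Us := by
  intro M a hM ha
  haveI : NeZero M := ⟨hM.ne'⟩
  obtain ⟨K, hK⟩ := low ha
  have hc : 0 < (M.totient : ℝ)⁻¹ := inv_pos.mpr (mod_cast M.totient.pos_of_neZero)
  have hl2 : 0 < Real.log 2 := Real.log_pos one_lt_two
  refine ⟨(M.totient : ℝ)⁻¹ / 2 / Real.log 2, (M.totient : ℝ)⁻¹ / 2 + K + 1, by positivity,
    fun s hs hs1 => ?_⟩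
  have hls : 0 ≤ Real.log (1 / s) := Real.log_nonneg (by rw [le_div_iff₀ hs]; linarith)
  obtain ⟨J, hJ⟩ : ∃ J : ℕ, J = ⌊Real.log (1 / s) / Real.log 2⌋₊ := ⟨_, rfl⟩
  have hJ1 : (J : ℝ) ≤ Real.log (1 / s) / Real.log 2 := by
    rw [hJ]
    exact Nat.floor_le (by positivity)
  have hJ2 : Real.log (1 / s) / Real.log 2 < J + 1 := by
    rw [hJ]
    exact Nat.lt_floor_add_one _
  -- `s ≤ 2 ^ (-J)`
  have hsJ : s ≤ (1 / 2 : ℝ) ^ J := by
    rw [le_div_iff₀ hl2] at hJ1
    have h1 : Real.log ((2 : ℝ) ^ J) ≤ Real.log (1 / s) := by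
      rw [Real.log_pow]
      exact hJ1
    have h2 : (2 : ℝ) ^ J ≤ 1 / s := (Real.log_le_log_iff (by positivity) (by positivity)).mp h1
    rw [le_div_iff₀ hs] at h2
    rw [one_div, inv_pow, ← one_div, le_div_iff₀ (by positivity)]
    linarith
  -- truncation
  have ht := (P_summable a J).hasSum.tendsto_sum_nat
  obtain ⟨X, hX⟩ := (ht.eventually (lt_mem_nhds (show (∑' n, P a J n) - 1 < ∑' n, P a J n by
    linarith))).exists
  refine ⟨X, ?_⟩
  have h3 : ∑ n ∈ range X, P a J n ≤
      ∑ q ∈ (Finset.range X).filter (fun q : ℕ => q.Prime ∧ ((q : ℕ) : ZMod M) = a),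
        (q : ℝ) ^ (-(1 + s)) := by
    rw [Finset.sum_filter]
    refine Finset.sum_le_sum fun n _ => ?_
    unfold P
    split_ifs with h
    · refine Real.rpow_le_rpow_of_exponent_le ?_ (by linarith)
      have : 1 ≤ n := h.1.one_lt.le
      exact_mod_cast this
    · exact le_rfl
  refine le_trans ?_ h3
  have h4 := hK J
  have h5 : (M.totient : ℝ)⁻¹ / 2 / Real.log 2 * Real.log (1 / s) =
      (M.totient : ℝ)⁻¹ / 2 * (Real.log (1 / s) / Real.log 2) := by
    field_simp
  have h6 : (M.totient : ℝ)⁻¹ / 2 * (Real.log (1 / s) / Real.log 2) ≤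
      (M.totient : ℝ)⁻¹ / 2 * (J + 1) := mul_le_mul_of_nonneg_left hJ2.le (by positivity)
  rw [h5]
  linarith

end Pool.Agent.Lib.MP_706923_co
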