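import Pool.Agent.Lib.MP_706923_co.Spec3
import Pool.Agent.Lib.MP_706923_co.Us

/-! MP_706923_co, R6: lower bound for the sums of `q^(-1-s)` over the primes in a residue class,
with the explicit constant `(7/10)/φ(M)`. -/

set_option autoImplicit false

namespace Pool.Agent.Lib.MP_706923_co

open ArithmeticFunction ArithmeticFunction.vonMangoldt Finset

open UsAux in
theorem us2 : S_Us2 := by
  intro M a hM ha
  haveI : NeZero M := ⟨hM.ne'⟩
  obtain ⟨K, hK⟩ := low ha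
  have hc : 0 < (M.totient : ℝ)⁻¹ := inv_pos.mpr (mod_cast M.totient.pos_of_neZero)
  have hl2 : 0 < Real.log 2 := Real.log_pos one_lt_two
  refine ⟨(M.totient : ℝ)⁻¹ / 2 + K + 1, fun s hs hs1 => ?_⟩
  have hls : 0 ≤ Real.log (1 / s) := Real.log_nonneg (by rw [le_div_iff₀ hs]; linarith)
  obtain ⟨J, hJ⟩ : ∃ J : ℕ, J = ⌊Real.log (1 / s) / Real.log 2⌋₊ := ⟨_, rfl⟩
  have hJ1 : (J : ℝ) ≤ Real.log (1 / s) / Real.log 2 := by
    rw [hJ]
    exact Nat.floor_le (by positivity)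
  have hJ2 : Real.log (1 / s) / Real.log 2 < J + 1 := by
    rw [hJ]
    exact Nat.lt_floor_add_one _
  -- `s ≤ 2 ^ (-J)`
  have hsJ : s ≤ (1 / 2 : ℝ) ^ J := by
    rw [le_div_iff₀ hl2] at hJ1
    have h1 : Real.log ((2 : ℝ) ^ J) ≤ Real.log (1 / s) := by
      rw [Real.log_pow]
      exact hJ1
    have h2 : (2 : ℝ) ^ J ≤ 1 / s := (Real.log_le_log_iff (by positivity) (by positivity)).mp h1
    rw [le_div_iff₀ hs] at h2
    rw [one_div, inv_pow, ← one_div, le_div_iff₀ (by positivity)]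
    linarith
  -- truncation
  have ht := (P_summable a J).hasSum.tendsto_sum_nat
  obtain ⟨X, hX⟩ := (ht.eventually (lt_mem_nhds (show (∑' n, P a J n) - 1 < ∑' n, P a J n by
    linarith))).exists
  refine ⟨X, ?_⟩
  have h3 : ∑ n ∈ range X, P a J n ≤
      ∑ q ∈ (Finset.range X).filter (fun q : ℕ => q.Prime ∧ ((q : ℕ) : ZMod M) = a),
        (q : ℝ) ^ (-(1 + s)) := by
    rw [Finset.sum_filter]
    refine Finset.sum_le_sum fun n _ => ?_
    unfold P
    split_ifs with h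
    · refine Real.rpow_le_rpow_of_exponent_le ?_ (by linarith)
      have : 1 ≤ n := h.1.one_lt.le
      exact_mod_cast this
    · exact le_rfl
  refine le_trans ?_ h3
  have h4 := hK J
  have h5 : (M.totient : ℝ)⁻¹ / 2 / Real.log 2 * Real.log (1 / s) =
      (M.totient : ℝ)⁻¹ / 2 * (Real.log (1 / s) / Real.log 2) := by
    field_simp
  have h6 : (M.totient : ℝ)⁻¹ / 2 * (Real.log (1 / s) / Real.log 2) ≤
      (M.totient : ℝ)⁻¹ / 2 * (J + 1) := mul_le_mul_of_nonneg_left hJ2.le (by positivity)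
  have h7 : (7 / 10 : ℝ) / M.totient * Real.log (1 / s) ≤
      (M.totient : ℝ)⁻¹ / 2 / Real.log 2 * Real.log (1 / s) := by
    refine mul_le_mul_of_nonneg_right ?_ hls
    rw [le_div_iff₀ hl2, div_eq_mul_inv]
    have h8 : Real.log 2 ≤ 5 / 7 := by
      have := Real.log_two_lt_d9
      norm_num at this ⊢
      linarith
    have h9 : (7 / 10 : ℝ) * Real.log 2 ≤ 1 / 2 := by linarith
    calc (7 / 10 : ℝ) * (M.totient : ℝ)⁻¹ * Real.log 2
        = (M.totient : ℝ)⁻¹ * ((7 / 10 : ℝ) * Real.log 2) := by ring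
      _ ≤ (M.totient : ℝ)⁻¹ * (1 / 2) := mul_le_mul_of_nonneg_left h9 hc.le
      _ = (M.totient : ℝ)⁻¹ / 2 := by ring
  refine le_trans (sub_le_sub_right h7 _) ?_
  rw [h5]
  linarith

end Pool.Agent.Lib.MP_706923_co
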