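import Pool.Agent.Lib.MP_706923_co.Spec3

/-!
MP_706923_co, module R5 (removal of the exception lambda = 16): primes with many prime ideals of
norm `q` in a number field, by the class number formula.
-/

set_option autoImplicit false

namespace Pool.Agent.Lib.MP_706923_co

namespace ZetaAux

open scoped BigOperators NumberField
open Filter Topology

variable (K : Type) [Field K] [NumberField K]

/-- number of ideals of norm `n` -/
noncomputable def an (n : ℕ) : ℕ := Nat.card {I : Ideal (𝓞 K) // Ideal.absNorm I = n}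

/-- the real terms of the Dedekind zeta function -/
noncomputable def bn (σ : ℝ) (n : ℕ) : ℝ := (an K n : ℝ) * (n : ℝ) ^ (-σ)

theorem bn_nonneg (σ : ℝ) (n : ℕ) : 0 ≤ bn K σ n := by unfold bn; positivity

theorem term_eq (σ : ℝ) (hσ : σ ≠ 0) (n : ℕ) :
    LSeries.term (fun n ↦ (Nat.card {I : Ideal (𝓞 K) // Ideal.absNorm I = n} : ℂ)) (σ : ℂ) n =
      ((bn K σ n : ℝ) : ℂ) := by
  rcases Nat.eq_zero_or_pos n with rfl | hn
  · rw [LSeries.term_zero]
    unfold bn
    rw [Nat.cast_zero, Real.zero_rpow (neg_ne_zero.mpr hσ)]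
    simp
  · rw [LSeries.term_of_ne_zero hn.ne']
    unfold bn an
    rw [Complex.ofReal_mul, Complex.ofReal_cpow (Nat.cast_nonneg n)]
    push_cast
    rw [Complex.cpow_neg, div_eq_mul_inv]

theorem near_one : ∃ s₁ : ℝ, 0 < s₁ ∧ s₁ ≤ 1 ∧ ∃ C₁ : ℝ, 0 < C₁ ∧ ∀ s : ℝ, 0 < s → s ≤ s₁ →
    Summable (bn K (1 + s)) ∧ 0 < ∑' n, bn K (1 + s) n ∧ ∑' n, bn K (1 + s) n ≤ C₁ / s := by
  have hκ0 : 0 < NumberField.dedekindZeta_residue K := NumberField.dedekindZeta_residue_pos K
  have ht := NumberField.tendsto_sub_one_mul_dedekindZeta_nhdsGT K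
  have hnorm : Tendsto (fun s : ℝ => ‖((s : ℂ) - 1) * NumberField.dedekindZeta K (s : ℂ)‖)
      (𝓝[>] 1) (𝓝 (NumberField.dedekindZeta_residue K)) := by
    have h := ht.norm
    rwa [Complex.norm_real, Real.norm_of_nonneg hκ0.le] at h
  have h1 : ∀ᶠ s : ℝ in 𝓝[>] 1, ‖((s : ℂ) - 1) * NumberField.dedekindZeta K (s : ℂ)‖ <
      NumberField.dedekindZeta_residue K + 1 := hnorm.eventually_lt_const (by linarith)
  have h2 : ∀ᶠ s : ℝ in 𝓝[>] 1, 0 < ‖((s : ℂ) - 1) * NumberField.dedekindZeta K (s : ℂ)‖ :=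
    hnorm.eventually_const_lt hκ0
  have h3 := h1.and h2
  rw [eventually_nhdsWithin_iff, Metric.eventually_nhds_iff] at h3
  obtain ⟨δ, hδ, h3⟩ := h3
  refine ⟨min (δ / 2) 1, lt_min (by linarith) one_pos, min_le_right _ _,
    NumberField.dedekindZeta_residue K + 1, by linarith, ?_⟩
  intro s hs hs1
  have hs2 : s ≤ δ / 2 := le_trans hs1 (min_le_left _ _)
  have hdist : dist (1 + s) 1 < δ := by
    rw [Real.dist_eq, add_sub_cancel_left, abs_of_pos hs]
    linarith
  obtain ⟨h4, h5⟩ := h3 hdist (by simpa using hs)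
  have hne : NumberField.dedekindZeta K ((1 + s : ℝ) : ℂ) ≠ 0 := by
    intro h0
    rw [h0, mul_zero, norm_zero] at h5
    exact lt_irrefl _ h5
  have hσ : (1 + s : ℝ) ≠ 0 := by linarith
  have hsum : LSeriesSummable
      (fun n ↦ (Nat.card {I : Ideal (𝓞 K) // Ideal.absNorm I = n} : ℂ)) ((1 + s : ℝ) : ℂ) := by
    by_contra hns
    exact hne (LSeries.eq_zero_of_not_LSeriesSummable _ _ hns)
  have hsum' : Summable (bn K (1 + s)) := by
    have h6 : Summable (fun n => ((bn K (1 + s) n : ℝ) : ℂ)) := by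
      have : (fun n => ((bn K (1 + s) n : ℝ) : ℂ)) = LSeries.term
          (fun n ↦ (Nat.card {I : Ideal (𝓞 K) // Ideal.absNorm I = n} : ℂ)) ((1 + s : ℝ) : ℂ) := by
        funext n
        exact (term_eq K (1 + s) hσ n).symm
      rw [this]
      exact hsum
    exact Complex.summable_ofReal.mp h6
  have hval : NumberField.dedekindZeta K ((1 + s : ℝ) : ℂ) =
      ((∑' n, bn K (1 + s) n : ℝ) : ℂ) := by
    unfold NumberField.dedekindZeta LSeries
    rw [Complex.ofReal_tsum]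
    exact tsum_congr (fun n => term_eq K (1 + s) hσ n)
  have hnn : 0 ≤ ∑' n, bn K (1 + s) n := tsum_nonneg (bn_nonneg K (1 + s))
  refine ⟨hsum', ?_, ?_⟩
  · rcases hnn.lt_or_eq with h | h
    · exact h
    · exfalso
      apply hne
      rw [hval, ← h]
      simp
  · rw [le_div_iff₀ hs]
    have h7 : ‖(((1 + s : ℝ) : ℂ) - 1) * NumberField.dedekindZeta K ((1 + s : ℝ) : ℂ)‖ =
        (∑' n, bn K (1 + s) n) * s := by
      rw [hval, norm_mul, Complex.norm_real, Real.norm_of_nonneg hnn]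
      have : (((1 + s : ℝ) : ℂ) - 1) = ((s : ℝ) : ℂ) := by
        push_cast
        ring
      rw [this, Complex.norm_real, Real.norm_of_nonneg hs.le, mul_comm]
    rw [h7] at h4
    exact h4.le

theorem prod_le (σ : ℝ) (hσ : Summable (bn K σ)) (B : Finset (Ideal (𝓞 K)))
    (hB : ∀ I ∈ B, Prime I) :
    ∏ I ∈ B, (1 + (Ideal.absNorm I : ℝ) ^ (-σ)) ≤ ∑' n, bn K σ n := by
  classical
  rw [Finset.prod_one_add]
  have hnorm : ∀ D : Finset (Ideal (𝓞 K)), ∏ I ∈ D, (Ideal.absNorm I : ℝ) ^ (-σ) =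
      ((Ideal.absNorm (∏ I ∈ D, I) : ℕ) : ℝ) ^ (-σ) := by
    intro D
    rw [map_prod, Nat.cast_prod, Real.finsetProd_rpow]
    intro i _
    positivity
  have hinj : Set.InjOn (fun D : Finset (Ideal (𝓞 K)) => ∏ I ∈ D, I)
      (B.powerset : Set (Finset (Ideal (𝓞 K)))) := by
    intro D hD E hE h
    have hD' : ∀ p ∈ D.val, Prime p := fun p hp => hB p (Finset.mem_powerset.mp hD hp)
    have hE' : ∀ p ∈ E.val, Prime p := fun p hp => hB p (Finset.mem_powerset.mp hE hp)
    have h1 := UniqueFactorizationMonoid.normalizedFactors_prod_of_prime hD'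
    have h2 := UniqueFactorizationMonoid.normalizedFactors_prod_of_prime hE'
    apply Finset.val_injective
    rw [← h1, ← h2]
    congr 1
    have e1 : D.val.prod = ∏ I ∈ D, I := by
      unfold Finset.prod
      rw [Multiset.map_id']
    have e2 : E.val.prod = ∏ I ∈ E, I := by
      unfold Finset.prod
      rw [Multiset.map_id']
    rw [e1, e2]
    exact h
  rw [Finset.sum_congr rfl (fun D _ => hnorm D)]
  have himg : ∑ D ∈ B.powerset, ((Ideal.absNorm (∏ I ∈ D, I) : ℕ) : ℝ) ^ (-σ) =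
      ∑ J ∈ B.powerset.image (fun D : Finset (Ideal (𝓞 K)) => ∏ I ∈ D, I),
        ((Ideal.absNorm J : ℕ) : ℝ) ^ (-σ) := by
    rw [Finset.sum_image hinj]
  rw [himg]
  generalize B.powerset.image (fun D : Finset (Ideal (𝓞 K)) => ∏ I ∈ D, I) = J
  rw [← Finset.sum_fiberwise_of_maps_to (g := fun I : Ideal (𝓞 K) => Ideal.absNorm I)
    (t := J.image (fun I : Ideal (𝓞 K) => Ideal.absNorm I))
    (fun I hI => Finset.mem_image_of_mem _ hI)]
  calc ∑ n ∈ J.image (fun I : Ideal (𝓞 K) => Ideal.absNorm I),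
        ∑ I ∈ J.filter (fun I : Ideal (𝓞 K) => Ideal.absNorm I = n),
          ((Ideal.absNorm I : ℕ) : ℝ) ^ (-σ)
      ≤ ∑ n ∈ J.image (fun I : Ideal (𝓞 K) => Ideal.absNorm I), bn K σ n := by
        apply Finset.sum_le_sum
        intro n _
        have h1 : ∑ I ∈ J.filter (fun I : Ideal (𝓞 K) => Ideal.absNorm I = n),
            ((Ideal.absNorm I : ℕ) : ℝ) ^ (-σ) =
            ∑ I ∈ J.filter (fun I : Ideal (𝓞 K) => Ideal.absNorm I = n), (n : ℝ) ^ (-σ) := by
          apply Finset.sum_congr rfl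
          intro I hI
          rw [(Finset.mem_filter.mp hI).2]
        rw [h1, Finset.sum_const, nsmul_eq_mul]
        unfold bn
        apply mul_le_mul_of_nonneg_right _ (by positivity)
        have h2 : (J.filter (fun I : Ideal (𝓞 K) => Ideal.absNorm I = n)).card ≤ an K n := by
          have hf : {I : Ideal (𝓞 K) | Ideal.absNorm I = n}.Finite :=
            Ideal.finite_setOfPred_absNorm_eq n
          have e1 : an K n = {I : Ideal (𝓞 K) | Ideal.absNorm I = n}.ncard := by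
            unfold an
            exact Nat.card_coe_set_eq {I : Ideal (𝓞 K) | Ideal.absNorm I = n}
          rw [e1, ← Set.ncard_coe_finset]
          apply Set.ncard_le_ncard _ hf
          intro I hI
          have hI' := Finset.mem_coe.mp hI
          exact (Finset.mem_filter.mp hI').2
        exact_mod_cast h2
    _ ≤ ∑' n, bn K σ n := hσ.sum_le_tsum _ (fun n _ => bn_nonneg K σ n)

theorem log_lower (x : ℝ) (hx : 0 ≤ x) : x - x ^ 2 ≤ Real.log (1 + x) := by
  have h := Real.le_log_one_add_of_nonneg hx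
  refine le_trans ?_ h
  rw [le_div_iff₀ (by linarith)]
  nlinarith [mul_nonneg hx hx, mul_nonneg (mul_nonneg hx hx) hx]

theorem sum_sq_le (F : Finset ℕ) : ∑ q ∈ F, (1 : ℝ) / (q : ℝ) ^ 2 ≤ 2 := by
  have h := hasSum_zeta_two
  have h1 : ∑ q ∈ F, (1 : ℝ) / (q : ℝ) ^ 2 ≤ Real.pi ^ 2 / 6 := by
    rw [← h.tsum_eq]
    exact h.summable.sum_le_tsum _ (fun n _ => by positivity)
  have h2 : Real.pi < 3.15 := Real.pi_lt_d2
  have h3 : 0 < Real.pi := Real.pi_pos
  nlinarith

theorem main_ineq (d : ℕ) (σ : ℝ) (hσ1 : 1 ≤ σ) (hσ : Summable (bn K σ)) (F : Finset ℕ)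
    (hF : ∀ q ∈ F, q.Prime ∧
      d ≤ Nat.card {I : Ideal (𝓞 K) // I.IsPrime ∧ Ideal.absNorm I = q}) :
    (d : ℝ) * ∑ q ∈ F, (q : ℝ) ^ (-σ) ≤ Real.log (∑' n, bn K σ n) + 2 * d := by
  classical
  have hfin : ∀ q : ℕ, {I : Ideal (𝓞 K) | I.IsPrime ∧ Ideal.absNorm I = q}.Finite := by
    intro q
    apply (Ideal.finite_setOfPred_absNorm_eq (S := 𝓞 K) q).subset
    intro I hI
    exact hI.2
  let S : ℕ → Finset (Ideal (𝓞 K)) := fun q => (hfin q).toFinset
  have hS : ∀ q I, I ∈ S q ↔ (I.IsPrime ∧ Ideal.absNorm I = q) := by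
    intro q I
    simp [S]
  have hcard : ∀ q ∈ F, d ≤ (S q).card := by
    intro q hq
    have h := (hF q hq).2
    have e1 : Nat.card {I : Ideal (𝓞 K) // I.IsPrime ∧ Ideal.absNorm I = q} = (S q).card := by
      have := Nat.card_coe_set_eq {I : Ideal (𝓞 K) | I.IsPrime ∧ Ideal.absNorm I = q}
      rw [Set.ncard_eq_toFinset_card _ (hfin q)] at this
      exact this
    rwa [e1] at h
  have hdisj : Set.PairwiseDisjoint (F : Set ℕ) S := by
    intro q _ q' _ hne
    rw [Function.onFun, Finset.disjoint_left]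
    intro I hI hI'
    apply hne
    rw [← ((hS q I).mp hI).2, ← ((hS q' I).mp hI').2]
  have hB : ∀ I ∈ F.biUnion S, Prime I := by
    intro I hI
    obtain ⟨q, hq, hI⟩ := Finset.mem_biUnion.mp hI
    have h1 := (hS q I).mp hI
    apply Ideal.prime_of_isPrime _ h1.1
    intro h0
    rw [h0, Ideal.absNorm_bot] at h1
    exact (hF q hq).1.ne_zero h1.2.symm
  have hle := prod_le K σ hσ (F.biUnion S) hB
  rw [Finset.prod_biUnion hdisj] at hle
  have hpow : ∏ q ∈ F, (1 + (q : ℝ) ^ (-σ)) ^ d ≤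
      ∏ q ∈ F, ∏ I ∈ S q, (1 + (Ideal.absNorm I : ℝ) ^ (-σ)) := by
    apply Finset.prod_le_prod
    · intro q _
      positivity
    · intro q hq
      have e1 : ∏ I ∈ S q, (1 + (Ideal.absNorm I : ℝ) ^ (-σ)) =
          (1 + (q : ℝ) ^ (-σ)) ^ (S q).card := by
        rw [← Finset.prod_const]
        apply Finset.prod_congr rfl
        intro I hI
        rw [((hS q I).mp hI).2]
      rw [e1]
      apply pow_le_pow_right₀ _ (hcard q hq)
      have : 0 ≤ (q : ℝ) ^ (-σ) := by positivity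
      linarith
  have hle2 := le_trans hpow hle
  have hpos : 0 < ∏ q ∈ F, (1 + (q : ℝ) ^ (-σ)) ^ d := by
    apply Finset.prod_pos
    intro q _
    positivity
  have hlog := Real.log_le_log hpos hle2
  rw [Real.log_prod (fun q _ => by positivity)] at hlog
  have hlow : ∀ q ∈ F, (d : ℝ) * (q : ℝ) ^ (-σ) - d * (1 / (q : ℝ) ^ 2) ≤
      Real.log ((1 + (q : ℝ) ^ (-σ)) ^ d) := by
    intro q hq
    have hq1 : (1 : ℝ) ≤ q := by exact_mod_cast (hF q hq).1.one_lt.le
    have hx0 : 0 ≤ (q : ℝ) ^ (-σ) := by positivity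
    have hx1 : (q : ℝ) ^ (-σ) ≤ 1 / (q : ℝ) := by
      have h := Real.rpow_le_rpow_of_exponent_le hq1 (neg_le_neg hσ1)
      rwa [Real.rpow_neg_one, inv_eq_one_div] at h
    rw [Real.log_pow, ← mul_sub]
    apply mul_le_mul_of_nonneg_left _ (Nat.cast_nonneg d)
    have h1 := log_lower _ hx0
    have h2 : ((q : ℝ) ^ (-σ)) ^ 2 ≤ 1 / (q : ℝ) ^ 2 := by
      calc ((q : ℝ) ^ (-σ)) ^ 2 ≤ (1 / (q : ℝ)) ^ 2 := pow_le_pow_left₀ hx0 hx1 2
        _ = 1 / (q : ℝ) ^ 2 := by rw [div_pow, one_pow]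
    linarith
  have hsum := Finset.sum_le_sum hlow
  rw [Finset.sum_sub_distrib, ← Finset.mul_sum, ← Finset.mul_sum] at hsum
  have h2 := mul_le_mul_of_nonneg_left (sum_sq_le F) (Nat.cast_nonneg (α := ℝ) d)
  linarith

end ZetaAux

open ZetaAux in
theorem zeta : S_Zeta := by
  intro K _ _ d
  obtain ⟨s₁, hs₁, hs₁1, C₁, hC₁, hnear⟩ := near_one K
  refine ⟨Real.log C₁ + 2 * d + |Real.log C₁| + |Real.log (1 / s₁)|, ?_⟩
  intro s hs hs1 F hF
  have hgood : ∀ t : ℝ, 0 < t → t ≤ s₁ →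
      (d : ℝ) * ∑ q ∈ F, (q : ℝ) ^ (-(1 + t)) ≤ Real.log (1 / t) + Real.log C₁ + 2 * d := by
    intro t ht ht1
    obtain ⟨hsum, hpos, hle⟩ := hnear t ht ht1
    have h1 := main_ineq K d (1 + t) (by linarith) hsum F hF
    have h2 : Real.log (∑' n, bn K (1 + t) n) ≤ Real.log (C₁ / t) := Real.log_le_log hpos hle
    have h3 : Real.log (C₁ / t) = Real.log (1 / t) + Real.log C₁ := by
      rw [div_eq_mul_one_div, Real.log_mul hC₁.ne' (by positivity), add_comm]
    linarith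
  by_cases hcase : s ≤ s₁
  · have h := hgood s hs hcase
    have h1 : 0 ≤ |Real.log C₁| := abs_nonneg _
    have h2 : 0 ≤ |Real.log (1 / s₁)| := abs_nonneg _
    linarith
  · push Not at hcase
    have h := hgood s₁ hs₁ le_rfl
    have hmono : ∑ q ∈ F, (q : ℝ) ^ (-(1 + s)) ≤ ∑ q ∈ F, (q : ℝ) ^ (-(1 + s₁)) := by
      apply Finset.sum_le_sum
      intro q hq
      have hq1 : (1 : ℝ) ≤ q := by exact_mod_cast (hF q hq).1.one_lt.le
      exact Real.rpow_le_rpow_of_exponent_le hq1 (by linarith)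
    have hmono' := mul_le_mul_of_nonneg_left hmono (Nat.cast_nonneg (α := ℝ) d)
    have h1 : 0 ≤ |Real.log C₁| := abs_nonneg _
    have h2 : Real.log (1 / s₁) ≤ |Real.log (1 / s₁)| := le_abs_self _
    have h3 : 0 ≤ Real.log (1 / s) := by
      apply Real.log_nonneg
      rw [le_div_iff₀ hs]
      linarith
    linarith

end Pool.Agent.Lib.MP_706923_co
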